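import Pool.Agent.H40.CK.Basic

/-!
# Project CM: bounded maximum degree (MP_9cdbe4_co)

Definitions shared by the modules.
-/

namespace Pool.Agent.H40.CM

open SimpleGraph Pool.Agent.H40.CK

variable {V : Type*}

/-- `E` hits all cycles of length at most `s`, every edge of `E` has a private such cycle, and
vertices of degree at least three keep degree at least two in `G \ E`. -/
structure HitD (G E : SimpleGraph V) (s : ℕ) : Prop where
  le : E ≤ G
  hit : ∀ (u : V) (C : G.Walk u u), C.IsCycle → C.length ≤ s → ∃ e ∈ C.edges, e ∈ E.edgeSet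
  priv : ∀ e ∈ E.edgeSet, ∃ (u : V) (C : G.Walk u u), C.IsCycle ∧ C.length ≤ s ∧ e ∈ C.edges ∧
    ∀ e' ∈ C.edges, e' ∈ E.edgeSet → e' = e
  deg : ∀ v, 3 ≤ (G.neighborSet v).ncard → 2 ≤ ((G \ E).neighborSet v).ncard

/-- Some cycle of length at most `s` passes through `v` using the edges `v x` and `v y`. -/
def Tr (G : SimpleGraph V) (s : ℕ) (v x y : V) : Prop :=
  x ≠ y ∧ ∃ (w : V) (Z : G.Walk w w), Z.IsCycle ∧ Z.length ≤ s ∧ s(v, x) ∈ Z.edges ∧
    s(v, y) ∈ Z.edges

/-- The short cycles through `v` using `v x` or `v y` use both of them. -/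
def Thin (G : SimpleGraph V) (s : ℕ) (v x y : V) : Prop :=
  Tr G s v x y ∧ (∀ z, Tr G s v x z → z = y) ∧ (∀ z, Tr G s v y z → z = x)

/-- Vertices of degree one outside `cyc G`. -/
def T1 (G : SimpleGraph V) : Set V := {v | v ∉ (cyc G).support ∧ (G.neighborSet v).ncard = 1}

/-- Vertices of degree at least three outside `cyc G`. -/
def T3 (G : SimpleGraph V) : Set V := {v | v ∉ (cyc G).support ∧ 3 ≤ (G.neighborSet v).ncard}

/-- The number of nontrivial components of `cyc G` with at most two bridge-darts. -/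
noncomputable def smallK (G : SimpleGraph V) : ℕ :=
  {κ : (cyc G).ConnectedComponent | κ.supp.Nontrivial ∧ bdeg G κ ≤ 2}.ncard

/-- The bridge-darts starting at a vertex of `cyc G`. -/
def ntDarts (G : SimpleGraph V) : Set (V × V) :=
  {d | d.1 ∈ (cyc G).support ∧ G.Adj d.1 d.2 ∧ ¬ (cyc G).Adj d.1 d.2}

/-- The edges of `G` with both ends covered by `H` which are not in `H` or whose ends both have
`H`-degree at least three. -/
def goodD (G H : SimpleGraph V) : Set (Sym2 V) :=
  {e | e ∈ G.edgeSet ∧ (∀ z ∈ e, z ∈ H.support) ∧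
    (e ∉ H.edgeSet ∨ ∀ z ∈ e, 3 ≤ (H.neighborSet z).ncard)}

end Pool.Agent.H40.CM
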