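import Pool.Agent.H40.CK.A8
import Pool.Agent.H40.CM.Defs

/-!
# CM / AF: Theorem A in a convenient form
-/

namespace Pool.Agent.H40.CM

open SimpleGraph Pool.Agent.H40.CK

variable {V : Type*}

theorem isMatch_mono {M M' : SimpleGraph V} (h : M' ≤ M) (hM : IsMatch M) : IsMatch M' :=
  fun x y z hy hz => hM x y z (h hy) (h hz)

theorem rich_of_free [Finite V] {G F M : SimpleGraph V} (θ : ℝ) (hθ : 0 < θ) (hθ1 : θ ≤ 1)
    (s₀ : ℕ) (hF : F.IsCycles) (hM : IsMatch M) (hFG : F ≤ G) (hMG : M ≤ G) [Nonempty V]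
    (hno : ∀ (u : V) (C : F.Walk u u), C.IsCycle → s₀ ≤ C.length)
    (hdens : θ * (Nat.card V : ℝ) ≤ ((free M F).ncard : ℝ)) (hs₀ : 10 ^ 8 / θ ^ 4 ≤ (s₀ : ℝ)) :
    ∃ (u : V) (C : G.Walk u u), C.IsCycle ∧
      θ / 8 * (C.length : ℝ) ≤ ((chords G C).ncard : ℝ) := by
  classical
  set M' : SimpleGraph V := fromEdgeSet (free M F) with hMdef
  have hMedge : M'.edgeSet = free M F := by
    rw [hMdef, edgeSet_fromEdgeSet]
    ext e
    constructor
    · exact fun h => h.1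
    · exact fun h => ⟨h, M.not_isDiag_of_mem_edgeSet h.1⟩
  have hM'M : M' ≤ M := by
    intro x y hxy
    rw [hMdef, fromEdgeSet_adj] at hxy
    exact hxy.1.1
  have hMmatch : IsMatch M' := isMatch_mono hM'M hM
  have hlong : Long F s₀ := by
    intro v hv
    obtain ⟨C, hC, hl, -, -⟩ := comp_cycle hF le_rfl hv
    rw [← hl]
    exact hno v C hC
  have hV : (0 : ℝ) < (Nat.card V : ℝ) := by exact_mod_cast Nat.card_pos
  have hfree1 : 0 < (free M F).ncard := by
    have : (0 : ℝ) < ((free M F).ncard : ℝ) := lt_of_lt_of_le (by positivity) hdens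
    exact_mod_cast this
  obtain ⟨e, he⟩ := (Set.ncard_pos (Set.toFinite _)).1 hfree1
  have hFne : F.support.Nonempty := by
    induction e with
    | h x y => exact ⟨x, he.2.2 x (by simp)⟩
  obtain ⟨u, C, hC, hCc⟩ := theoremA F M' θ hθ hθ1 s₀ hF hMmatch
    (by
      intro x y hxy hF
      rw [hMdef, fromEdgeSet_adj] at hxy
      exact hxy.1.2.1 hF)
    (by
      rintro x ⟨y, hxy⟩
      have hxy' : (fromEdgeSet (free M F)).Adj x y := hxy
      rw [fromEdgeSet_adj] at hxy'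
      exact hxy'.1.2.2 x (by simp))
    hFne
    (by
      rw [hMedge]
      refine le_trans ?_ hdens
      have h1 : F.support.ncard ≤ Nat.card V := Set.ncard_le_card _
      have h2 : (F.support.ncard : ℝ) ≤ (Nat.card V : ℝ) := by exact_mod_cast h1
      gcongr)
    hlong hs₀
  have hsup : F ⊔ M' ≤ G := sup_le hFG (hM'M.trans hMG)
  refine ⟨u, C.mapLe hsup, hC.mapLe hsup, ?_⟩
  have hsub2 : ({e | e ∈ M'.edgeSet ∧ e ∉ C.edges ∧ ∀ z ∈ e, z ∈ C.support} : Set (Sym2 V)) ⊆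
      chords G (C.mapLe hsup) := by
    rintro e ⟨h1, h2, h3⟩
    refine ⟨(edgeSet_mono (hM'M.trans hMG)) h1, by simpa using h2, by simpa using h3⟩
  have hcount2 := Set.ncard_le_ncard hsub2 (Set.toFinite _)
  have hlen : (C.mapLe hsup).length = C.length := by simp
  rw [hlen]
  have h5 : ((({e | e ∈ M'.edgeSet ∧ e ∉ C.edges ∧ ∀ z ∈ e, z ∈ C.support} :
      Set (Sym2 V)).ncard : ℕ) : ℝ) ≤ ((chords G (C.mapLe hsup)).ncard : ℝ) := by
    exact_mod_cast hcount2
  linarith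

end Pool.Agent.H40.CM
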