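import Pool.Agent.H40.CM.E2

/-!
# CM / E4a: a minimal set of thin corners

Let `𝒯` be the (finite) set of triples `(v, x, y)` with `Thin G s v x y`.  Call a subset `Y ⊆ 𝒯` hitting if
every cycle of length `≤ s` contains `s(v, x)` for some `(v, x, y) ∈ Y`.  `𝒯` is hitting by `exists_thin`.  Take an
inclusion-minimal hitting `Y`.
(*) If `(v, x, y) ∈ 𝒯` and a cycle `C` of length `≤ s` contains `s(v, x)` then it contains `s(v, y)`: the cycle has
a second edge `s(v, z)`, `z ≠ x`, at `v`, so `Tr G s v x z`, so `z = y`.  Similarly with `x`, `y` exchanged.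
For `(v, x, y) ∈ Y`, `Y \ {(v, x, y)}` is not hitting: there is a cycle `C` of length `≤ s` which contains no
`s(v', x')` with `(v', x', y') ∈ Y`, `(v', x', y') ≠ (v, x, y)`; so it contains `s(v, x)` and, by (*),
`s(v, y)`.
The last item of the statement (with `s(v', x') ∈ C.edges ∨ s(v', y') ∈ C.edges`) follows by (*).
-/

namespace Pool.Agent.H40.CM

open SimpleGraph Pool.Agent.H40.CK

variable {V : Type*}

theorem E4a_other {G : SimpleGraph V} {s : ℕ} {u v x y : V} (C : G.Walk u u) (hC : C.IsCycle)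
    (hlen : C.length ≤ s) (hx : s(v, x) ∈ C.edges) (hT : ∀ z, Tr G s v x z → z = y) :
    s(v, y) ∈ C.edges := by
  obtain ⟨a, b, r, hab, ha, hb, -, -, -, hat⟩ :=
    E2_corner C hC (C.fst_mem_support_of_mem_edges hx)
  rcases hat x hx with rfl | rfl
  · have h1 := hT b ⟨hab, u, C, hC, hlen, hx, hb⟩
    rwa [h1] at hb
  · have h1 := hT a ⟨hab.symm, u, C, hC, hlen, hx, ha⟩
    rwa [h1] at ha

theorem exists_corners [Finite V] {G : SimpleGraph V} {s : ℕ} (hno : ¬ ShortChorded G (3 * s)) :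
    ∃ Y : Set (V × V × V),
      (∀ c ∈ Y, Thin G s c.1 c.2.1 c.2.2) ∧
      (∀ (u : V) (C : G.Walk u u), C.IsCycle → C.length ≤ s →
        ∃ c ∈ Y, s(c.1, c.2.1) ∈ C.edges ∧ s(c.1, c.2.2) ∈ C.edges) ∧
      (∀ c ∈ Y, ∃ (u : V) (C : G.Walk u u), C.IsCycle ∧ C.length ≤ s ∧
        s(c.1, c.2.1) ∈ C.edges ∧ s(c.1, c.2.2) ∈ C.edges ∧
        ∀ c' ∈ Y, (s(c'.1, c'.2.1) ∈ C.edges ∨ s(c'.1, c'.2.2) ∈ C.edges) → c' = c) := by
  set H : Set (Set (V × V × V)) := {Y | (∀ c ∈ Y, Thin G s c.1 c.2.1 c.2.2) ∧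
    ∀ (u : V) (C : G.Walk u u), C.IsCycle → C.length ≤ s → ∃ c ∈ Y, s(c.1, c.2.1) ∈ C.edges} with hH
  have hne : H.Nonempty := by
    refine ⟨{c | Thin G s c.1 c.2.1 c.2.2}, fun c hc => hc, ?_⟩
    intro u C hC hlen
    obtain ⟨v, x, y, hx, -, hT⟩ := exists_thin hno C hC hlen
    exact ⟨(v, x, y), hT, hx⟩
  obtain ⟨Y, hY⟩ := (Set.toFinite H).exists_minimal hne
  obtain ⟨hthin, hhit⟩ := hY.prop
  refine ⟨Y, hthin, ?_, ?_⟩
  · intro u C hC hlen
    obtain ⟨c, hc, hcx⟩ := hhit u C hC hlen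
    exact ⟨c, hc, hcx, E4a_other C hC hlen hcx (hthin c hc).2.1⟩
  · intro c hc
    have hnot : Y \ {c} ∉ H := by
      intro h
      have h1 := hY.le_of_le h Set.sdiff_subset hc
      exact h1.2 rfl
    have hex : ∃ (u : V) (C : G.Walk u u), C.IsCycle ∧ C.length ≤ s ∧
        ∀ c' ∈ Y \ {c}, s(c'.1, c'.2.1) ∉ C.edges := by
      by_contra hcon
      push Not at hcon
      apply hnot
      exact ⟨fun c' hc' => hthin c' hc'.1, fun u C hC hl => hcon u C hC hl⟩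
    obtain ⟨u, C, hC, hlen, hC2⟩ := hex
    have huniq : ∀ c' ∈ Y, s(c'.1, c'.2.1) ∈ C.edges → c' = c := by
      intro c' hc' he
      by_contra hne'
      exact hC2 c' ⟨hc', hne'⟩ he
    obtain ⟨c'', hc'', he⟩ := hhit u C hC hlen
    have heq := huniq c'' hc'' he
    subst heq
    refine ⟨u, C, hC, hlen, he, E4a_other C hC hlen he (hthin _ hc'').2.1, ?_⟩
    rintro c' hc' (h1 | h1)
    · exact huniq c' hc' h1
    · exact huniq c' hc' (E4a_other C hC hlen h1 (hthin c' hc').2.2)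

end Pool.Agent.H40.CM
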