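import Pool.Agent.H40.CM.E3
import Pool.Agent.H40.CM.E4a

/-!
# CM / E4: the edge set `E` hitting all short cycles

Let `Y` be the set of corners of `exists_corners`; the private cycle of `c ∈ Y` is called `C_c`.
Apply `assign` to the subtype `Y` with `p c = c.2.1`, `q c = c.2.2` (different, since `Tr` requires it): get
`f : Y → V`, `f c ∈ {c.2.1, c.2.2}`, `2 #{c | f c = z} ≤ #{c ∈ Y | c.2.1 = z ∨ c.2.2 = z} + 1`.
`E` = the graph with edges `s(c.1, f c)`, `c ∈ Y` (adjacent in `G` as they are edges of cycles of `G`).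
* `hit`: a cycle of length `≤ s` contains both edges of some corner `c ∈ Y`, in particular `s(c.1, f c)`.
* `priv`: for `e = s(c.1, f c)` take `C_c`; if `s(c'.1, f c') ∈ C_c` then `c' = c`.
* `deg`: fix `v` with `deg_G v ≥ 3`.  Let `Ow` = the set of `c ∈ Y` with `c.1 = v` (owned corners), `o = #Ow`, and `Q`
  = the set of `x` such that some `c ∈ Y` with `c.1 = x` has `v ∈ {c.2.1, c.2.2}`, `q = #Q`.  All are
  neighbours of `v`.
  (i) The pairs `{c.2.1, c.2.2}`, `c ∈ Ow`, are pairwise disjoint: if `c, c' ∈ Ow` share a vertex then `C_c`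
      contains an edge of the corner `c'`, so `c' = c`.
  (ii) They are disjoint from `Q`: if `x ∈ {c.2.1, c.2.2}`, `c ∈ Ow`, and `c' ∈ Y`, `c'.1 = x`, `v ∈ {c'.2.1, c'.2.2}` then
      `C_c` contains `s(v, x)`, an edge of the corner `c'`, so `c' = c`, but `c'.1 = x ≠ v`.
  (iii) For `x ∈ Q` the corner `c ∈ Y` with `c.1 = x` and `v ∈ {c.2.1, c.2.2}` is unique (same argument).
      Hence `#{c ∈ Y | c.2.1 = v ∨ c.2.2 = v} = q`.
  So `deg_G v = 2 o + q + r` where `r` is the number of the other neighbours.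
  (iv) If `q ≥ 1` then `r ≥ 1`: take `x ∈ Q` with corner `c`; the cycle `C_c` uses the edge `s(x, v)` and
      another edge `s(v, z)`, `z ≠ x`.  If `z ∈ Q` with corner `c'` then `s(z, v) ∈ C_c` gives `c' = c`, but
      `c'.1 = z ≠ x`.  If `z` is in the pair of `c' ∈ Ow` then `s(v, z) ∈ C_c` gives `c' = c`, but `c'.1 = v ≠ x`.
  The `E`-neighbours of `v` are: `f c` for `c ∈ Ow` (at most `o`), and the `x = c.1` with `f c = v`
  (at most `#{c | f c = v} ≤ (q + 1) / 2`).
  So `deg_{G \ E} v ≥ 2 o + q + r - o - (q + 1) / 2 = o + r + q / 2` (integer division), which is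
  `≥ 2` when `2 o + q + r ≥ 3` and (`q ≥ 1 → r ≥ 1`): `omega`.
-/

namespace Pool.Agent.H40.CM

open SimpleGraph Pool.Agent.H40.CK

variable {V : Type*}

theorem E4_second {G : SimpleGraph V} {u v x : V} (C : G.Walk u u) (hC : C.IsCycle)
    (hx : s(v, x) ∈ C.edges) : ∃ z, z ≠ x ∧ s(v, z) ∈ C.edges := by
  obtain ⟨a, b, r, hab, ha, hb, -, -, -, hat⟩ :=
    E2_corner C hC (C.fst_mem_support_of_mem_edges hx)
  rcases hat x hx with rfl | rfl
  · exact ⟨b, hab.symm, hb⟩
  · exact ⟨a, hab, ha⟩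

theorem exists_hitD [Finite V] {G : SimpleGraph V} {s : ℕ} (hno : ¬ ShortChorded G (3 * s)) :
    ∃ E : SimpleGraph V, HitD G E s := by
  classical
  obtain ⟨Y, hthin, hhit, hpriv⟩ := exists_corners hno
  have hne : ∀ c : Y, c.1.2.1 ≠ c.1.2.2 := fun c => (hthin c.1 c.2).1.1
  obtain ⟨f, hf, hfc⟩ := assign (fun c : Y => c.1.2.1) (fun c : Y => c.1.2.2) hne
  have hpriv' : ∀ c : Y, ∃ (u : V) (C : G.Walk u u), C.IsCycle ∧ C.length ≤ s ∧
      s(c.1.1, c.1.2.1) ∈ C.edges ∧ s(c.1.1, c.1.2.2) ∈ C.edges ∧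
      ∀ c' : Y, (s(c'.1.1, c'.1.2.1) ∈ C.edges ∨ s(c'.1.1, c'.1.2.2) ∈ C.edges) → c' = c := by
    intro c
    obtain ⟨u, C, h1, h2, h3, h4, h5⟩ := hpriv c.1 c.2
    exact ⟨u, C, h1, h2, h3, h4, fun c' h => Subtype.ext (h5 c'.1 c'.2 h)⟩
  choose u C hC hl hx' hy' hU' using hpriv'
  have hfe : ∀ c : Y, s(c.1.1, f c) ∈ (C c).edges := by
    intro c
    rcases hf c with h | h
    · rw [h]; exact hx' c
    · rw [h]; exact hy' c
  have hfU : ∀ c c' : Y, s(c'.1.1, f c') ∈ (C c).edges → c' = c := by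
    intro c c' h
    apply hU'
    rcases hf c' with h1 | h1
    · left; rwa [h1] at h
    · right; rwa [h1] at h
  set S : Set (Sym2 V) := {e | ∃ c : Y, e = s(c.1.1, f c)} with hS
  have hSE : (SimpleGraph.fromEdgeSet S).edgeSet = S := by
    rw [SimpleGraph.edgeSet_fromEdgeSet]
    ext e
    constructor
    · exact fun h => h.1
    · rintro ⟨c, rfl⟩
      exact ⟨⟨c, rfl⟩, fun h => ((C c).adj_of_mem_edges (hfe c)).ne h⟩
  refine ⟨SimpleGraph.fromEdgeSet S, ?_, ?_, ?_, ?_⟩
  · intro a b hab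
    have h1 : s(a, b) ∈ S := by
      rw [← hSE]
      exact hab
    obtain ⟨c, hc⟩ := h1
    have h2 := hfe c
    rw [← hc] at h2
    exact (C c).adj_of_mem_edges h2
  · intro w D hD hDl
    obtain ⟨c, hc, h1, h2⟩ := hhit w D hD hDl
    rw [hSE]
    refine ⟨s((⟨c, hc⟩ : Y).1.1, f ⟨c, hc⟩), ?_, ⟨c, hc⟩, rfl⟩
    rcases hf ⟨c, hc⟩ with h | h
    · rw [h]; exact h1
    · rw [h]; exact h2
  · rw [hSE]
    rintro e ⟨c, rfl⟩
    refine ⟨u c, C c, hC c, hl c, hfe c, ?_⟩
    rintro e' he' ⟨c', rfl⟩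
    rw [hfU c c' he']
  · intro v hv
    set N : Set V := G.neighborSet v with hN
    set Ow : Set Y := {c | c.1.1 = v} with hOw
    set In : Set Y := {c | c.1.2.1 = v ∨ c.1.2.2 = v} with hIn
    set P1 : Set V := (fun c : Y => c.1.2.1) '' Ow with hP1
    set P2 : Set V := (fun c : Y => c.1.2.2) '' Ow with hP2
    set Q : Set V := (fun c : Y => c.1.1) '' In with hQ
    have hInE : ∀ c ∈ In, s(c.1.1, v) ∈ (C c).edges := by
      rintro c (h | h)
      · rw [← h]; exact hx' c
      · rw [← h]; exact hy' c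
    have hInU : ∀ c ∈ In, ∀ c' : Y, s(c.1.1, v) ∈ (C c').edges → c = c' := by
      rintro c (h | h) c' h'
      · exact hU' c' c (Or.inl (by rw [h]; exact h'))
      · exact hU' c' c (Or.inr (by rw [h]; exact h'))
    have i1 : Set.InjOn (fun c : Y => c.1.2.1) Ow := by
      intro c hc c' hc' h
      refine (hU' c c' (Or.inl ?_)).symm
      have h1 := hx' c
      simp only at h
      rw [hOw, Set.mem_ofPred_eq] at hc hc'
      rw [hc'.trans hc.symm, ← h]
      exact h1
    have i2 : Set.InjOn (fun c : Y => c.1.2.2) Ow := by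
      intro c hc c' hc' h
      refine (hU' c c' (Or.inr ?_)).symm
      have h1 := hy' c
      simp only at h
      rw [hOw, Set.mem_ofPred_eq] at hc hc'
      rw [hc'.trans hc.symm, ← h]
      exact h1
    have i3 : Set.InjOn (fun c : Y => c.1.1) In := by
      intro c hc c' hc' h
      simp only at h
      refine hInU c hc c' ?_
      rw [h]
      exact hInE c' hc'
    have n1 : P1.ncard = Ow.ncard := Set.InjOn.ncard_image i1
    have n2 : P2.ncard = Ow.ncard := Set.InjOn.ncard_image i2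
    have n3 : Q.ncard = In.ncard := Set.InjOn.ncard_image i3
    have d12 : Disjoint P1 P2 := by
      rw [Set.disjoint_left]
      rintro _ ⟨c, hc, rfl⟩ ⟨c', hc', h⟩
      simp only at h
      rw [hOw, Set.mem_ofPred_eq] at hc hc'
      have h1 : c' = c := by
        refine hU' c c' (Or.inr ?_)
        rw [hc'.trans hc.symm, h]
        exact hx' c
      subst h1
      exact hne c' h.symm
    have dQ : Disjoint (P1 ∪ P2) Q := by
      rw [Set.disjoint_left]
      rintro z hz ⟨c', hc', hz'⟩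
      simp only at hz'
      rcases hz with ⟨c, hc, hcz⟩ | ⟨c, hc, hcz⟩
      · simp only at hcz
        rw [hOw, Set.mem_ofPred_eq] at hc
        have h1 : c' = c := by
          refine hInU c' hc' c ?_
          rw [hz', Sym2.eq_swap, ← hcz, ← hc]
          exact hx' c
        subst h1
        have h2 := ((C c').adj_of_mem_edges (hx' c')).ne
        exact h2 (hz'.trans hcz.symm)
      · simp only at hcz
        rw [hOw, Set.mem_ofPred_eq] at hc
        have h1 : c' = c := by
          refine hInU c' hc' c ?_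
          rw [hz', Sym2.eq_swap, ← hcz, ← hc]
          exact hy' c
        subst h1
        have h2 := ((C c').adj_of_mem_edges (hy' c')).ne
        exact h2 (hz'.trans hcz.symm)
    have sN : P1 ∪ P2 ∪ Q ⊆ N := by
      rintro z ((⟨c, hc, rfl⟩ | ⟨c, hc, rfl⟩) | ⟨c, hc, rfl⟩)
      · rw [hOw, Set.mem_ofPred_eq] at hc
        have := (C c).adj_of_mem_edges (hx' c)
        rw [hc] at this
        exact this
      · rw [hOw, Set.mem_ofPred_eq] at hc
        have := (C c).adj_of_mem_edges (hy' c)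
        rw [hc] at this
        exact this
      · exact ((C c).adj_of_mem_edges (hInE c hc)).symm
    have nU : (P1 ∪ P2 ∪ Q).ncard = 2 * Ow.ncard + In.ncard := by
      rw [Set.ncard_union_eq dQ (Set.toFinite _) (Set.toFinite _),
        Set.ncard_union_eq d12 (Set.toFinite _) (Set.toFinite _), n1, n2, n3]
      ring
    have nN : (N \ (P1 ∪ P2 ∪ Q)).ncard + (P1 ∪ P2 ∪ Q).ncard = N.ncard :=
      Set.ncard_sdiff_add_ncard_of_subset sN (Set.toFinite _)
    have hr : 1 ≤ In.ncard → 1 ≤ (N \ (P1 ∪ P2 ∪ Q)).ncard := by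
      intro h1
      obtain ⟨c, hc⟩ := (Set.ncard_pos (Set.toFinite _)).1 h1
      have h2 := hInE c hc
      rw [Sym2.eq_swap] at h2
      obtain ⟨z, hzx, hz⟩ := E4_second (C c) (hC c) h2
      refine (Set.ncard_pos (Set.toFinite _)).2 ⟨z, (C c).adj_of_mem_edges hz, ?_⟩
      have hloop : c.1.1 ≠ v := ((C c).adj_of_mem_edges (hInE c hc)).ne
      rintro ((⟨c', hc', hcz⟩ | ⟨c', hc', hcz⟩) | ⟨c', hc', hcz⟩)
      · simp only at hcz
        rw [hOw, Set.mem_ofPred_eq] at hc'
        have h3 : c' = c := by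
          refine hU' c c' (Or.inl ?_)
          rw [hc', hcz]
          exact hz
        subst h3
        exact hloop hc'
      · simp only at hcz
        rw [hOw, Set.mem_ofPred_eq] at hc'
        have h3 : c' = c := by
          refine hU' c c' (Or.inr ?_)
          rw [hc', hcz]
          exact hz
        subst h3
        exact hloop hc'
      · simp only at hcz
        have h3 : c' = c := by
          refine hInU c' hc' c ?_
          rw [hcz, Sym2.eq_swap]
          exact hz
        subst h3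
        exact hzx hcz.symm
    have hk := hfc v
    have hEn : (SimpleGraph.fromEdgeSet S).neighborSet v ⊆
        f '' Ow ∪ (fun c : Y => c.1.1) '' {c | f c = v} := by
      intro w hw
      have h1 : s(v, w) ∈ S := by
        rw [← hSE]
        exact hw
      obtain ⟨c, hc⟩ := h1
      rcases Sym2.eq_iff.1 hc with ⟨h1, h2⟩ | ⟨h1, h2⟩
      · exact Or.inl ⟨c, h1.symm, h2.symm⟩
      · exact Or.inr ⟨c, h1.symm, h2.symm⟩
    have nE : ((SimpleGraph.fromEdgeSet S).neighborSet v).ncard ≤
        Ow.ncard + ({c | f c = v} : Set Y).ncard := by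
      refine (Set.ncard_le_ncard hEn (Set.toFinite _)).trans ?_
      refine (Set.ncard_union_le _ _).trans ?_
      exact add_le_add (Set.ncard_image_le (Set.toFinite _)) (Set.ncard_image_le (Set.toFinite _))
    have nD : N.ncard ≤ ((G \ SimpleGraph.fromEdgeSet S).neighborSet v).ncard +
        ((SimpleGraph.fromEdgeSet S).neighborSet v).ncard := by
      refine (Set.ncard_le_ncard (t := (G \ SimpleGraph.fromEdgeSet S).neighborSet v ∪
        (SimpleGraph.fromEdgeSet S).neighborSet v) ?_ (Set.toFinite _)).trans (Set.ncard_union_le _ _)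
      intro w hw
      by_cases h : (SimpleGraph.fromEdgeSet S).Adj v w
      · exact Or.inr h
      · exact Or.inl ⟨hw, h⟩
    have hk2 : 2 * ({c | f c = v} : Set Y).ncard ≤ In.ncard + 1 := hk
    omega

end Pool.Agent.H40.CM
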