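import Pool.Agent.H40.CK.B7
import Pool.Agent.H40.CM.Defs

/-!
# CM / N1: no long chains of degree-two vertices in `G \ E`, general version

Adapt the proof of `Pool.Agent.H40.CL.no_long_chain` (CL/C7.lean) resp. `Pool.Agent.H40.CK.no_long_chain` (CK/B7.lean);
the only difference: `E` is not a matching, but each `x_i` has at least one `E`-neighbour (`G`-degree `≥ 3`,
`G \ E`-degree two).  The lemmas `Ch`, `Ch.end_of_path`, `short_of_index`, `cycle_to_path` of CK/B7.lean can be used.
(1) For `s ≤ i ≤ m - s` every `E`-neighbour of `x_i` is some `x_j` with `2 ≤ |j - i| ≤ s - 1`: the private cycle of `e = s(x_i, y)`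
    minus `e` is a `G \ E`-path (edges of the private cycle other than `e` are not in `E`) with at most `s - 1` and at least
    two edges from `x_i` to `y`.
(2) Consider the pairs `i < j` in `[s, m - s]` with `s(x_i, x_j) ∈ E`; there is one (an `E`-neighbour of `x_{3s}`).
    Choose one with `j - i` minimal (`≥ 2`).  Let `x_k` be an `E`-neighbour of `x_{j-1}`; `k ∉ [i, j]` by
    minimality.  If `k > j`: the cycle `x_i → ... → x_{j-1} → x_k → x_{k-1} → ... → x_j → x_i` has the chord
    `x_{j-1} x_j`.  So `k < i`.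
    Symmetrically let `x_{k'}` be an `E`-neighbour of `x_{i+1}`; `k' ∉ [i, j]` by minimality, and if `k' < i` the cycle
    `x_{k'} → ... → x_i → x_j → x_{j-1} → ... → x_{i+1} → x_{k'}` has the chord `x_i x_{i+1}`.  So `k' > j`.
    (If `i + 1 = j - 1` one of the two cases applies to `k` itself: `k > j` or `k < i`, done.)
(3) `i + 1 < j - 1`: the cycle
    `x_i → x_j → x_{j+1} → ... → x_{k'} → x_{i+1} → x_{i+2} → ... → x_{j-1} → x_k → x_{k+1} → ... → x_i`
    has length `k' - k + 1 ≤ 3 s` and the chord `x_i x_{i+1}`.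
-/

namespace Pool.Agent.H40.CM

open SimpleGraph Pool.Agent.H40.CK

variable {V : Type*}

theorem no_long_chain [Finite V] {G E : SimpleGraph V}
    {s m : ℕ} (hs : 1 ≤ s) (hE : HitD G E s) (hm : 6 * s ≤ m) (x : ℕ → V)
    (hthree : ∀ i ≤ m, 3 ≤ (G.neighborSet (x i)).ncard)
    (hinj : ∀ i ≤ m, ∀ j ≤ m, x i = x j → i = j)
    (hadj : ∀ i < m, (G \ E).Adj (x i) (x (i + 1)))
    (hdeg : ∀ i ≤ m, ((G \ E).neighborSet (x i)).ncard = 2) : ShortChorded G (3 * s) := by
  classical
  have hch : B7.Ch (G \ E) x m := ⟨hinj, hadj, hdeg⟩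
  have hEG : E ≤ G := hE.le
  -- chain edges
  have hA : ∀ a b, b = a + 1 → b ≤ m → G.Adj (x a) (x b) ∧ ¬ E.Adj (x a) (x b) := by
    rintro a b rfl hb
    have := hadj a (by omega)
    rw [sdiff_adj] at this
    exact this
  -- (1)
  have key' : ∀ i, s ≤ i → i + s ≤ m → ∀ y, E.Adj (x i) y → ∃ j, y = x j ∧ j < i + s ∧
      i < j + s ∧ (j + 2 ≤ i ∨ i + 2 ≤ j) ∧ j ≤ m := by
    intro i hi1 hi2 y hy
    obtain ⟨u, C, hC, hCl, heC, hpriv⟩ := hE.priv s(x i, y) hy
    obtain ⟨P, hP, hPl, hPe, hPC⟩ := B7.cycle_to_path C hC heC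
    have h3 := hC.three_le_length
    have htr : ∀ e ∈ P.edges, e ∈ (G \ E).edgeSet := by
      intro e he
      have h1 : e ∈ G.edgeSet := P.edges_subset_edgeSet he
      have h2 : e ∉ E.edgeSet := by
        intro h
        have := hpriv e (hPC e he) h
        rw [this] at he
        exact hPe he
      induction e using Sym2.ind with
      | _ a b =>
        rw [mem_edgeSet] at h1 h2 ⊢
        rw [sdiff_adj]
        exact ⟨h1, h2⟩
    have hP1 : (P.transfer (G \ E) htr).IsPath := hP.transfer htr
    have hl1 : (P.transfer (G \ E) htr).length = P.length := Walk.length_transfer _ _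
    have hend := hch.end_of_path (P.transfer (G \ E) htr) hP1 (by omega) (by omega) (by omega)
    rw [hl1] at hend
    rcases hend with hend | hend
    · exact ⟨i + P.length, hend, by omega, by omega, by omega, by omega⟩
    · exact ⟨i - P.length, hend, by omega, by omega, by omega, by omega⟩
  have key : ∀ i, s ≤ i → i + s ≤ m → ∃ j, E.Adj (x i) (x j) ∧ j < i + s ∧ i < j + s ∧
      (j + 2 ≤ i ∨ i + 2 ≤ j) ∧ j ≤ m := by
    intro i hi1 hi2
    have hex : ∃ y, E.Adj (x i) y := by
      by_contra hno
      push Not at hno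
      have : (G \ E).neighborSet (x i) = G.neighborSet (x i) := by
        ext w
        simp only [mem_neighborSet, sdiff_adj]
        exact ⟨fun h => h.1, fun h => ⟨h, hno w⟩⟩
      have h2 := hdeg i (by omega)
      have h3 := hthree i (by omega)
      rw [this] at h2
      omega
    obtain ⟨y, hy⟩ := hex
    obtain ⟨j, rfl, hj⟩ := key' i hi1 hi2 y hy
    exact ⟨j, hy, hj⟩
  -- a minimal pair
  have hQ : ∃ d, ∃ i, s ≤ i ∧ i + d + s ≤ m ∧ 1 ≤ d ∧ E.Adj (x i) (x (i + d)) := by
    obtain ⟨j, hj, hj1, hj2, hj3, hj4⟩ := key (2 * s) (by omega) (by omega)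
    rcases hj3 with hj3 | hj3
    · refine ⟨2 * s - j, j, by omega, by omega, by omega, ?_⟩
      rw [show j + (2 * s - j) = 2 * s by omega]
      exact hj.symm
    · refine ⟨j - 2 * s, 2 * s, by omega, by omega, by omega, ?_⟩
      rw [show 2 * s + (j - 2 * s) = j by omega]
      exact hj
  obtain ⟨i, hi1, hi2, hd1, hij⟩ := Nat.find_spec hQ
  have hmin := fun d' (h : d' < Nat.find hQ) => Nat.find_min hQ h
  generalize Nat.find hQ = d at hi2 hd1 hij hmin
  obtain ⟨j, hj⟩ : ∃ j, j = i + d := ⟨_, rfl⟩
  rw [← hj] at hij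
  have hmin' : ∀ a b, s ≤ a → a < b → b + s ≤ m → b - a < d → ¬ E.Adj (x a) (x b) := by
    intro a b ha hab hb hd hE'
    refine hmin (b - a) hd ⟨a, ha, by omega, by omega, ?_⟩
    rw [show a + (b - a) = b by omega]
    exact hE'
  have hd2 : 2 ≤ d := by
    by_contra hlt
    exact (hA i j (by omega) (by omega)).2 hij
  have hds : d < s := by
    obtain ⟨j', hj'1, hj'2, hj'3, hj'4, hj'5⟩ := key' i hi1 (by omega) _ hij
    have := hinj j (by omega) j' hj'5 hj'1
    omega
  have hGij : G.Adj (x i) (x j) := hEG hij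
  -- the neighbour of `x (j - 1)`
  obtain ⟨k, hk, hk1, hk2, hk3, hk4⟩ := key (j - 1) (by omega) (by omega)
  have hki : k ≠ i := by
    rintro rfl
    exact hmin' k (j - 1) (by omega) (by omega) (by omega) (by omega) hk.symm
  have hkj : k ≠ j := by omega
  have hkm : ¬ (i < k ∧ k < j) := by
    rintro ⟨ha, hb⟩
    exact hmin' k (j - 1) (by omega) (by omega) (by omega) (by omega) hk.symm
  have hGk : G.Adj (x (j - 1)) (x k) := hEG hk
  -- the neighbour of `x (i + 1)`
  obtain ⟨l, hl, hl1, hl2, hl3, hl4, hlk⟩ : ∃ l, E.Adj (x (i + 1)) (x l) ∧ l < i + 1 + s ∧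
      i + 1 < l + s ∧ (l + 2 ≤ i + 1 ∨ i + 1 + 2 ≤ l) ∧ l ≤ m ∧ (i + 1 = j - 1 → l = k) := by
    by_cases h : i + 1 = j - 1
    · refine ⟨k, by rw [h]; exact hk, by omega, by omega, by omega, hk4, fun _ => rfl⟩
    · obtain ⟨l, hl, hl1, hl2, hl3, hl4⟩ := key (i + 1) (by omega) (by omega)
      exact ⟨l, hl, hl1, hl2, hl3, hl4, fun h' => absurd h' h⟩
  have hli : l ≠ i := by omega
  have hlj : l ≠ j := by
    rintro rfl
    exact hmin' (i + 1) l (by omega) (by omega) (by omega) (by omega) hl
  have hlm : ¬ (i < l ∧ l < j) := by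
    rintro ⟨ha, hb⟩
    exact hmin' (i + 1) l (by omega) (by omega) (by omega) (by omega) hl
  have hGl : G.Adj (x (i + 1)) (x l) := hEG hl
  have hchain : ∀ a b, (b = a + 1 ∨ a = b + 1) → a ≤ m → b ≤ m → G.Adj (x a) (x b) := by
    rintro a b (h | h) ha hb
    · exact (hA a b h hb).1
    · exact (hA b a h ha).1.symm
  rcases Nat.lt_or_ge j k with hjk | hjk
  · -- `k > j`
    obtain ⟨g, hg⟩ : ∃ g : ℕ → ℕ, g = fun t => if t < j - i then i + t else k - (t - (j - i)) :=
      ⟨_, rfl⟩
    have g1 : ∀ t, t < j - i → g t = i + t := fun t ht => by rw [hg]; exact if_pos ht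
    have g2 : ∀ t, ¬ t < j - i → g t = k - (t - (j - i)) := fun t ht => by rw [hg]; exact if_neg ht
    refine ShortChorded.mono (B7.short_of_index hinj g (k - i) (by omega) ?_ ?_ ?_ ?_
      (p := j - 1) (q := j) ?_ ?_ ?_ ?_ ?_) le_rfl (by omega)
    · intro t ht
      by_cases h : t < j - i
      · rw [g1 t h]; omega
      · rw [g2 t h]; omega
    · intro t ht t' ht' he
      by_cases h : t < j - i <;> by_cases h' : t' < j - i
      · rw [g1 t h, g1 t' h'] at he; omega
      · rw [g1 t h, g2 t' h'] at he; omega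
      · rw [g2 t h, g1 t' h'] at he; omega
      · rw [g2 t h, g2 t' h'] at he; omega
    · intro t ht
      by_cases h : t < j - i
      · by_cases h' : t + 1 < j - i
        · rw [g1 t h, g1 (t + 1) h']
          exact hchain _ _ (by omega) (by omega) (by omega)
        · rw [g1 t h, g2 (t + 1) h', show i + t = j - 1 by omega,
            show k - (t + 1 - (j - i)) = k by omega]
          exact hGk
      · rw [g2 t h, g2 (t + 1) (by omega)]
        exact hchain _ _ (by omega) (by omega) (by omega)
    · rw [g1 0 (by omega), g2 (k - i) (by omega), show k - (k - i - (j - i)) = j by omega,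
        show i + 0 = i by omega]
      exact hGij.symm
    · exact ⟨j - 1 - i, by omega, by rw [g1 _ (by omega)]; omega⟩
    · exact ⟨k - i, by omega, by rw [g2 _ (by omega)]; omega⟩
    · exact hchain _ _ (by omega) (by omega) (by omega)
    · intro t ht
      by_cases h : t < j - i
      · by_cases h' : t + 1 < j - i
        · rw [g1 t h, g1 (t + 1) h']; omega
        · rw [g1 t h, g2 (t + 1) h']; omega
      · rw [g2 t h, g2 (t + 1) (by omega)]; omega
    · rw [g1 0 (by omega), g2 (k - i) (by omega)]; omega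
  rcases Nat.lt_or_ge l i with hil | hil
  · -- `l < i`
    obtain ⟨g, hg⟩ : ∃ g : ℕ → ℕ, g = fun t => if t ≤ i - l then l + t
      else j - (t - (i - l) - 1) := ⟨_, rfl⟩
    have g1 : ∀ t, t ≤ i - l → g t = l + t := fun t ht => by rw [hg]; exact if_pos ht
    have g2 : ∀ t, ¬ t ≤ i - l → g t = j - (t - (i - l) - 1) := fun t ht => by
      rw [hg]; exact if_neg ht
    refine ShortChorded.mono (B7.short_of_index hinj g (j - l) (by omega) ?_ ?_ ?_ ?_
      (p := i) (q := i + 1) ?_ ?_ ?_ ?_ ?_) le_rfl (by omega)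
    · intro t ht
      by_cases h : t ≤ i - l
      · rw [g1 t h]; omega
      · rw [g2 t h]; omega
    · intro t ht t' ht' he
      by_cases h : t ≤ i - l <;> by_cases h' : t' ≤ i - l
      · rw [g1 t h, g1 t' h'] at he; omega
      · rw [g1 t h, g2 t' h'] at he; omega
      · rw [g2 t h, g1 t' h'] at he; omega
      · rw [g2 t h, g2 t' h'] at he; omega
    · intro t ht
      by_cases h : t ≤ i - l
      · by_cases h' : t + 1 ≤ i - l
        · rw [g1 t h, g1 (t + 1) h']
          exact hchain _ _ (by omega) (by omega) (by omega)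
        · rw [g1 t h, g2 (t + 1) h', show l + t = i by omega,
            show j - (t + 1 - (i - l) - 1) = j by omega]
          exact hGij
      · rw [g2 t h, g2 (t + 1) (by omega)]
        exact hchain _ _ (by omega) (by omega) (by omega)
    · rw [g1 0 (by omega), g2 (j - l) (by omega), show j - (j - l - (i - l) - 1) = i + 1 by omega,
        show l + 0 = l by omega]
      exact hGl
    · exact ⟨i - l, by omega, by rw [g1 _ (by omega)]; omega⟩
    · exact ⟨j - l, by omega, by rw [g2 _ (by omega)]; omega⟩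
    · exact hchain _ _ (by omega) (by omega) (by omega)
    · intro t ht
      by_cases h : t ≤ i - l
      · by_cases h' : t + 1 ≤ i - l
        · rw [g1 t h, g1 (t + 1) h']; omega
        · rw [g1 t h, g2 (t + 1) h']; omega
      · rw [g2 t h, g2 (t + 1) (by omega)]; omega
    · rw [g1 0 (by omega), g2 (j - l) (by omega)]; omega
  · -- `k < i` and `l > j`
    have hki' : k < i := by omega
    have hjl : j < l := by omega
    have hij2 : i + 1 ≠ j - 1 := by
      intro h
      have := hlk h
      omega
    obtain ⟨g, hg⟩ : ∃ g : ℕ → ℕ, g = fun t => if t ≤ l - j then j + t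
      else if t ≤ l - i - 1 then (t - (l - j) - 1) + (i + 1) else k + (t - (l - i)) := ⟨_, rfl⟩
    have g1 : ∀ t, t ≤ l - j → g t = j + t := fun t ht => by rw [hg]; exact if_pos ht
    have g2 : ∀ t, ¬ t ≤ l - j → t ≤ l - i - 1 → g t = (t - (l - j) - 1) + (i + 1) :=
      fun t ht ht' => by
        rw [hg]
        simp only [ht, ht', if_true, if_false]
    have g3 : ∀ t, ¬ t ≤ l - j → ¬ t ≤ l - i - 1 → g t = k + (t - (l - i)) :=
      fun t ht ht' => by
        rw [hg]
        simp only [ht, ht', if_false]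
    refine ShortChorded.mono (B7.short_of_index hinj g (l - k) (by omega) ?_ ?_ ?_ ?_
      (p := i) (q := i + 1) ?_ ?_ ?_ ?_ ?_) le_rfl (by omega)
    · intro t ht
      by_cases h : t ≤ l - j
      · rw [g1 t h]; omega
      · by_cases h' : t ≤ l - i - 1
        · rw [g2 t h h']; omega
        · rw [g3 t h h']; omega
    · intro t ht t' ht' he
      by_cases h : t ≤ l - j <;> by_cases h1 : t' ≤ l - j
      · rw [g1 t h, g1 t' h1] at he; omega
      · by_cases h2 : t' ≤ l - i - 1
        · rw [g1 t h, g2 t' h1 h2] at he; omega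
        · rw [g1 t h, g3 t' h1 h2] at he; omega
      · by_cases h2 : t ≤ l - i - 1
        · rw [g1 t' h1, g2 t h h2] at he; omega
        · rw [g1 t' h1, g3 t h h2] at he; omega
      · by_cases h2 : t ≤ l - i - 1 <;> by_cases h3 : t' ≤ l - i - 1
        · rw [g2 t h h2, g2 t' h1 h3] at he; omega
        · rw [g2 t h h2, g3 t' h1 h3] at he; omega
        · rw [g3 t h h2, g2 t' h1 h3] at he; omega
        · rw [g3 t h h2, g3 t' h1 h3] at he; omega
    · intro t ht
      by_cases h : t + 1 ≤ l - j
      · rw [g1 t (by omega), g1 (t + 1) h]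
        exact hchain _ _ (by omega) (by omega) (by omega)
      · by_cases h0 : t ≤ l - j
        · rw [g1 t h0, g2 (t + 1) h (by omega), show j + t = l by omega,
            show t + 1 - (l - j) - 1 + (i + 1) = i + 1 by omega]
          exact hGl.symm
        · by_cases h1 : t + 1 ≤ l - i - 1
          · rw [g2 t h0 (by omega), g2 (t + 1) h h1]
            exact hchain _ _ (by omega) (by omega) (by omega)
          · by_cases h2 : t ≤ l - i - 1
            · rw [g2 t h0 h2, g3 (t + 1) h h1, show t - (l - j) - 1 + (i + 1) = j - 1 by omega,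
                show k + (t + 1 - (l - i)) = k by omega]
              exact hGk
            · rw [g3 t h0 h2, g3 (t + 1) h h1]
              exact hchain _ _ (by omega) (by omega) (by omega)
    · rw [g1 0 (by omega), g3 (l - k) (by omega) (by omega),
        show k + (l - k - (l - i)) = i by omega, show j + 0 = j by omega]
      exact hGij
    · exact ⟨l - k, by omega, by rw [g3 _ (by omega) (by omega)]; omega⟩
    · exact ⟨l - j + 1, by omega, by rw [g2 _ (by omega) (by omega)]; omega⟩
    · exact hchain _ _ (by omega) (by omega) (by omega)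
    · intro t ht
      by_cases h : t + 1 ≤ l - j
      · rw [g1 t (by omega), g1 (t + 1) h]; omega
      · by_cases h0 : t ≤ l - j
        · rw [g1 t h0, g2 (t + 1) h (by omega)]; omega
        · by_cases h1 : t + 1 ≤ l - i - 1
          · rw [g2 t h0 (by omega), g2 (t + 1) h h1]; omega
          · by_cases h2 : t ≤ l - i - 1
            · rw [g2 t h0 h2, g3 (t + 1) h h1]; omega
            · rw [g3 t h0 h2, g3 (t + 1) h h1]; omega
    · rw [g1 0 (by omega), g3 (l - k) (by omega) (by omega)]; omega

end Pool.Agent.H40.CM
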