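import Pool.Agent.H40.CK.B10
import Pool.Agent.H40.CM.Defs

/-!
# CM / R1: a random even subgraph, arbitrary degrees

Same proof as `Pool.Agent.H40.CK.random_even` (CK/B10.lean), without the degree bound; the conclusion is that `F`
is even (all degrees even) instead of `F.IsCycles`.  `B10_C H`, `B10_symmDiff_adj`, `B10_symmDiff`, `B10_bot`, `B10_cycle`,
`B10_eighth` can be used as they are.  `B10_side`, `B10_both` have to be redone with `3 ≤` instead of `3 =`: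
if `e = s(u, v) ∈ H` and `u` has two further `H`-neighbours `a, a'`: let `Z_a`, `Z_{a'}` be cycles of `H` containing
`s(u, a)`, `s(u, a')`.  If `e ∉ Z_a` or `e ∉ Z_{a'}` take that one.  Otherwise `Z_a` has exactly the edges `u a, e` at
`u` and `Z_{a'}` has exactly `u a', e`; `X = Z_a ∆ Z_{a'}` has the edges `u a`, `u a'` at `u` and not `e`.
-/

namespace Pool.Agent.H40.CM

open SimpleGraph Pool.Agent.H40.CK

variable {V : Type*}

theorem R1_side [Finite V] {H : SimpleGraph V}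
    (hcyc : ∀ u v, H.Adj u v → ∃ (w : V) (C : H.Walk w w), C.IsCycle ∧ s(u, v) ∈ C.edges)
    {u v : V} (hu : u ∈ H.support) (h : ¬ H.Adj u v ∨ 3 ≤ (H.neighborSet u).ncard) :
    ∃ X ∈ B10_C H, ¬ X.Adj u v ∧ u ∈ X.support := by
  by_cases huv : H.Adj u v
  · have h3 : 3 ≤ (H.neighborSet u).ncard := by
      rcases h with h | h
      · exact absurd huv h
      · exact h
    have h2 : 1 < (H.neighborSet u \ {v}).ncard := by
      rw [Set.ncard_sdiff_singleton_of_mem (by exact huv)]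
      omega
    obtain ⟨a, a', ha0, ha'0, haa'⟩ := (Set.one_lt_ncard_iff (Set.toFinite _)).1 h2
    have ha : H.Adj u a ∧ a ≠ v := ha0
    have ha' : H.Adj u a' ∧ a' ≠ v := ha'0
    obtain ⟨w, C, hC, hCe⟩ := hcyc u a ha.1
    obtain ⟨Z, hZ, hZc, hZadj⟩ := B10_cycle hC
    obtain ⟨w', C', hC', hCe'⟩ := hcyc u a' ha'.1
    obtain ⟨Z', hZ', hZc', hZadj'⟩ := B10_cycle hC'
    have hZa : Z.Adj u a := (hZadj u a).2 hCe
    have hZa' : Z'.Adj u a' := (hZadj' u a').2 hCe'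
    by_cases h1 : Z.Adj u v
    · by_cases h1' : Z'.Adj u v
      · refine ⟨symmDiff Z Z', B10_symmDiff hZ hZ', ?_, a, ?_⟩
        · rw [B10_symmDiff_adj]
          rintro (⟨-, h⟩ | ⟨-, h⟩)
          · exact h h1'
          · exact h h1
        · show (symmDiff Z Z').Adj u a
          rw [B10_symmDiff_adj]
          refine Or.inl ⟨hZa, fun hcon => ?_⟩
          have h2' : (Z'.neighborSet u).ncard = 2 := hZc' ⟨v, h1'⟩
          have hsub : ({v, a, a'} : Set V) ⊆ Z'.neighborSet u := by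
            rintro x (rfl | rfl | rfl)
            · exact h1'
            · exact hcon
            · exact hZa'
          have hc3 : ({v, a, a'} : Set V).ncard = 3 :=
            Set.ncard_eq_three.2 ⟨v, a, a', ha.2.symm, ha'.2.symm, haa', rfl⟩
          have := Set.ncard_le_ncard hsub (Set.toFinite _)
          omega
      · exact ⟨Z', hZ', h1', a', hZa'⟩
    · exact ⟨Z, hZ, h1, a, hZa⟩
  · obtain ⟨a, ha⟩ := hu
    obtain ⟨w, C, hC, hCe⟩ := hcyc u a ha
    obtain ⟨Z, hZ, hZc, hZadj⟩ := B10_cycle hC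
    exact ⟨Z, hZ, fun h => huv (hZ.1 h), a, (hZadj u a).2 hCe⟩

theorem R1_both [Finite V] {H : SimpleGraph V}
    (hcyc : ∀ u v, H.Adj u v → ∃ (w : V) (C : H.Walk w w), C.IsCycle ∧ s(u, v) ∈ C.edges)
    {u v : V} (hu : u ∈ H.support) (hv : v ∈ H.support)
    (h : ¬ H.Adj u v ∨ (3 ≤ (H.neighborSet u).ncard ∧ 3 ≤ (H.neighborSet v).ncard)) :
    ∃ X ∈ B10_C H, ¬ X.Adj u v ∧ u ∈ X.support ∧ v ∈ X.support := by
  obtain ⟨X, hX, hX1, hX2⟩ := R1_side hcyc hu (h.imp_right fun h => h.1)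
  obtain ⟨Y, hY, hY1, hY2⟩ := R1_side (u := v) (v := u) hcyc hv
    (h.imp (fun h h' => h h'.symm) fun h => h.2)
  by_cases h1 : v ∈ X.support
  · exact ⟨X, hX, hX1, hX2, h1⟩
  by_cases h2 : u ∈ Y.support
  · exact ⟨Y, hY, fun h => hY1 h.symm, h2, hY2⟩
  obtain ⟨a, ha⟩ := hX2
  obtain ⟨b, hb⟩ := hY2
  refine ⟨symmDiff X Y, B10_symmDiff hX hY, ?_, ⟨a, ?_⟩, ⟨b, ?_⟩⟩
  · rw [B10_symmDiff_adj]
    rintro (⟨h, -⟩ | ⟨h, -⟩)
    · exact hX1 h
    · exact hY1 h.symm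
  · show (symmDiff X Y).Adj u a
    rw [B10_symmDiff_adj]
    exact Or.inl ⟨ha, fun h => h2 ⟨a, h⟩⟩
  · show (symmDiff X Y).Adj v b
    rw [B10_symmDiff_adj]
    exact Or.inr ⟨hb, fun h => h1 ⟨b, h⟩⟩

theorem random_even' [Finite V] (H : SimpleGraph V)
    (hcyc : ∀ u v, H.Adj u v → ∃ (w : V) (C : H.Walk w w), C.IsCycle ∧ s(u, v) ∈ C.edges)
    (𝒢 : Set (Sym2 V)) (hdiag : ∀ e ∈ 𝒢, ¬ e.IsDiag) (hsupp : ∀ e ∈ 𝒢, ∀ z ∈ e, z ∈ H.support)
    (h𝒢 : ∀ e ∈ 𝒢, e ∉ H.edgeSet ∨ ∀ z ∈ e, 3 ≤ (H.neighborSet z).ncard) :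
    ∃ F : SimpleGraph V, F ≤ H ∧ (∀ v, Even (F.neighborSet v).ncard) ∧
      𝒢.ncard ≤ 8 * ({e | e ∈ 𝒢 ∧ e ∉ F.edgeSet ∧ ∀ z ∈ e, z ∈ F.support} : Set (Sym2 V)).ncard := by
  classical
  have hfin : Finite (SimpleGraph V) := inferInstance
  have := Fintype.ofFinite V
  have hfin𝒞 : (B10_C H).Finite := Set.toFinite _
  set 𝒞 : Finset (SimpleGraph V) := hfin𝒞.toFinset with h𝒞def
  have h𝒞 : ∀ F, F ∈ 𝒞 ↔ F ∈ B10_C H := fun F => by simp [h𝒞def]
  set 𝒢' : Finset (Sym2 V) := (Set.toFinite 𝒢).toFinset with h𝒢'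
  have hmem𝒢 : ∀ e, e ∈ 𝒢' ↔ e ∈ 𝒢 := fun e => Set.Finite.mem_toFinset _
  set P : SimpleGraph V → Sym2 V → Prop := fun F e => e ∉ F.edgeSet ∧ ∀ z ∈ e, z ∈ F.support with hP
  have hcount : ∀ F : SimpleGraph V, ({e | e ∈ 𝒢 ∧ e ∉ F.edgeSet ∧ ∀ z ∈ e, z ∈ F.support} :
      Set (Sym2 V)).ncard = (𝒢'.filter fun e => P F e).card := by
    intro F
    rw [← Set.ncard_coe_finset]
    congr 1
    ext e
    simp [hP, hmem𝒢]
  have hkey : ∀ e ∈ 𝒢', 𝒞.card ≤ 8 * (𝒞.filter fun F => P F e).card := by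
    intro e he
    have he𝒢 := (hmem𝒢 e).1 he
    induction e with
    | h u v =>
      have huv : u ≠ v := fun h => hdiag _ he𝒢 (by simpa using h)
      have hu : u ∈ H.support := hsupp _ he𝒢 u (by simp)
      have hv : v ∈ H.support := hsupp _ he𝒢 v (by simp)
      obtain ⟨X, hX, hX1, ⟨a, ha⟩, ⟨b, hb⟩⟩ := R1_both hcyc hu hv (by
        rcases h𝒢 _ he𝒢 with h | h
        · left; simpa using h
        · right; exact ⟨h u (by simp), h v (by simp)⟩)
      refine (B10_eighth 𝒞 h𝒞 hX ![(u, v), (u, a), (v, b)]).trans ?_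
      apply Nat.mul_le_mul_left
      apply Finset.card_le_card
      intro F hF
      rw [Finset.mem_filter] at hF ⊢
      refine ⟨hF.1, ?_, ?_⟩
      · have := hF.2 0
        simp only [Matrix.cons_val_zero] at this
        rw [mem_edgeSet]
        exact fun h => hX1 (this.1 h)
      · intro z hz
        rcases Sym2.mem_iff.1 hz with rfl | rfl
        · have := hF.2 1
          simp only [Matrix.cons_val_one, Matrix.cons_val_zero] at this
          exact ⟨a, this.2 ha⟩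
        · have := hF.2 2
          simp only [Matrix.cons_val] at this
          exact ⟨b, this.2 hb⟩
  -- double counting
  by_contra hcon
  push Not at hcon
  have hlt : ∀ F ∈ 𝒞, 8 * (𝒢'.filter fun e => P F e).card < 𝒢.ncard := by
    intro F hF
    have hFC := (h𝒞 F).1 hF
    have := hcon F hFC.1 hFC.2
    rwa [hcount] at this
  have hne : 𝒞.Nonempty := ⟨⊥, (h𝒞 _).2 (B10_bot H)⟩
  have hsum1 : ∑ F ∈ 𝒞, 8 * (𝒢'.filter fun e => P F e).card < 𝒞.card * 𝒢.ncard := by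
    have := Finset.sum_lt_sum_of_nonempty hne hlt
    simpa [mul_comm] using this
  have hsum2 : 𝒢'.card * 𝒞.card ≤ ∑ e ∈ 𝒢', 8 * (𝒞.filter fun F => P F e).card := by
    have := Finset.card_nsmul_le_sum 𝒢' (fun e => 8 * (𝒞.filter fun F => P F e).card) 𝒞.card
      hkey
    simpa using this
  have hswap : ∑ F ∈ 𝒞, 8 * (𝒢'.filter fun e => P F e).card =
      ∑ e ∈ 𝒢', 8 * (𝒞.filter fun F => P F e).card := by
    rw [← Finset.mul_sum, ← Finset.mul_sum]
    congr 1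
    simp only [Finset.card_filter]
    exact Finset.sum_comm
  have hcard : 𝒢.ncard = 𝒢'.card := by
    rw [← Set.ncard_coe_finset]
    congr 1
    ext e; simp [hmem𝒢]
  rw [hswap, hcard, mul_comm] at hsum1
  omega

end Pool.Agent.H40.CM
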