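import Pool.Agent.H40.CK.A7a
import Pool.Agent.H40.CM.Defs

/-!
# CM / S1a: a cycle minus a vertex is connected

`drop F P` (CK/Defs.lean) is `F` with the vertices of `P` isolated.
If `y ≠ a` (otherwise trivial), rotate `C` to start at `y` and cut it at `a`: `C` is the union of two paths from `y` to `a`
(`takeUntil`, `dropUntil`), whose supports have only `y` and `a` in common.  So `x` is missing on one of them, and this one is a
walk of `drop R {x}` (`Walk.transfer`).
-/

namespace Pool.Agent.H40.CM

open SimpleGraph Pool.Agent.H40.CK

variable {V : Type*}

theorem reachable_drop_of_walk {R : SimpleGraph V} {x : V} :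
    ∀ {y a : V} (P : R.Walk y a), x ∉ P.support → (drop R {x}).Reachable y a := by
  intro y a P
  induction P with
  | nil => exact fun _ => Reachable.refl _
  | cons h p ih =>
    intro hx
    rw [Walk.support_cons, List.mem_cons, not_or] at hx
    have h1 : (drop R {x}).Adj _ _ := ⟨h, fun h' => hx.1 (by rw [Set.mem_singleton_iff] at h'; exact h'.symm),
      fun h' => hx.2 (by rw [Set.mem_singleton_iff] at h'; rw [← h']; exact p.start_mem_support)⟩
    exact h1.reachable.trans (ih hx.2)

theorem reachable_drop_of_cycle {R : SimpleGraph V} {u : V} (C : R.Walk u u) (hC : C.IsCycle)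
    {x y a : V} (hy : y ∈ C.support) (ha : a ∈ C.support) (hyx : y ≠ x) (hax : a ≠ x) :
    (drop R {x}).Reachable y a := by
  classical
  have hC' : (C.rotate y hy).IsCycle := hC.rotate hy
  have ha' : a ∈ (C.rotate y hy).support := (Walk.mem_support_rotate_iff C y hy).2 ha
  by_cases hx : x ∈ ((C.rotate y hy).takeUntil a ha').support
  · have hxQ : x ∉ ((C.rotate y hy).dropUntil a ha').support := by
      intro hxQ
      have h1 := hC'.support_nodup
      rw [← Walk.take_spec (C.rotate y hy) ha', Walk.tail_support_append] at h1
      have h2 := List.disjoint_of_nodup_append h1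
      refine h2 (a := x) ?_ ?_
      · rw [Walk.mem_support_iff] at hx
        rcases hx with h | h
        · exact absurd h.symm hyx
        · exact h
      · rw [Walk.mem_support_iff] at hxQ
        rcases hxQ with h | h
        · exact absurd h.symm hax
        · exact h
    exact (reachable_drop_of_walk _ hxQ).symm
  · exact reachable_drop_of_walk _ hx

/-- A walk from a vertex of `U` to a vertex outside `U`, where `U` is closed under adjacency in
`drop R {q}`, avoiding `x`, shows that the start is connected to `q` avoiding `x`: follow the walk up
to the first vertex outside `U`; the vertex before it is in `U`, hence the first vertex outside `U` is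
`q` (`q ∉ U`). -/
theorem reachable_exit {R : SimpleGraph V} {U : Set V} {q x y z : V} (hqU : q ∉ U)
    (hU : ∀ a b, a ∈ U → (drop R {q}).Adj a b → b ∈ U) (hy : y ∈ U) (hz : z ∉ U)
    (h : (drop R {x}).Reachable y z) : (drop R {x}).Reachable y q := by
  obtain ⟨P⟩ := h
  induction P with
  | nil => exact absurd hy hz
  | @cons a b c hab p ih =>
    by_cases hb : b ∈ U
    · exact hab.reachable.trans (ih hb hz)
    · have hbq : b = q := by
        by_contra hne
        refine hb (hU a b hy ⟨hab.1, ?_, ?_⟩)
        · rw [Set.mem_singleton_iff]
          rintro rfl
          exact hqU hy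
        · rw [Set.mem_singleton_iff]
          exact hne
      rw [← hbq]
      exact hab.reachable

end Pool.Agent.H40.CM
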