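import Pool.Agent.H40.CM.E1
import Pool.Agent.H40.CM.S1a

/-!
# CM / S1: block argument

For `q, u : V` let `U q u = {w | (drop R {q}).Reachable u w}`.  Call `(q, u)` admissible if `u ∈ κ`, `u ≠ q` and
`p ∉ U q u`.  `(p, u₀)` is admissible (`p` is isolated in `drop R {p}`, `u₀ ≠ p`).  Take an admissible
pair `(q, u)` with `#(U q u)` minimal, `U = U q u`.  `q ∉ U`; `U` is closed under adjacency in `drop R {q}`.

(1) Let `x ∈ U` and `c ∈ U ∩ κ`, `c ≠ x`.  Then `(drop R {x}).Reachable c q`.  Otherwise
    `U x c ⊆ U \ {x}`: if some `z ∈ U x c` is not in `U`, `reachable_exit` gives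
    `(drop R {x}).Reachable c q`; and `x ∉ U x c` since `x` is isolated in `drop R {x}` and `c ≠ x`.  So
    `(x, c)` is admissible (`p ∉ U`) and `#(U x c) < #U`, a contradiction.
(2) Let `x ∈ U`, `y ≠ x`, `R.Adj x y`.  Then `(drop R {x}).Reachable y q`.  If `y = q`: trivial.  Otherwise
    `y ∈ U` (`x ≠ q`, `y ≠ q`, so `(drop R {q}).Adj x y`).  If `y ∈ κ`: (1).  If `y ∉ κ`: `y ∈ R.support` lies on a cycle `Z` of
    `R` with two vertices `a ≠ b` of `κ`; let `a ≠ x` (exchange `a`, `b` otherwise).  `reachable_drop_of_cycle` gives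
    `(drop R {x}).Reachable y a`.  If `a ∈ U`: (1) for `c = a`.  If `a ∉ U`: `reachable_exit`.
(3) `u ∈ κ` lies on a cycle of `H` (`hcyc`), all of whose vertices are in `κ` (`hclosed`); see it as a cycle `C` of
    `G` and of `R`.  Every `c ∈ C.support`, `c ≠ q` is in `U`: `reachable_drop_of_cycle` with `x := q`.
(4) Apply `shortChorded_of_ears` to `C` with exceptional vertex `q` and `ℓ = R.support.ncard + 1`.  Let
    `x ∈ C.support`, `x ≠ q`: `x ∈ U ∩ κ`, `x ≠ p` (`p ∉ U`).  By `hdeg` there is an `R`-neighbour `y` of `x` which is not one of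
    the two neighbours of `x` along `C`, so `s(x, y) ∉ C.edges`.  If `y ∈ C.support`: the ear is the edge `x y` (length one;
    `ℓ ≥ 2`).  Otherwise: let `c ∈ C.support`, `c ≠ x` (a cycle has three vertices).  `(drop R {x}).Reachable c q`
    by (1) or `c = q`, and `(drop R {x}).Reachable y q` by (2).  So there is a path `r` of `drop R {x}` from `y` to
    `c`; all its vertices are in `R.support` and different from `x` (`y ≠ x`, and `x` is isolated in `drop R {x}`).
    Let `w` be its first vertex on `C` (`B2a_firstHit`); `x → y → ... → w` is an ear; its length is at most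
    `R.support.ncard - 1`, as it is a path with all vertices in `R.support`; no edge of it is an edge of `C`.
    The length of `C` is at most `R.support.ncard` as well.
-/

namespace Pool.Agent.H40.CM

open SimpleGraph Pool.Agent.H40.CK

variable {V : Type*}

theorem S1_isolated {R : SimpleGraph V} {x c : V} (h : (drop R {x}).Reachable c x) : c = x := by
  obtain ⟨w⟩ := h.symm
  cases w with
  | nil => rfl
  | cons h' _ => exact absurd (Set.mem_singleton x) h'.2.1

theorem S1_mem_support {F : SimpleGraph V} {v w : V} (hv : v ∈ F.support) (h : F.Reachable v w) :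
    w ∈ F.support := by
  obtain ⟨p⟩ := h
  induction p with
  | nil => exact hv
  | cons h' _ ih => exact ih ⟨_, h'.symm⟩

theorem S1_two {G : SimpleGraph V} {u : V} {C : G.Walk u u} (hC : C.IsCycle) {v : V}
    (hv : v ∈ C.support) : {y | s(v, y) ∈ C.edges}.ncard = 2 := by
  have h1 := hC.ncard_neighborSet_toSubgraph_eq_two hv
  have h2 : C.toSubgraph.neighborSet v = {y | s(v, y) ∈ C.edges} := by
    ext y
    rw [Subgraph.mem_neighborSet, Set.mem_ofPred_eq, ← Subgraph.mem_edgeSet,
      Walk.mem_edges_toSubgraph]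
  rw [← h2]
  exact h1

theorem shortChorded_of_block [Finite V] {G R H : SimpleGraph V} (hRG : R ≤ G) (hHR : H ≤ R)
    (κ : Set V) (hclosed : ∀ x y, x ∈ κ → H.Adj x y → y ∈ κ)
    (hcyc : ∀ x ∈ κ, ∃ C : H.Walk x x, C.IsCycle)
    (p u₀ : V) (hu₀ : u₀ ∈ κ) (hne : u₀ ≠ p)
    (hout : ∀ z ∈ R.support, z ∉ κ → ∃ C : R.Walk z z, C.IsCycle ∧
      ∃ a b, a ∈ κ ∧ b ∈ κ ∧ a ≠ b ∧ a ∈ C.support ∧ b ∈ C.support)
    (hdeg : ∀ x ∈ κ, x ≠ p → 3 ≤ (R.neighborSet x).ncard) :
    ShortChorded G (3 * (R.support.ncard + 1)) := by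
  classical
  have hadm : ∃ n, ∃ q u, u ∈ κ ∧ u ≠ q ∧ ¬ (drop R {q}).Reachable u p ∧
      {w | (drop R {q}).Reachable u w}.ncard = n :=
    ⟨_, p, u₀, hu₀, hne, fun h => hne (S1_isolated h), rfl⟩
  obtain ⟨q, u, huκ, huq, hpU, hcard⟩ := Nat.find_spec hadm
  have hmin : ∀ x c, c ∈ κ → c ≠ x → ¬ (drop R {x}).Reachable c p →
      {w | (drop R {q}).Reachable u w}.ncard ≤ {w | (drop R {x}).Reachable c w}.ncard := by
    intro x c h1 h2 h3
    rw [hcard]
    exact Nat.find_min' hadm ⟨x, c, h1, h2, h3, rfl⟩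
  set U : Set V := {w | (drop R {q}).Reachable u w} with hUdef
  have hqU : q ∉ U := fun h => huq (S1_isolated h)
  have hUcl : ∀ a b, a ∈ U → (drop R {q}).Adj a b → b ∈ U := fun a b ha hab =>
    Reachable.trans ha hab.reachable
  have hpU' : p ∉ U := hpU
  -- (1)
  have key1 : ∀ x ∈ U, ∀ c ∈ U, c ∈ κ → c ≠ x → (drop R {x}).Reachable c q := by
    intro x hx c hc hcκ hcx
    by_contra hcon
    have hsub : {w | (drop R {x}).Reachable c w} ⊆ U := by
      intro z hz
      by_contra hzU
      exact hcon (reachable_exit hqU hUcl hc hzU hz)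
    have hxn : x ∉ {w | (drop R {x}).Reachable c w} := fun h => hcx (S1_isolated h)
    have h1 := hmin x c hcκ hcx (fun h => hpU' (hsub h))
    have h2 : {w | (drop R {x}).Reachable c w}.ncard < U.ncard :=
      Set.ncard_lt_ncard ⟨hsub, fun h => hxn (h hx)⟩ (Set.toFinite _)
    omega
  -- (2)
  have key2 : ∀ x ∈ U, ∀ y, R.Adj x y → (drop R {x}).Reachable y q := by
    intro x hx y hxy
    by_cases hyq : y = q
    · rw [hyq]
    have hxq : x ≠ q := fun h => hqU (h ▸ hx)
    have hyU : y ∈ U := hUcl x y hx ⟨hxy, hxq, hyq⟩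
    by_cases hyκ : y ∈ κ
    · exact key1 x hx y hyU hyκ hxy.ne'
    obtain ⟨Z, hZ, a, b, ha, hb, hab, haZ, hbZ⟩ := hout y ⟨x, hxy.symm⟩ hyκ
    obtain ⟨a', ha', ha'x, ha'Z⟩ : ∃ a' ∈ κ, a' ≠ x ∧ a' ∈ Z.support := by
      by_cases hax : a = x
      · exact ⟨b, hb, fun h => hab (hax.trans h.symm), hbZ⟩
      · exact ⟨a, ha, hax, haZ⟩
    have hr : (drop R {x}).Reachable y a' :=
      reachable_drop_of_cycle Z hZ Z.start_mem_support ha'Z hxy.ne' ha'x
    by_cases ha'U : a' ∈ U
    · exact hr.trans (key1 x hx a' ha'U ha' ha'x)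
    · exact reachable_exit hqU hUcl hyU ha'U hr
  -- (3)
  obtain ⟨C₀, hC₀⟩ := hcyc u huκ
  have hκC : ∀ c ∈ C₀.support, c ∈ κ := by
    have : ∀ {a b : V} (w : H.Walk a b), a ∈ κ → ∀ c ∈ w.support, c ∈ κ := by
      intro a b w
      induction w with
      | nil =>
        intro ha c hc
        rw [Walk.support_nil, List.mem_singleton] at hc
        rwa [hc]
      | cons h w ih =>
        intro ha c hc
        rw [Walk.support_cons, List.mem_cons] at hc
        rcases hc with rfl | hc
        · exact ha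
        · exact ih (hclosed _ _ ha h) c hc
    exact this C₀ huκ
  have hCR : (C₀.mapLe hHR).IsCycle := hC₀.mapLe hHR
  have hsR : (C₀.mapLe hHR).support = C₀.support := by simp
  have hUC : ∀ c ∈ C₀.support, c ≠ q → c ∈ U := by
    intro c hc hcq
    exact reachable_drop_of_cycle (C₀.mapLe hHR) hCR (by rw [hsR]; exact C₀.start_mem_support)
      (by rw [hsR]; exact hc) huq hcq
  have hRsupp : ∀ c ∈ C₀.support, c ∈ R.support := by
    intro c hc
    obtain ⟨w⟩ : R.Reachable u c := ⟨(C₀.takeUntil c hc).mapLe hHR⟩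
    have hu : u ∈ R.support := by
      cases hC : C₀ with
      | nil =>
        rw [hC] at hC₀
        exact absurd hC₀ Walk.not_isCycle_nil
      | cons h _ => exact ⟨_, hHR h⟩
    exact S1_mem_support hu ⟨w⟩
  set C : G.Walk u u := C₀.mapLe (hHR.trans hRG) with hCdef
  have hC : C.IsCycle := hC₀.mapLe _
  have hsC : C.support = C₀.support := by simp [hCdef]
  have hlenC : C.length ≤ R.support.ncard := by
    have h1 : C.support.tail.length = C.length := by simp
    have h2 : (C.support.tail.toFinset : Set V) ⊆ R.support := by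
      intro w hw
      have hw' : w ∈ C.support := by
        have : w ∈ C.support.tail := by simpa using hw
        exact List.mem_of_mem_tail this
      rw [hsC] at hw'
      exact hRsupp w hw'
    have h3 := Set.ncard_le_ncard h2 (Set.toFinite _)
    rw [Set.ncard_coe_finset, List.toFinset_card_of_nodup hC.support_nodup, h1] at h3
    exact h3
  refine shortChorded_of_ears C hC (by omega) q ?_
  intro x hx hxq
  have hx0 : x ∈ C₀.support := hsC ▸ hx
  have hxU : x ∈ U := hUC x hx0 hxq
  have hxκ : x ∈ κ := hκC x hx0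
  have hxp : x ≠ p := fun h => hpU' (h ▸ hxU)
  have htwo := S1_two hC hx
  -- a neighbour off the cycle edges
  obtain ⟨y, hxy, hye⟩ : ∃ y, R.Adj x y ∧ s(x, y) ∉ C.edges := by
    by_contra hcon
    push Not at hcon
    have hsub : R.neighborSet x ⊆ {y | s(x, y) ∈ C.edges} := fun y hy => hcon y hy
    have h1 := Set.ncard_le_ncard hsub (Set.toFinite _)
    have h2 := hdeg x hxκ hxp
    omega
  -- another vertex of the cycle
  obtain ⟨c, hc, hcx⟩ : ∃ c ∈ C.support, c ≠ x := by
    have : {y | s(x, y) ∈ C.edges}.Nonempty := by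
      rw [← Set.ncard_pos]
      omega
    obtain ⟨c, hc⟩ := this
    exact ⟨c, C.snd_mem_support_of_mem_edges hc, (C.adj_of_mem_edges hc).ne'⟩
  by_cases hyC : y ∈ C.support
  · refine ⟨y, hyC, hxy.ne', Walk.cons (hRG hxy) Walk.nil, ?_, ?_, ?_, ?_⟩
    · simp [hxy.ne]
    · have : 0 < R.support.ncard := by
        rw [Set.ncard_pos]
        exact ⟨x, ⟨y, hxy⟩⟩
      simp only [Walk.length_cons, Walk.length_nil]
      omega
    · intro w hw _
      simpa using hw
    · intro e he
      simp only [Walk.edges_cons, Walk.edges_nil, List.mem_singleton] at he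
      rw [he]
      exact hye
  · have hyc : (drop R {x}).Reachable y c := by
      have h1 := key2 x hxU y hxy
      by_cases hcq : c = q
      · rw [hcq]
        exact h1
      · have hc0 : c ∈ C₀.support := hsC ▸ hc
        exact h1.trans (key1 x hxU c (hUC c hc0 hcq) (hκC c hc0) hcx).symm
    obtain ⟨r₀⟩ := hyc
    set r := r₀.bypass with hr
    have hrp : r.IsPath := r₀.bypass_isPath
    have hxr : x ∉ r.support := by
      intro h
      exact hxy.ne' (S1_isolated ⟨r.takeUntil x h⟩)
    have hrR : ∀ z ∈ r.support, z ∈ R.support := by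
      intro z hz
      exact S1_mem_support ⟨x, hxy.symm⟩
        (Reachable.mono (drop_le R {x}) ⟨r.takeUntil z hz⟩)
    set r' : G.Walk y c := r.mapLe ((drop_le R {x}).trans hRG) with hr'
    have hr's : r'.support = r.support := by simp [hr']
    have hr'p : r'.IsPath := hrp.mapLe _
    obtain ⟨w, hwC, P, hP, -, hPS, hPr⟩ := B2a_firstHit {z | z ∈ C.support} r' hr'p
      ⟨c, r'.end_mem_support, hc⟩
    have hPr' : ∀ z ∈ P.support, z ∈ r.support := fun z hz => hr's ▸ hPr z hz
    have hxP : x ∉ P.support := fun h => hxr (hPr' x h)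
    refine ⟨w, hwC, ?_, Walk.cons (hRG hxy) P, ?_, ?_, ?_, ?_⟩
    · intro h
      exact hxP (h ▸ P.end_mem_support)
    · rw [Walk.cons_isPath_iff]
      exact ⟨hP, hxP⟩
    · have h1 : P.support.length = P.length + 1 := P.length_support
      have h2 : (P.support.toFinset : Set V) ⊆ R.support := by
        intro z hz
        exact hrR z (hPr' z (by simpa using hz))
      have h3 := Set.ncard_le_ncard h2 (Set.toFinite _)
      rw [Set.ncard_coe_finset, List.toFinset_card_of_nodup hP.support_nodup, h1] at h3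
      rw [Walk.length_cons]
      omega
    · intro z hz hzC
      rw [Walk.support_cons, List.mem_cons] at hz
      rcases hz with hz | hz
      · exact Or.inl hz
      · exact Or.inr (hPS z hz hzC)
    · intro e he heC
      rw [Walk.edges_cons, List.mem_cons] at he
      rcases he with rfl | he
      · exact hyC (C.snd_mem_support_of_mem_edges heC)
      · induction e with
        | _ a b =>
          have h1 := hPS a (P.fst_mem_support_of_mem_edges he)
            (C.fst_mem_support_of_mem_edges heC)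
          have h2 := hPS b (P.snd_mem_support_of_mem_edges he)
            (C.snd_mem_support_of_mem_edges heC)
          exact (C.adj_of_mem_edges heC).ne (h1.trans h2.symm)

end Pool.Agent.H40.CM
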