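import Pool.Agent.H40.CM.Defs

/-!
# CM / S2a: the size of a ball

Induction on `t`: the set for `t + 1` is contained in the union of the set `B_t` for `t` and the neighbourhoods of its
vertices (cut off the last edge of the walk), so `#B_{t+1} ≤ #B_t + Δ #B_t`.
-/

namespace Pool.Agent.H40.CM

open SimpleGraph

variable {V : Type*}

theorem ball_card [Finite V] {G : SimpleGraph V} {Δ : ℕ}
    (hΔ : ∀ v, (G.neighborSet v).ncard ≤ Δ) (S : Set V) (t : ℕ) :
    ({w | ∃ v ∈ S, ∃ P : G.Walk v w, P.length ≤ t} : Set V).ncard ≤ S.ncard * (Δ + 1) ^ t := by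
  classical
  have := Fintype.ofFinite V
  induction t with
  | zero =>
    rw [pow_zero, mul_one]
    refine Set.ncard_le_ncard ?_ (Set.toFinite _)
    rintro w ⟨v, hv, P, hP⟩
    have := Walk.eq_of_length_eq_zero (p := P) (by omega)
    rwa [← this]
  | succ t ih =>
    set B : Set V := {w | ∃ v ∈ S, ∃ P : G.Walk v w, P.length ≤ t} with hB
    have hsub : ({w | ∃ v ∈ S, ∃ P : G.Walk v w, P.length ≤ t + 1} : Set V) ⊆
        ⋃ x ∈ B.toFinset, insert x (G.neighborSet x) := by
      rintro w ⟨v, hv, P, hP⟩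
      simp only [Set.mem_iUnion, Set.mem_toFinset]
      by_cases hl : P.length ≤ t
      · exact ⟨w, ⟨v, hv, P, hl⟩, Set.mem_insert _ _⟩
      · have hnil : ¬ P.Nil := by
          intro h
          have := Walk.nil_iff_length_eq.1 h
          omega
        refine ⟨P.penultimate, ⟨v, hv, P.dropLast, ?_⟩, Or.inr (P.adj_penultimate hnil)⟩
        have : P.dropLast.length = P.length - 1 := by simp
        omega
    refine (Set.ncard_le_ncard hsub (Set.toFinite _)).trans ?_
    refine (Finset.set_ncard_biUnion_le _ _).trans ?_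
    have h1 : ∀ x ∈ B.toFinset, (insert x (G.neighborSet x)).ncard ≤ Δ + 1 := fun x _ =>
      (Set.ncard_insert_le _ _).trans (Nat.add_le_add_right (hΔ x) 1)
    refine (Finset.sum_le_card_nsmul _ _ _ h1).trans ?_
    rw [smul_eq_mul, ← Set.ncard_eq_toFinset_card', pow_succ, ← mul_assoc]
    exact Nat.mul_le_mul_right _ ih

end Pool.Agent.H40.CM
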