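import Pool.Agent.H40.CK.B6
import Pool.Agent.H40.CM.S1
import Pool.Agent.H40.CM.S2a

/-!
# CM / S2: small components of `cyc (G \ E)` with at most two bridge-darts, bounded degree

Write `G₁ = G \ E`, `H₁ = cyc G₁`, `κ` also for the vertex set.  Every vertex of `κ` has `H₁`-degree `≥ 2`
(`two_le_cyc`, `B6.mem_support`).  A `G₁`-edge from `u ∈ κ` to `v` is either an `H₁`-edge (then `v ∈ κ`) or a
bridge-dart (then `v ∉ κ` by `not_reachable`); the bridge-darts are the elements of
`BD = {d | d.1 ∈ κ.supp ∧ G₁.Adj d.1 d.2 ∧ ¬ H₁.Adj d.1 d.2}`, `#BD = bdeg G₁ κ ≤ 2`.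

Let `R` be the graph with the edges `xy` of `G` such that `x, y ∈ κ`, or `xy` lies on a cycle of `G` of
length `≤ s` containing two different vertices of `κ`.  `H` = the edges of `H₁` with both ends in `κ`;
`H ≤ R ≤ G`.  `R.support` is contained in the set of vertices `w` with a `G`-walk of length `≤ s` from a vertex of
`κ` (rotate the cycle), so `R.support.ncard ≤ K * (Δ + 1) ^ s` by `ball_card`.
`H`-cycle through each `x ∈ κ`: `cyc_cycle`, the cycle stays in `κ` (`B6.mem_of_reachable`).  A vertex `z ∈ R.support`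
outside `κ` lies on a cycle of `G` of length `≤ s` with two vertices of `κ`; all its edges are in `R`; rotate it
to start at `z`.

Let `Ex = {x ∈ κ | (R.neighborSet x).ncard ≤ 2}`.

(1) `x ∈ Ex` is the first vertex of some bridge-dart.  Otherwise all `G`-edges `x y` are in `R`, so its degree is
    `≥ 3`: if `y ∈ κ` clear.  If `y ∉ κ` then `x y` is not a `G₁`-edge (it would be a bridge-dart at `x`), so it is an `E`-edge;
    let `C` be its private cycle.  The other edge `x y'` of `C` at `x` is not in `E`, so it is a `G₁`-edge, not a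
    bridge-dart, so `y' ∈ κ`; so `C` contains `x, y' ∈ κ` and `x y ∈ R`.
(2) If `#Ex ≤ 1`, choose `p` with `Ex ⊆ {p}` and `u₀ ∈ κ`, `u₀ ≠ p` (`hnt`); `shortChorded_of_block` gives the result
    (`ShortChorded.mono`).
(3) If `#Ex ≥ 2`: as each element of `Ex` has a bridge-dart and there are at most two, `Ex = {x₁, x₂}` and the
    bridge-darts are `(x₁, y₁)`, `(x₂, y₂)`.  The two `H₁`-neighbours of `x_i` are in `κ` and are all its `R`-neighbours.
    Claim: for `x ∈ κ \ Ex` all `G`-neighbours of `x` are in `κ`.  Suppose `x y` is a `G`-edge, `y ∉ κ`.  It is not a bridge-dart,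
    so it is an `E`-edge; let `C` be its private cycle.  By `B6.second_crossing` (`S = κ`) `C` has another edge `a b`
    with `a ∈ κ`, `b ∉ κ`, `s(a, b) ≠ s(x, y)`; it is not in `E`, so it is a bridge-dart: `a = x_i` for some `i`,
    `a ≠ x` (`x ∉ Ex`).  So `C` contains two vertices of `κ`, hence `a b ∈ R`, contradicting that the `R`-neighbours of `x_i` are
    in `κ`.
    So in `G[κ]` (`B6.ind G κ.supp`) the vertices of `κ \ Ex` have degree `≥ 3` and `x₁, x₂` have degree `≥ 2`;
    `chorded_of_degrees` gives `ShortChorded (B6.ind G κ.supp) #κ`, and `ShortChorded.mono`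
    (`#κ ≤ K ≤ 3 * (K * (Δ + 1) ^ s + 1)`).
-/

namespace Pool.Agent.H40.CM

open SimpleGraph Pool.Agent.H40.CK

variable {V : Type*}

/-- the auxiliary graph `R` -/
private def S2R (G : SimpleGraph V) (S : Set V) (s : ℕ) : SimpleGraph V where
  Adj x y := G.Adj x y ∧ ((x ∈ S ∧ y ∈ S) ∨ ∃ (w : V) (Z : G.Walk w w), Z.IsCycle ∧ Z.length ≤ s ∧
    s(x, y) ∈ Z.edges ∧ ∃ a b, a ∈ S ∧ b ∈ S ∧ a ≠ b ∧ a ∈ Z.support ∧ b ∈ Z.support)
  symm := ⟨fun x y h => by
    refine ⟨h.1.symm, ?_⟩
    rcases h.2 with h2 | ⟨w, Z, hZ, hl, he, hab⟩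
    · exact Or.inl ⟨h2.2, h2.1⟩
    · exact Or.inr ⟨w, Z, hZ, hl, by rwa [Sym2.eq_swap], hab⟩⟩
  loopless := ⟨fun _ h => h.1.ne rfl⟩

/-- the other edge of a cycle at a vertex -/
private theorem S2_other [Finite V] {G : SimpleGraph V} {w x y : V} (Z : G.Walk w w) (hZ : Z.IsCycle)
    (he : s(x, y) ∈ Z.edges) : ∃ y', y' ≠ y ∧ s(x, y') ∈ Z.edges := by
  have hx : x ∈ Z.support := Z.fst_mem_support_of_mem_edges he
  have h2 := hZ.ncard_neighborSet_toSubgraph_eq_two hx
  obtain ⟨y', hy', hne⟩ := Set.exists_ne_of_one_lt_ncard (s := Z.toSubgraph.neighborSet x)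
    (by omega) y
  exact ⟨y', hne, Walk.adj_toSubgraph_iff_mem_edges.1 hy'⟩

private theorem S2_support [Finite V] {G : SimpleGraph V} {Δ : ℕ}
    (hΔ : ∀ v, (G.neighborSet v).ncard ≤ Δ) {s K : ℕ} (S : Set V) (hK : S.ncard ≤ K) :
    (S2R G S s).support.ncard ≤ K * (Δ + 1) ^ s := by
  classical
  refine le_trans (Set.ncard_le_ncard ?_ (Set.toFinite _))
    ((ball_card hΔ S s).trans (Nat.mul_le_mul_right _ hK))
  rintro z ⟨y, hGzy, h | ⟨w, Z, hZ, hl, he, a, b, ha, hb, hab, haZ, hbZ⟩⟩
  · exact ⟨z, h.1, Walk.nil, by simp⟩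
  · have hz : z ∈ Z.support := Z.fst_mem_support_of_mem_edges he
    have hz' : z ∈ (Z.rotate a haZ).support := (Walk.mem_support_rotate_iff _ _ _).2 hz
    refine ⟨a, ha, (Z.rotate a haZ).takeUntil z hz', ?_⟩
    refine (Walk.length_takeUntil_le_length _ _).trans ?_
    rw [Walk.length_rotate]
    exact hl

theorem small_comp [Finite V] {G E : SimpleGraph V} {Δ : ℕ}
    (hΔ : ∀ v, (G.neighborSet v).ncard ≤ Δ) {s K : ℕ} (hE : HitD G E s)
    (κ : (cyc (G \ E)).ConnectedComponent)
    (hκ : ∀ v ∈ κ.supp, 3 ≤ (G.neighborSet v).ncard)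
    (hnt : κ.supp.Nontrivial) (hK : κ.supp.ncard ≤ K) (hb : bdeg (G \ E) κ ≤ 2) :
    ShortChorded G (3 * (K * (Δ + 1) ^ s + 1)) := by
  classical
  have hle : cyc (G \ E) ≤ G := (cyc_le _).trans sdiff_le
  set BD : Set (V × V) := {d : V × V | d.1 ∈ κ.supp ∧ (G \ E).Adj d.1 d.2 ∧
    ¬ (cyc (G \ E)).Adj d.1 d.2} with hBD
  have hBDcard : BD.ncard ≤ 2 := hb
  set R := S2R G κ.supp s with hR
  have hRG : R ≤ G := fun x y h => h.1
  have hHR : B6.ind (cyc (G \ E)) κ.supp ≤ R := fun x y h => ⟨hle h.1, Or.inl h.2⟩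
  -- a `G`-edge leaving `κ` which is not in `E` is a bridge-dart
  have hleave : ∀ x ∈ κ.supp, ∀ y, y ∉ κ.supp → G.Adj x y → ¬ E.Adj x y → (x, y) ∈ BD := by
    intro x hx y hy hG hEn
    exact ⟨hx, ⟨hG, hEn⟩, fun h => hy (B6.mem_of_adj hx h)⟩
  set Ex : Set V := {x | x ∈ κ.supp ∧ (R.neighborSet x).ncard ≤ 2} with hEx
  -- (1)
  have h1 : ∀ x ∈ Ex, ∃ y, (x, y) ∈ BD := by
    rintro x ⟨hx, h2⟩
    by_contra hno
    push Not at hno
    have hsub : G.neighborSet x ⊆ R.neighborSet x := by
      intro y hy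
      have hGy : G.Adj x y := hy
      by_cases hyκ : y ∈ κ.supp
      · exact ⟨hGy, Or.inl ⟨hx, hyκ⟩⟩
      · have hEe : E.Adj x y := by
          by_contra hEn
          exact hno y (hleave x hx y hyκ hGy hEn)
        obtain ⟨w, Z, hZ, hl, he, hpr⟩ := hE.priv s(x, y) hEe
        obtain ⟨y', hne, he'⟩ := S2_other Z hZ he
        have hGy' : G.Adj x y' := Z.adj_of_mem_edges he'
        have hEn' : ¬ E.Adj x y' := by
          intro h
          have := hpr _ he' h
          rw [Sym2.congr_right] at this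
          exact hne this
        have hy'κ : y' ∈ κ.supp := by
          by_contra hc
          exact hno y' (hleave x hx y' hc hGy' hEn')
        exact ⟨hGy, Or.inr ⟨w, Z, hZ, hl, he, x, y', hx, hy'κ, hGy'.ne,
          Z.fst_mem_support_of_mem_edges he', Z.snd_mem_support_of_mem_edges he'⟩⟩
    have h3 := Set.ncard_le_ncard hsub (Set.toFinite _)
    have h4 := hκ x hx
    omega
  have hExcard : Ex.ncard ≤ 2 := by
    refine le_trans ?_ hBDcard
    choose! f hf using h1
    refine Set.ncard_le_ncard_of_injOn (fun v => (v, f v)) (fun v hv => hf v hv) ?_ (Set.toFinite _)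
    intro a _ b _ hab
    exact congrArg Prod.fst hab
  by_cases hcase : Ex.ncard ≤ 1
  · -- (2)
    obtain ⟨p, hp⟩ : ∃ p : V, ∀ x ∈ Ex, x = p := by
      by_cases hne : Ex.Nonempty
      · obtain ⟨p, hp⟩ := hne
        exact ⟨p, fun x hx => (Set.ncard_le_one (Set.toFinite _)).1 hcase x hx p hp⟩
      · exact ⟨hnt.nonempty.some, fun x hx => absurd ⟨x, hx⟩ hne⟩
    obtain ⟨u₀, hu₀, hne⟩ := hnt.exists_ne p
    have key := shortChorded_of_block hRG hHR κ.supp (fun x y _ h => h.2.2) ?_ p u₀ hu₀ hne ?_ ?_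
    · refine key.mono le_rfl ?_
      have := S2_support hΔ (s := s) κ.supp hK
      rw [← hR] at this
      omega
    · intro x hx
      obtain ⟨y, hy⟩ := B6.mem_support hnt hx
      obtain ⟨C, hC, -⟩ := cyc_cycle hy
      have hall : ∀ e ∈ C.edges, e ∈ (B6.ind (cyc (G \ E)) κ.supp).edgeSet := by
        intro e
        induction e with
        | h a b =>
          intro he
          have ha := C.fst_mem_support_of_mem_edges he
          have hb' := C.snd_mem_support_of_mem_edges he
          exact ⟨C.adj_of_mem_edges he, B6.mem_of_reachable hx ⟨C.takeUntil a ha⟩,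
            B6.mem_of_reachable hx ⟨C.takeUntil b hb'⟩⟩
      exact ⟨C.transfer _ hall, hC.transfer hall⟩
    · rintro z ⟨y, hzy⟩ hz
      rcases hzy.2 with h | ⟨w, Z, hZ, hl, he, a, b, ha, hb', hab, haZ, hbZ⟩
      · exact absurd h.1 hz
      · have hzZ : z ∈ Z.support := Z.fst_mem_support_of_mem_edges he
        have hall : ∀ e ∈ (Z.rotate z hzZ).edges, e ∈ R.edgeSet := by
          intro e
          induction e with
          | h c d =>
            intro hcd
            have hcd' : s(c, d) ∈ Z.edges := (Z.rotate_edges z hzZ).mem_iff.1 hcd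
            exact ⟨Z.adj_of_mem_edges hcd', Or.inr ⟨w, Z, hZ, hl, hcd', a, b, ha, hb', hab, haZ, hbZ⟩⟩
        refine ⟨(Z.rotate z hzZ).transfer R hall, (hZ.rotate hzZ).transfer hall, a, b, ha, hb', hab, ?_, ?_⟩
        · rw [Walk.support_transfer]
          exact (Walk.mem_support_rotate_iff _ _ _).2 haZ
        · rw [Walk.support_transfer]
          exact (Walk.mem_support_rotate_iff _ _ _).2 hbZ
    · intro x hx hxp
      by_contra hc
      exact hxp (hp x ⟨hx, by omega⟩)
  · -- (3)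
    have hEx2 : Ex.ncard = 2 := by omega
    have hfirst : ∀ d ∈ BD, d.1 ∈ Ex := by
      choose! f hf using h1
      have hsub : (fun v => (v, f v)) '' Ex ⊆ BD := by
        rintro _ ⟨v, hv, rfl⟩
        exact hf v hv
      have hc : ((fun v => (v, f v)) '' Ex).ncard = Ex.ncard := by
        apply Set.InjOn.ncard_image
        intro a _ b _ hab
        exact congrArg Prod.fst hab
      have heq := Set.eq_of_subset_of_ncard_le hsub (by rw [hc, hEx2]; exact hBDcard) (Set.toFinite _)
      intro d hd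
      rw [← heq] at hd
      obtain ⟨v, hv, rfl⟩ := hd
      exact hv
    have hH2 : ∀ x ∈ κ.supp, 2 ≤ ((cyc (G \ E)).neighborSet x).ncard := fun x hx =>
      two_le_cyc (B6.mem_support hnt hx)
    have hRκ : ∀ x ∈ Ex, ∀ y, R.Adj x y → y ∈ κ.supp := by
      rintro x ⟨hx, h2⟩ y hy
      have hsub : (cyc (G \ E)).neighborSet x ⊆ R.neighborSet x := fun z hz =>
        hHR ⟨hz, hx, B6.mem_of_adj hx hz⟩
      have heq := Set.eq_of_subset_of_ncard_le hsub (h2.trans (hH2 x hx)) (Set.toFinite _)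
      have hy' : y ∈ (cyc (G \ E)).neighborSet x := by rw [heq]; exact hy
      exact B6.mem_of_adj hx hy'
    have hκκ : ∀ x ∈ κ.supp, x ∉ Ex → ∀ y, G.Adj x y → y ∈ κ.supp := by
      intro x hx hxE y hxy
      by_contra hy
      have hEe : E.Adj x y := by
        by_contra hEn
        exact hxE (hfirst _ (hleave x hx y hy hxy hEn))
      obtain ⟨w, Z, hZ, hl, he, hpr⟩ := hE.priv s(x, y) hEe
      obtain ⟨a, b, ha, hb', hab, hne⟩ := B6.second_crossing hx hy Z hZ he
      have hGab : G.Adj a b := Z.adj_of_mem_edges hab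
      have hEab : ¬ E.Adj a b := fun h => hne (hpr _ hab h)
      have haE : a ∈ Ex := hfirst _ (hleave a ha b hb' hGab hEab)
      have hax : a ≠ x := fun h => hxE (h ▸ haE)
      have hRab : R.Adj a b := ⟨hGab, Or.inr ⟨w, Z, hZ, hl, hab, a, x, ha, hx, hax,
        Z.fst_mem_support_of_mem_edges hab, Z.fst_mem_support_of_mem_edges he⟩⟩
      exact hb' (hRκ a haE b hRab)
    set G' := B6.ind G κ.supp with hG'
    have hG'le : G' ≤ G := fun x y h => h.1
    have hHadj : ∀ {x y}, x ∈ κ.supp → (cyc (G \ E)).Adj x y → G'.Adj x y := fun hx h =>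
      ⟨hle h, hx, B6.mem_of_adj hx h⟩
    have hsupp : G'.support = κ.supp := by
      ext x
      constructor
      · rintro ⟨y, h⟩
        exact h.2.1
      · intro hx
        obtain ⟨y, hy⟩ := B6.mem_support hnt hx
        exact ⟨y, hHadj hx hy⟩
    have hdeg2 : ∀ v ∈ G'.support, 2 ≤ (G'.neighborSet v).ncard := by
      intro v hv
      rw [hsupp] at hv
      refine (hH2 v hv).trans (Set.ncard_le_ncard ?_ (Set.toFinite _))
      intro y hy
      exact hHadj hv hy
    have hcard : ({v | v ∈ G'.support ∧ (G'.neighborSet v).ncard = 2} : Set V).ncard ≤ 2 := by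
      refine le_trans (Set.ncard_le_ncard ?_ (Set.toFinite _)) hExcard
      rintro v ⟨hv, h2⟩
      rw [hsupp] at hv
      by_contra hvE
      have hsub : G.neighborSet v ⊆ G'.neighborSet v := fun y hy => ⟨hy, hv, hκκ v hv hvE y hy⟩
      have h3 := Set.ncard_le_ncard hsub (Set.toFinite _)
      have h4 := hκ v hv
      omega
    have hne : G'.support.Nonempty := by
      rw [hsupp]; exact hnt.nonempty
    have := chorded_of_degrees G' hne hdeg2 hcard
    refine this.mono hG'le ?_
    rw [hsupp]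
    have h5 : 1 ≤ (Δ + 1) ^ s := Nat.one_le_pow _ _ (by omega)
    have h6 : K ≤ K * (Δ + 1) ^ s := Nat.le_mul_of_pos_right _ h5
    omega

end Pool.Agent.H40.CM
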