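import Pool.Agent.H40.CM.T2m

/-!
# CM / T3m: few vertices are outside `cyc G₁`

`H = cyc G₁`, `β = Bad.ncard`, `n₁ = #H.support`, `t = #H.supportᶜ`, `ν = smallK G₁`.
Vertices outside `Bad` have degree `≥ 2`, so `T1 G₁ ⊆ Bad` and isolated vertices are in `Bad`.
`t ≤ β + #T2 + #T3` (isolated vertices and `T1` are in `Bad`), `#T3 ≤ β + 2 ν`, `#ent ≤ 4 β + 6 ν` (`dart_counts`),
`#T2 ≤ β + 6 s (6 β + 6 ν)`; so `t ≤ 39 s β + 38 s ν`.
`100 R s ν ≤ 100 R s β + n₁`: at most `β` of the small components contain a vertex of `Bad`, the others have more than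
`100 R s` vertices, and they are disjoint subsets of `H.support`.
So `100 R t ≤ 3900 R s β + 3800 R s ν ≤ 7700 R s β + 38 n₁` and `7700 R s β ≤ 7.7 (n₁ + t)`:
`(100 R - 7.7) t ≤ 45.7 n₁`, so `R t ≤ n₁`.  `H.support ≠ ∅`, otherwise `n₁ = 0`, `t = 0`.
-/

namespace Pool.Agent.H40.CM

open SimpleGraph Pool.Agent.H40.CK

variable {V : Type*}

theorem T_bound [Finite V] [Nonempty V] {G₁ : SimpleGraph V} (Bad : Set V)
    (hdeg2 : ∀ v, v ∉ Bad → 2 ≤ (G₁.neighborSet v).ncard) {s R : ℕ} (hs : 1 ≤ s) (hR : 1 ≤ R)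
    (hbig : ∀ κ : (cyc G₁).ConnectedComponent, κ.supp.Nontrivial → bdeg G₁ κ ≤ 2 →
      (∀ v ∈ κ.supp, v ∉ Bad) → 100 * R * s < κ.supp.ncard)
    (hT2 : (T2 G₁).ncard ≤ Bad.ncard + 6 * s * ((ent G₁).ncard + 2 * Bad.ncard))
    (hBad : 1000 * R * s * Bad.ncard ≤ Nat.card V) :
    R * ((cyc G₁).supportᶜ).ncard ≤ (cyc G₁).support.ncard ∧ (cyc G₁).support.Nonempty := by
  classical
  have := Fintype.ofFinite V
  have : Fintype (cyc G₁).ConnectedComponent := Fintype.ofFinite _
  obtain ⟨hT3, -, hent⟩ := dart_counts G₁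
  set H := cyc G₁ with hH
  -- the complement of the support
  have hcompl : (H.supportᶜ).ncard ≤ Bad.ncard + ((T2 G₁).ncard + (T3 G₁).ncard) := by
    have hsub : H.supportᶜ ⊆ Bad ∪ (T2 G₁ ∪ T3 G₁) := by
      intro v hv
      by_cases hB : v ∈ Bad
      · exact Or.inl hB
      · have h2 := hdeg2 v hB
        rcases Nat.lt_or_ge (G₁.neighborSet v).ncard 3 with h3 | h3
        · exact Or.inr (Or.inl ⟨hv, by omega⟩)
        · exact Or.inr (Or.inr ⟨hv, h3⟩)
    refine (Set.ncard_le_ncard hsub (Set.toFinite _)).trans ?_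
    refine (Set.ncard_union_le _ _).trans (Nat.add_le_add_left ?_ _)
    exact Set.ncard_union_le _ _
  have hT1 : (T1 G₁).ncard ≤ Bad.ncard := by
    refine Set.ncard_le_ncard (fun v hv => ?_) (Set.toFinite _)
    by_contra hB
    have h2 := hdeg2 v hB
    have h3 := hv.2
    omega
  -- the small components
  set N2 : Finset H.ConnectedComponent :=
    Finset.univ.filter fun κ => κ.supp.Nontrivial ∧ bdeg G₁ κ ≤ 2 with hN2
  have hsm : smallK G₁ = N2.card := by
    unfold smallK
    rw [← Set.ncard_coe_finset]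
    congr 1
    ext κ
    rw [Finset.mem_coe, hN2, Finset.mem_filter]
    exact ⟨fun h => ⟨Finset.mem_univ _, h⟩, fun h => h.2⟩
  set NB : Finset H.ConnectedComponent := N2.filter fun κ => ∃ v ∈ κ.supp, v ∈ Bad with hNB
  set NG : Finset H.ConnectedComponent := N2.filter fun κ => ¬ ∃ v ∈ κ.supp, v ∈ Bad with hNG
  have hNBG : N2.card = NB.card + NG.card :=
    (Finset.card_filter_add_card_filter_not (s := N2)
      fun κ : H.ConnectedComponent => ∃ v ∈ κ.supp, v ∈ Bad).symm
  have hNB' : NB.card ≤ Bad.ncard := by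
    have hβc : Bad.ncard = Bad.toFinset.card := Set.ncard_eq_toFinset_card' _
    rw [hβc]
    have hex : ∀ κ : H.ConnectedComponent, ∃ v : V, κ ∈ NB → v ∈ κ.supp ∧ v ∈ Bad := by
      intro κ
      by_cases hκ : κ ∈ NB
      · obtain ⟨v, hv1, hv2⟩ := (Finset.mem_filter.1 hκ).2
        exact ⟨v, fun _ => ⟨hv1, hv2⟩⟩
      · exact ⟨Classical.arbitrary V, fun h => absurd h hκ⟩
    choose f hf using hex
    refine Finset.card_le_card_of_injOn f (fun κ hκ => ?_) (fun κ hκ κ' hκ' h => ?_)
    · rw [Finset.mem_coe, Set.mem_toFinset]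
      exact (hf κ hκ).2
    · have h1 := (hf κ hκ).1
      have h2 := (hf κ' hκ').1
      rw [ConnectedComponent.mem_supp_iff] at h1 h2
      rw [← h1, ← h2, h]
  have hlarge : NG.card * (100 * R * s) ≤ H.support.ncard := by
    set Sp : H.ConnectedComponent → Finset V := fun κ => Finset.univ.filter fun v => v ∈ κ.supp
      with hSp
    have hSpc : ∀ κ, (Sp κ).card = κ.supp.ncard := by
      intro κ
      rw [← Set.ncard_coe_finset]
      congr 1
      ext v; simp [hSp]
    have hdisj : ∀ κ ∈ NG, ∀ κ' ∈ NG, κ ≠ κ' → Disjoint (Sp κ) (Sp κ') := by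
      intro κ _ κ' _ hne
      rw [Finset.disjoint_left]
      intro v h1 h2
      simp only [hSp, Finset.mem_filter, Finset.mem_univ, true_and,
        ConnectedComponent.mem_supp_iff] at h1 h2
      exact hne (h1.symm.trans h2)
    have h1 : (NG.biUnion Sp).card = ∑ κ ∈ NG, (Sp κ).card := Finset.card_biUnion hdisj
    have h2 : ((NG.biUnion Sp : Finset V) : Set V) ⊆ H.support := by
      intro v hv
      rw [Finset.mem_coe, Finset.mem_biUnion] at hv
      obtain ⟨κ, hκ, hv⟩ := hv
      simp only [hSp, Finset.mem_filter, Finset.mem_univ, true_and] at hv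
      exact B9_supp_subset (Finset.mem_filter.1 (Finset.mem_filter.1 hκ).1).2.1 hv
    have h3 := Set.ncard_le_ncard h2 (Set.toFinite _)
    rw [Set.ncard_coe_finset, h1] at h3
    refine le_trans ?_ h3
    have := Finset.card_nsmul_le_sum NG (fun κ => (Sp κ).card) (100 * R * s) (fun κ hκ => by
      have hκ' := Finset.mem_filter.1 hκ
      have hκ'' := (Finset.mem_filter.1 hκ'.1).2
      rw [hSpc]
      refine (hbig κ hκ''.1 hκ''.2 fun v hv hvB => ?_).le
      exact hκ'.2 ⟨v, hv, hvB⟩)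
    simpa using this
  have hcardV : Nat.card V = H.support.ncard + (H.supportᶜ).ncard :=
    (Set.ncard_add_ncard_compl H.support).symm
  have hVpos : 0 < Nat.card V := Nat.card_pos
  rw [hsm] at hT3 hent
  generalize N2.card = ν at *
  generalize Bad.ncard = β at *
  generalize (T2 G₁).ncard = t2 at *
  generalize (T3 G₁).ncard = t3 at *
  generalize (T1 G₁).ncard = t1 at *
  generalize (ent G₁).ncard = en at *
  generalize (H.supportᶜ).ncard = t at *
  generalize hn1 : H.support.ncard = n₁ at *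
  generalize NB.card = nb at *
  generalize NG.card = ng at *
  have h1 : t2 ≤ β + (36 * (s * ν) + 36 * (s * β)) := by
    calc t2 ≤ β + 6 * s * (en + 2 * β) := hT2
      _ ≤ β + 6 * s * ((4 * β + 6 * ν) + 2 * β) :=
        Nat.add_le_add_left (Nat.mul_le_mul_left _ (Nat.add_le_add_right (by omega) _)) _
      _ = β + (36 * (s * ν) + 36 * (s * β)) := by ring
  have hsν : ν ≤ s * ν := Nat.le_mul_of_pos_left ν hs
  have hsβ : β ≤ s * β := Nat.le_mul_of_pos_left β hs
  have ht : t ≤ 39 * (s * β) + 38 * (s * ν) := by omega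
  have hRt : R * t ≤ 39 * (R * s * β) + 38 * (R * s * ν) := by
    calc R * t ≤ R * (39 * (s * β) + 38 * (s * ν)) := Nat.mul_le_mul_left _ ht
      _ = _ := by ring
  have hl : 100 * (R * s * ν) ≤ 100 * (R * s * β) + n₁ := by
    calc 100 * (R * s * ν) = nb * (100 * R * s) + ng * (100 * R * s) := by rw [hNBG]; ring
      _ ≤ β * (100 * R * s) + n₁ := Nat.add_le_add (Nat.mul_le_mul_right _ hNB') hlarge
      _ = _ := by ring
  have hBad' : 1000 * (R * s * β) ≤ n₁ + t := by
    calc 1000 * (R * s * β) = 1000 * R * s * β := by ring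
      _ ≤ _ := hBad
      _ = _ := hcardV
  have htR : t ≤ R * t := Nat.le_mul_of_pos_left t hR
  have hmain : R * t ≤ n₁ := by
    generalize R * t = Rt at *
    generalize R * s * β = x at *
    generalize R * s * ν = y at *
    omega
  refine ⟨hmain, ?_⟩
  rw [← Set.ncard_pos (Set.toFinite _), hn1]
  omega

end Pool.Agent.H40.CM
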