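import Pool.Agent.H40.CL.C8
import Pool.Agent.H40.CM.E4
import Pool.Agent.H40.CM.S2
import Pool.Agent.H40.CM.N1
import Pool.Agent.H40.CM.T3m
import Pool.Agent.H40.CM.G1
import Pool.Agent.H40.CM.R1

/-!
# CM / B1m: part B for bounded degree
-/

namespace Pool.Agent.H40.CM

open SimpleGraph Pool.Agent.H40.CK

universe u

theorem partB (Δ s : ℕ) (hs : 1 ≤ s) :
    ∃ (K : ℕ) (ε : ℝ), 1 ≤ K ∧ 0 < ε ∧ ∀ {V : Type u} [Finite V] [Nonempty V]
      (G : SimpleGraph V), (∀ v, (G.neighborSet v).ncard ≤ Δ) →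
      (({v | (G.neighborSet v).ncard < 3} : Set V).ncard : ℝ) ≤ ε * (Nat.card V : ℝ) →
      ¬ ShortChorded G K →
      ∃ Z : SimpleGraph V, Z ≤ G ∧ (∀ v, Even (Z.neighborSet v).ncard) ∧
        (∀ (u : V) (C : Z.Walk u u), C.IsCycle → s < C.length) ∧
        Nat.card V ≤ 40 * (free G Z).ncard := by
  obtain ⟨R, hR⟩ : ∃ R : ℕ, R = 100 * Δ + 100 := ⟨_, rfl⟩
  obtain ⟨K, hK⟩ : ∃ K : ℕ, K = 3 * (100 * R * s * (Δ + 1) ^ s + 1) + 3 * s := ⟨_, rfl⟩
  refine ⟨K, 1 / (1000 * (R : ℝ) * s), by omega, ?_, ?_⟩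
  · have h1 : (0 : ℝ) < R := by
      have : 0 < R := by omega
      exact_mod_cast this
    have h2 : (0 : ℝ) < s := by exact_mod_cast hs
    positivity
  intro V _ _ G hΔ hbad hSC
  set Bad : Set V := {v | (G.neighborSet v).ncard < 3} with hBadDef
  have hthree : ∀ v, v ∉ Bad → 3 ≤ (G.neighborSet v).ncard := by
    intro v hv
    by_contra h
    exact hv (by rw [hBadDef, Set.mem_ofPred_eq]; omega)
  have hbadN : 1000 * R * s * Bad.ncard ≤ Nat.card V := by
    have h1 : (0 : ℝ) < R := by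
      have : 0 < R := by omega
      exact_mod_cast this
    have h2 : (0 : ℝ) < s := by exact_mod_cast hs
    rw [div_mul_eq_mul_div, one_mul, le_div_iff₀ (by positivity)] at hbad
    have h3 : ((1000 * R * s * Bad.ncard : ℕ) : ℝ) ≤ (Nat.card V : ℝ) := by
      push_cast
      linarith
    exact_mod_cast h3
  have hno : ¬ ShortChorded G (3 * s) := fun h => hSC (h.mono le_rfl (by omega))
  obtain ⟨E, hE⟩ := exists_hitD hno
  have hT2 : (T2 (G \ E)).ncard ≤ Bad.ncard + 6 * s * ((ent (G \ E)).ncard + 2 * Bad.ncard) :=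
    CL.T2_bound (by omega) Bad fun x h0 h1 h2 h3 =>
      hno (no_long_chain hs hE le_rfl x (fun i hi => hthree _ (h0 i hi)) h1 h2 h3)
  obtain ⟨ht, hne⟩ := T_bound (G₁ := G \ E) (R := R) Bad (fun v hv => hE.deg v (hthree v hv)) hs
    (by omega)
    (fun κ hnt hb hκ => by
      by_contra hlt
      exact hSC ((small_comp hΔ hE κ (fun v hv => hthree v (hκ v hv)) hnt
        (not_lt.1 hlt) hb).mono le_rfl (by omega))) hT2 hbadN
  have hHG1 : cyc (G \ E) ≤ G \ E := cyc_le _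
  have hHG : cyc (G \ E) ≤ G := hHG1.trans sdiff_le
  have hg := goodD_card hΔ Bad hthree hHG (fun v hv => two_le_cyc hv)
  obtain ⟨Z, hZH, hZe, hZg⟩ := random_even' (cyc (G \ E))
    (fun u v h => by
      obtain ⟨C, hC, he⟩ := cyc_cycle h
      exact ⟨u, C, hC, he⟩)
    (goodD G (cyc (G \ E)))
    (fun e he => G.not_isDiag_of_mem_edgeSet he.1)
    (fun e he => he.2.1) (fun e he => he.2.2)
  have hZG1 : Z ≤ G \ E := hZH.trans hHG1
  have hZG : Z ≤ G := hZH.trans hHG
  refine ⟨Z, hZG, hZe, ?_, ?_⟩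
  · intro v C hC
    by_contra hlt
    obtain ⟨e, heC, heE⟩ := hE.hit v (C.mapLe hZG) (hC.mapLe hZG) (by simpa using not_lt.1 hlt)
    have h0 : e ∈ C.edges := by simpa using heC
    have h1 : e ∈ Z.edgeSet := C.edges_subset_edgeSet h0
    have h2 : e ∈ (G \ E).edgeSet := (edgeSet_mono hZG1) h1
    rw [edgeSet_sdiff] at h2
    exact h2.2 heE
  · have hsub' : ({e | e ∈ goodD G (cyc (G \ E)) ∧ e ∉ Z.edgeSet ∧ ∀ z ∈ e, z ∈ Z.support} :
        Set (Sym2 V)) ⊆ free G Z := by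
      rintro e ⟨h1, h2, h3⟩
      exact ⟨h1.1, h2, h3⟩
    have hcount := Set.ncard_le_ncard hsub' (Set.toFinite _)
    have hn1 : 1 ≤ (cyc (G \ E)).support.ncard := (Set.ncard_pos (Set.toFinite _)).2 hne
    have hnV : (cyc (G \ E)).support.ncard + ((cyc (G \ E)).supportᶜ).ncard = Nat.card V :=
      Set.ncard_add_ncard_compl _
    generalize hn1e : (cyc (G \ E)).support.ncard = n₁ at *
    generalize ((cyc (G \ E)).supportᶜ).ncard = t at *
    generalize (free G Z).ncard = f at *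
    generalize ({e | e ∈ goodD G (cyc (G \ E)) ∧ e ∉ Z.edgeSet ∧ ∀ z ∈ e, z ∈ Z.support} :
        Set (Sym2 V)).ncard = f' at *
    generalize (goodD G (cyc (G \ E))).ncard = g at *
    generalize Bad.ncard = β at *
    have h1 : 100 * (Δ * t) + 100 * t ≤ n₁ := by
      rw [hR] at ht
      nlinarith
    have h2 : 100000 * β ≤ Nat.card V := by
      refine le_trans ?_ hbadN
      have : 100 ≤ R * s := by
        calc 100 ≤ R := by omega
          _ = R * 1 := by ring
          _ ≤ R * s := Nat.mul_le_mul_left _ hs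
      calc 100000 * β = 1000 * (100 * β) := by ring
        _ ≤ 1000 * ((R * s) * β) := by gcongr
        _ = 1000 * R * s * β := by ring
    have h3 : 5 * Δ * t = 5 * (Δ * t) := by ring
    rw [h3] at hg
    omega

end Pool.Agent.H40.CM
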