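import Pool.Agent.H40.CL.D1

/-!
# CM / D2: from graphs with few exceptional vertices to bounded degree

`SubD Δ ε c`: every graph on a finite nonempty type with all degrees `≤ Δ` and at most `ε n` vertices
of degree less than three has a cycle `C` with at least `c |C|` chords.
-/

namespace Pool.Agent.H40.CM

open SimpleGraph Pool.Agent.H40.CK Pool.Agent.H40.CL

universe u

/-- The bounded degree theorem with constants `Δ`, `ε` and `c`. -/
def SubD (Δ : ℕ) (ε c : ℝ) : Prop :=
  ∀ (V : Type u) [Finite V] [Nonempty V] (G : SimpleGraph V), (∀ v, (G.neighborSet v).ncard ≤ Δ) →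
    (({v | (G.neighborSet v).ncard < 3} : Set V).ncard : ℝ) ≤ ε * (Nat.card V : ℝ) →
    ∃ (u : V) (C : G.Walk u u), C.IsCycle ∧ c * (C.length : ℝ) ≤ ((chords G C).ncard : ℝ)

theorem near_of_subD {Δ : ℕ} (hΔ : 3 ≤ Δ) {ε' ε c : ℝ} (hε : 0 < ε) (hε1 : ε ≤ 1)
    (hε' : 2 * ε ≤ ε') (h : SubD.{u} Δ ε' c)
    {V : Type u} [Finite V] (G H : SimpleGraph V) (W : Set V) (hle : H ≤ G) (hW : W.Nonempty)
    (hsupp : H.support ⊆ W)
    (hcase : (({v | v ∈ W ∧ (H.neighborSet v).ncard < 3} : Set V).ncard : ℝ) +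
        (({d | H.Adj d.1 d.2 ∧ Δ < (H.neighborSet d.1).ncard} : Set (V × V)).ncard : ℝ) ≤
      ε * (W.ncard : ℝ)) :
    ∃ (u : V) (C : G.Walk u u), C.IsCycle ∧ c * (C.length : ℝ) ≤ ((chords G C).ncard : ℝ) := by
  classical
  cases nonempty_fintype V
  set N : V → ℕ := fun v => (H.neighborSet v).ncard with hN
  set X : Set V := {v | Δ < N v} with hX
  set L : Set V := {v | v ∈ W ∧ N v < 3} with hL
  set D : Set (V × V) := {d | H.Adj d.1 d.2 ∧ Δ < N d.1} with hD
  have hXW : X ⊆ W := by
    intro v hv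
    have h1 : 0 < N v := by
      have : Δ < N v := hv
      omega
    obtain ⟨w, hw⟩ := (Set.ncard_pos (Set.toFinite _)).1 h1
    exact hsupp ⟨w, hw⟩
  have hWpos : (0 : ℝ) < W.ncard := by exact_mod_cast hW.ncard_pos (Set.toFinite _)
  -- every vertex of `X` has more than `Δ` darts
  have hXD : 4 * X.ncard ≤ D.ncard := by
    have h1 : (X.toFinset.sigma fun v => (H.neighborSet v).toFinset).card ≤ D.ncard := by
      rw [Set.ncard_eq_toFinset_card']
      refine Finset.card_le_card_of_injOn (fun p => (p.1, p.2)) ?_ ?_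
      · rintro ⟨v, w⟩ hp
        simp only [Finset.coe_sigma, Set.mem_sigma_iff, Finset.mem_coe, Set.mem_toFinset] at hp
        simp only [Set.coe_toFinset]
        exact ⟨hp.2, hp.1⟩
      · rintro ⟨v, w⟩ _ ⟨v', w'⟩ _ hvw
        simp only [Prod.mk.injEq] at hvw
        obtain ⟨rfl, rfl⟩ := hvw
        rfl
    rw [Finset.card_sigma] at h1
    have h2 : X.toFinset.card • 4 ≤ ∑ v ∈ X.toFinset, ((H.neighborSet v).toFinset).card := by
      apply Finset.card_nsmul_le_sum
      intro v hv
      have h3 : Δ < N v := by simpa [hX] using hv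
      rw [← Set.ncard_eq_toFinset_card']
      show 4 ≤ N v
      omega
    rw [← Set.ncard_eq_toFinset_card', smul_eq_mul] at h2
    omega
  have hXDR : 4 * (X.ncard : ℝ) ≤ (D.ncard : ℝ) := by exact_mod_cast hXD
  have hLR : (0 : ℝ) ≤ (L.ncard : ℝ) := Nat.cast_nonneg _
  set Y : Set V := W \ X with hY
  have hYc : (Y.ncard : ℝ) = W.ncard - X.ncard := by
    have := Set.ncard_sdiff_add_ncard_of_subset hXW (Set.toFinite _)
    rw [eq_sub_iff_add_eq]
    exact_mod_cast this
  have hYpos : (W.ncard : ℝ) ≤ 2 * Y.ncard := by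
    rw [hYc]
    nlinarith
  have hYc' : Nat.card Y = Y.ncard := Nat.card_coe_set_eq Y
  have : Nonempty Y := by
    have h1 : (0 : ℝ) < Y.ncard := by linarith
    have h2 : 0 < Y.ncard := by exact_mod_cast h1
    obtain ⟨v, hv⟩ := (Set.ncard_pos (Set.toFinite _)).1 h2
    exact ⟨⟨v, hv⟩⟩
  have hdeg : ∀ v : Y, ((H.induce Y).neighborSet v).ncard ≤ N v := by
    intro v
    rw [← Set.ncard_image_of_injective _ Subtype.val_injective]
    refine Set.ncard_le_ncard ?_ (Set.toFinite _)
    rintro _ ⟨w, hw, rfl⟩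
    exact hw
  have hsub : ∀ v : Y, ((H.induce Y).neighborSet v).ncard ≤ Δ := by
    intro v
    have h1 : ¬ Δ < N v := v.2.2
    exact (hdeg v).trans (not_lt.1 h1)
  have hB : ({v | ((H.induce Y).neighborSet v).ncard < 3} : Set Y).ncard ≤
      L.ncard + D.ncard := by
    rw [← Set.ncard_image_of_injective _ Subtype.val_injective]
    have h1 : (Subtype.val '' ({v | ((H.induce Y).neighborSet v).ncard < 3} : Set Y) : Set V) ⊆
        L ∪ Prod.snd '' D := by
      rintro _ ⟨v, hv, rfl⟩
      by_cases h3 : N v < 3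
      · exact Or.inl ⟨v.2.1, h3⟩
      · right
        by_contra hno
        have h4 : ((H.induce Y).neighborSet v).ncard = N v := by
          rw [← Set.ncard_image_of_injective _ Subtype.val_injective]
          simp only [hN]
          congr 1
          ext w
          constructor
          · rintro ⟨x, hx, rfl⟩
            exact hx
          · intro hw
            have hwadj : H.Adj v w := hw
            have hwW : w ∈ W := hsupp ⟨v, hwadj.symm⟩
            have hwX : w ∉ X := fun hwX => hno ⟨(w, v), ⟨hwadj.symm, hwX⟩, rfl⟩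
            exact ⟨⟨w, ⟨hwW, hwX⟩⟩, hw, rfl⟩
        have h5 : ((H.induce Y).neighborSet v).ncard < 3 := hv
        rw [h4] at h5
        exact h3 h5
    refine (Set.ncard_le_ncard h1 (Set.toFinite _)).trans ((Set.ncard_union_le _ _).trans ?_)
    gcongr
    exact Set.ncard_image_le (Set.toFinite _)
  obtain ⟨u, C, hC, hCc⟩ := h Y (H.induce Y) hsub (by
    rw [hYc']
    have hB' : (({v | ((H.induce Y).neighborSet v).ncard < 3} : Set Y).ncard : ℝ) ≤
      L.ncard + D.ncard := by exact_mod_cast hB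
    nlinarith)
  let f : H.induce Y →g G :=
    ⟨Subtype.val, fun {a b} h => hle (show H.Adj a b from h)⟩
  have hf : Function.Injective f := Subtype.val_injective
  refine ⟨f u, C.map f, hC.map hf, ?_⟩
  have h1 := chords_map f hf C
  have h2 : (C.map f).length = C.length := by simp
  rw [h2]
  have h3' : ((chords (H.induce Y) C).ncard : ℝ) ≤ ((chords G (C.map f)).ncard : ℝ) := by
    exact_mod_cast h1
  linarith

end Pool.Agent.H40.CM
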