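import Pool.Agent.H40.CM.D2
import Pool.Agent.H40.CL.C12

/-!
# CM / D3: graphs with a nearly 3-regular subgraph
-/

namespace Pool.Agent.H40.CM

open SimpleGraph Pool.Agent.H40.CK Pool.Agent.H40.CL

universe u

theorem subD_three : SubD.{u} 3 (1 / 10 ^ 20) (1 / 10 ^ 20) := by
  intro V _ _ G hdeg hbad
  refine sub_main V G hdeg ?_
  have h : ({v | (G.neighborSet v).ncard ≠ 3} : Set V) = {v | (G.neighborSet v).ncard < 3} := by
    ext v
    simp only [Set.mem_ofPred_eq]
    have := hdeg v
    omega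
  rw [h]
  exact hbad

theorem near_three {V : Type u} [Finite V] (G H : SimpleGraph V) (W : Set V) (hle : H ≤ G)
    (hW : W.Nonempty) (hsupp : H.support ⊆ W)
    (hcase : ∑ᶠ v ∈ W, |((H.neighborSet v).ncard : ℝ) - 3| ≤ 1 / 10 ^ 21 * (W.ncard : ℝ)) :
    ∃ (u : V) (C : G.Walk u u), C.IsCycle ∧
      (1 / 10 ^ 20 : ℝ) * (C.length : ℝ) ≤ ((chords G C).ncard : ℝ) := by
  classical
  cases nonempty_fintype V
  refine near_of_subD (Δ := 3) le_rfl (ε' := 1 / 10 ^ 20) (ε := 1 / (2 * 10 ^ 20)) (by norm_num)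
    (by norm_num) (by norm_num) subD_three G H W hle hW hsupp ?_
  set N : V → ℕ := fun v => (H.neighborSet v).ncard with hN
  have hsum : ∑ᶠ v ∈ W, |((H.neighborSet v).ncard : ℝ) - 3| =
      ∑ v ∈ W.toFinset, |(N v : ℝ) - 3| := by
    rw [finsum_mem_eq_finite_toFinset_sum _ (Set.toFinite W)]
    apply Finset.sum_congr
    · refine Finset.ext fun v => ?_
      rw [Set.Finite.mem_toFinset, Set.mem_toFinset]
    · intro v _; rfl
  rw [hsum] at hcase
  set L : Set V := {v | v ∈ W ∧ N v < 3} with hL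
  set D : Set (V × V) := {d | H.Adj d.1 d.2 ∧ 3 < N d.1} with hD
  -- each vertex contributes
  have hDsum : (D.ncard : ℝ) = ∑ v ∈ W.toFinset, (if 3 < N v then (N v : ℝ) else 0) := by
    have h1 : D.ncard = ∑ v ∈ W.toFinset, (if 3 < N v then N v else 0) := by
      rw [Set.ncard_eq_toFinset_card', ← Finset.card_eq_of_equiv (s := (W.toFinset.filter
        fun v => 3 < N v).sigma fun v => (H.neighborSet v).toFinset)]
      · rw [Finset.card_sigma, Finset.sum_filter]
        refine Finset.sum_congr rfl fun v _ => ?_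
        split_ifs
        · rw [← Set.ncard_eq_toFinset_card']
        · rfl
      · refine
          { toFun := fun p => ⟨(p.1.1, p.1.2), ?_⟩
            invFun := fun d => ⟨⟨d.1.1, d.1.2⟩, ?_⟩
            left_inv := fun p => rfl
            right_inv := fun d => rfl }
        · have h2 := p.2
          simp only [Finset.mem_sigma, Finset.mem_filter, Set.mem_toFinset] at h2
          simp only [Set.mem_toFinset]
          exact ⟨h2.2, h2.1.2⟩
        · have h2 := d.2
          simp only [Set.mem_toFinset] at h2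
          simp only [Finset.mem_sigma, Finset.mem_filter, Set.mem_toFinset]
          exact ⟨⟨hsupp ⟨_, h2.1⟩, h2.2⟩, h2.1⟩
    rw [h1]
    push_cast
    rfl
  have hLsum : (L.ncard : ℝ) = ∑ v ∈ W.toFinset, (if N v < 3 then (1 : ℝ) else 0) := by
    have h1 : L.ncard = (W.toFinset.filter fun v => N v < 3).card := by
      rw [← Set.ncard_coe_finset]
      congr 1
      ext v
      simp [hL]
    rw [h1, Finset.card_filter]
    push_cast
    rfl
  show (L.ncard : ℝ) + (D.ncard : ℝ) ≤ _
  rw [hLsum, hDsum, ← Finset.sum_add_distrib]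
  have hle' : ∑ v ∈ W.toFinset, ((if N v < 3 then (1 : ℝ) else 0) +
      (if 3 < N v then (N v : ℝ) else 0)) ≤ 4 * ∑ v ∈ W.toFinset, |(N v : ℝ) - 3| := by
    rw [Finset.mul_sum]
    apply Finset.sum_le_sum
    intro v _
    by_cases h1 : N v < 3
    · have h2 : ¬ 3 < N v := by omega
      rw [if_pos h1, if_neg h2]
      have h3 : (N v : ℝ) + 1 ≤ 3 := by exact_mod_cast h1
      have := neg_abs_le ((N v : ℝ) - 3)
      linarith
    · by_cases h2 : 3 < N v
      · rw [if_neg h1, if_pos h2]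
        have h3 : (3 : ℝ) + 1 ≤ N v := by exact_mod_cast h2
        have := le_abs_self ((N v : ℝ) - 3)
        linarith
      · rw [if_neg h1, if_neg h2]
        have := abs_nonneg ((N v : ℝ) - 3)
        linarith
  have hW0 : (0 : ℝ) ≤ W.ncard := Nat.cast_nonneg _
  calc _ ≤ 4 * ∑ v ∈ W.toFinset, |(N v : ℝ) - 3| := hle'
    _ ≤ 4 * (1 / 10 ^ 21 * (W.ncard : ℝ)) := by linarith
    _ ≤ 1 / (2 * 10 ^ 20) * (W.ncard : ℝ) := by nlinarith

end Pool.Agent.H40.CM
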