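import Pool.Agent.H40.CM.Fin

/-!
# CM / D4: the final statement for bounded degree
-/

namespace Pool.Agent.H40.CM

open SimpleGraph Pool.Agent.H40.CK

universe u

theorem near_delta (Δ : ℕ) (hΔ : 3 ≤ Δ) : ∃ ε c : ℝ, 0 < ε ∧ 0 < c ∧
    ∀ (V : Type u) [Finite V] (G H : SimpleGraph V) (W : Set V), H ≤ G → W.Nonempty →
      H.support ⊆ W →
      (({v | v ∈ W ∧ (H.neighborSet v).ncard < 3} : Set V).ncard : ℝ) +
        ∑ᶠ v ∈ {v | Δ < (H.neighborSet v).ncard}, ((H.neighborSet v).ncard : ℝ) ≤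
          ε * (W.ncard : ℝ) →
      ∃ (u : V) (C : G.Walk u u), C.IsCycle ∧ c * (C.length : ℝ) ≤ ((chords G C).ncard : ℝ) := by
  obtain ⟨ε', c, hε', hc, hsub⟩ := subD_exists.{u} Δ
  refine ⟨min 1 (ε' / 2), c, lt_min one_pos (by positivity), hc, ?_⟩
  intro V _ G H W hle hW hsupp hcase
  classical
  cases nonempty_fintype V
  refine near_of_subD hΔ (ε' := ε') (ε := min 1 (ε' / 2)) (lt_min one_pos (by positivity))
    (min_le_left _ _) (by have := min_le_right 1 (ε' / 2); linarith) hsub G H W hle hW hsupp ?_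
  refine le_trans (add_le_add_right ?_ _) hcase
  set N : V → ℕ := fun v => (H.neighborSet v).ncard with hN
  have hfin : ∑ᶠ v ∈ {v | Δ < (H.neighborSet v).ncard}, ((H.neighborSet v).ncard : ℝ) =
      ∑ v ∈ ({v | Δ < N v} : Set V).toFinset, (N v : ℝ) := by
    rw [finsum_mem_eq_finite_toFinset_sum _ (Set.toFinite _)]
    apply Finset.sum_congr
    · refine Finset.ext fun v => ?_
      rw [Set.Finite.mem_toFinset, Set.mem_toFinset]
    · intro v _; rfl
  rw [hfin]
  have h1 : ({d | H.Adj d.1 d.2 ∧ Δ < (H.neighborSet d.1).ncard} : Set (V × V)).ncard =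
      ∑ v ∈ ({v | Δ < N v} : Set V).toFinset, N v := by
    rw [Set.ncard_eq_toFinset_card', ← Finset.card_eq_of_equiv
      (s := (({v | Δ < N v} : Set V).toFinset).sigma fun v => (H.neighborSet v).toFinset)]
    · rw [Finset.card_sigma]
      refine Finset.sum_congr rfl fun v _ => ?_
      rw [← Set.ncard_eq_toFinset_card']
    · refine
        { toFun := fun p => ⟨(p.1.1, p.1.2), ?_⟩
          invFun := fun d => ⟨⟨d.1.1, d.1.2⟩, ?_⟩
          left_inv := fun p => rfl
          right_inv := fun d => rfl }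
      · have h2 := p.2
        simp only [Finset.mem_sigma, Set.mem_toFinset] at h2
        simp only [Set.mem_toFinset]
        exact ⟨h2.2, h2.1⟩
      · have h2 := d.2
        simp only [Set.mem_toFinset] at h2
        simp only [Finset.mem_sigma, Set.mem_toFinset]
        exact ⟨h2.2, h2.1⟩
  rw [h1]
  push_cast
  exact le_rfl

end Pool.Agent.H40.CM
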