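import Pool.Agent.H40.CM.E1

/-!
# CM / E2: every short cycle has a thin corner

Suppose no corner of `C` is thin.  Let `v ∈ C.support`, `x ≠ y` the two neighbours of `v` along `C`;
`Tr G s v x y` (by `C` itself).  Not thin: by symmetry (exchange `x` and `y`) there is `z ≠ y` with
`Tr G s v x z`, so `z ≠ x`, and a cycle `Z` of length `≤ s` uses the edges `v x` and `v z`; `s(v, z)` is
not an edge of `C` (the edges of `C` at `v` are `v x` and `v y`).
`Z` minus `v` is a path `r` from `z` to `x` avoiding `v`, of length `Z.length - 2` (rotate `Z` to start at `v`;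
compare `B2a_cycle_edge` in CK/B2a.lean, whose proof gives in addition that `s(v, t)` is an edge of `Z`; as `Z` has
exactly two edges at `v`, `t = x`).  As `x ∈ C.support`, there is a first vertex `w` of `r` on `C` (`B2a_firstHit`
with `S = {w | w ∈ C.support}`; `w ≠ v` because `v ∉ r.support`), and `P = cons (v → z) (...)` is a path
from `v` to `w` of length `≤ Z.length - 1 < s`, meeting `C` only in `v` and `w`; no edge of `P` is an edge of
`C`: the first one is `v z`; another edge of `P` with both ends on `C` would have both ends equal to `w`.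
So `shortChorded_of_ears` (with `ℓ = s`, `p` arbitrary, e.g. `p = u`; not needed) gives
`ShortChorded G (3 * s)`, a contradiction.
-/

namespace Pool.Agent.H40.CM

open SimpleGraph Pool.Agent.H40.CK

variable {V : Type*}

/-- The two edges of a cycle at one of its vertices and the path between their other ends. -/
theorem E2_corner {G : SimpleGraph V} {w v : V} (Z : G.Walk w w) (hZ : Z.IsCycle)
    (hv : v ∈ Z.support) :
    ∃ (a b : V) (r : G.Walk a b), a ≠ b ∧ s(v, a) ∈ Z.edges ∧ s(v, b) ∈ Z.edges ∧ r.IsPath ∧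
      v ∉ r.support ∧ r.length + 2 = Z.length ∧ ∀ t, s(v, t) ∈ Z.edges → t = a ∨ t = b := by
  classical
  have hZ' : (Z.rotate v hv).IsCycle := hZ.rotate hv
  have hlen : (Z.rotate v hv).length = Z.length := by
    rw [← Walk.length_edges, ← Walk.length_edges]
    exact (Z.rotate_edges v hv).perm.length_eq
  have he : ∀ e, e ∈ Z.edges ↔ e ∈ (Z.rotate v hv).edges := fun e =>
    (Z.rotate_edges v hv).mem_iff.symm
  simp only [he]
  rw [← hlen]
  clear hlen he
  generalize Z.rotate v hv = Z' at hZ'
  cases Z' with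
  | nil => exact absurd hZ' Walk.not_isCycle_nil
  | @cons _ a _ h q =>
    rw [Walk.cons_isCycle_iff] at hZ'
    obtain ⟨hq, hqe⟩ := hZ'
    have hqr : q.reverse.IsPath := hq.reverse
    have hmem : ∀ e, e ∈ q.edges ↔ e ∈ q.reverse.edges := by simp
    have hmem' : ∀ e, e ∈ (Walk.cons h q).edges ↔ e = s(v, a) ∨ e ∈ q.reverse.edges := by
      intro e
      rw [Walk.edges_cons, List.mem_cons, hmem]
    rw [hmem] at hqe
    have hl : (Walk.cons h q).length = q.reverse.length + 1 := by simp
    simp only [hmem']
    rw [hl]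
    clear hl hmem hmem' hq
    generalize q.reverse = q' at hqr hqe
    cases q' with
    | nil => exact absurd rfl h.ne
    | @cons _ b _ h2 r2 =>
      rw [Walk.cons_isPath_iff] at hqr
      rw [Walk.edges_cons, List.mem_cons] at hqe
      push Not at hqe
      have hab : a ≠ b := by
        rintro rfl
        exact hqe.1 rfl
      refine ⟨a, b, r2.reverse, hab, Or.inl rfl, Or.inr (by simp), hqr.1.reverse,
        by simpa using hqr.2, by simp, ?_⟩
      intro t ht
      rw [Walk.edges_cons, List.mem_cons] at ht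
      rcases ht with ht | ht | ht
      · left
        rcases Sym2.eq_iff.1 ht with ⟨_, h4⟩ | ⟨h3, _⟩
        · exact h4
        · exact absurd h3 h.ne
      · right
        rcases Sym2.eq_iff.1 ht with ⟨_, h4⟩ | ⟨h3, _⟩
        · exact h4
        · exact absurd h3 h2.ne
      · exact absurd (r2.fst_mem_support_of_mem_edges ht) hqr.2

/-- The ear starting with an edge `v z` which is used by a short cycle together with an edge `v x` of
`C`. -/
theorem E2_ear {G : SimpleGraph V} {s : ℕ} {u : V} (C : G.Walk u u) {v x z : V}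
    (hx : s(v, x) ∈ C.edges) (hz : s(v, z) ∉ C.edges) (hT : Tr G s v x z) :
    ∃ y ∈ C.support, y ≠ v ∧ ∃ P : G.Walk v y, P.IsPath ∧
      P.length < s ∧ (∀ w ∈ P.support, w ∈ C.support → w = v ∨ w = y) ∧
      (∀ e ∈ P.edges, e ∉ C.edges) := by
  obtain ⟨hxz, w0, Z, hZ, hZl, hZx, hZz⟩ := hT
  obtain ⟨a, b, r, hab, ha, hb, hr, hvr, hrl, hat⟩ :=
    E2_corner Z hZ (Z.fst_mem_support_of_mem_edges hZx)
  have hvz : G.Adj v z := Z.adj_of_mem_edges hZz
  -- a path from `z` to `x`
  obtain ⟨r', hr', hvr', hrl'⟩ : ∃ r' : G.Walk z x, r'.IsPath ∧ v ∉ r'.support ∧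
      r'.length + 2 = Z.length := by
    rcases hat x hZx with h1 | h1
    · rcases hat z hZz with h2 | h2
      · exact absurd (h1.trans h2.symm) hxz
      · subst h1
        subst h2
        exact ⟨r.reverse, hr.reverse, by simpa using hvr, by simpa using hrl⟩
    · rcases hat z hZz with h2 | h2
      · subst h1
        subst h2
        exact ⟨r, hr, hvr, hrl⟩
      · exact absurd (h1.trans h2.symm) hxz
  have hxC : x ∈ C.support := C.snd_mem_support_of_mem_edges hx
  obtain ⟨w1, hw1, P, hP, hPl, hPS, hPq⟩ :=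
    B2a_firstHit {w | w ∈ C.support} r' hr' ⟨x, r'.end_mem_support, hxC⟩
  have hvP : v ∉ P.support := fun h => hvr' (hPq _ h)
  refine ⟨w1, hw1, ?_, Walk.cons hvz P, ?_, ?_, ?_, ?_⟩
  · rintro rfl
    exact hvP P.end_mem_support
  · rw [Walk.cons_isPath_iff]
    exact ⟨hP, hvP⟩
  · rw [Walk.length_cons]
    omega
  · intro w hw hwC
    rw [Walk.support_cons, List.mem_cons] at hw
    rcases hw with hw | hw
    · exact Or.inl hw
    · exact Or.inr (hPS w hw hwC)
  · intro e he
    rw [Walk.edges_cons, List.mem_cons] at he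
    rcases he with rfl | he
    · exact hz
    · induction e with
      | _ p q =>
        intro heC
        have e1 := hPS _ (P.fst_mem_support_of_mem_edges he) (C.fst_mem_support_of_mem_edges heC)
        have e2 := hPS _ (P.snd_mem_support_of_mem_edges he) (C.snd_mem_support_of_mem_edges heC)
        exact (P.adj_of_mem_edges he).ne (e1.trans e2.symm)

theorem exists_thin [Finite V] {G : SimpleGraph V} {s : ℕ} (hno : ¬ ShortChorded G (3 * s))
    {u : V} (C : G.Walk u u) (hC : C.IsCycle) (hlen : C.length ≤ s) :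
    ∃ v x y, s(v, x) ∈ C.edges ∧ s(v, y) ∈ C.edges ∧ Thin G s v x y := by
  by_contra hcon
  push Not at hcon
  apply hno
  refine shortChorded_of_ears C hC hlen u ?_
  intro v hv _
  obtain ⟨x, y, r, hxy, hx, hy, -, -, -, hat⟩ := E2_corner C hC hv
  have hTr : Tr G s v x y := ⟨hxy, u, C, hC, hlen, hx, hy⟩
  have hnt := hcon v x y hx hy
  unfold Thin at hnt
  push Not at hnt
  by_cases h1 : ∀ z, Tr G s v x z → z = y
  · obtain ⟨z, hz, hzx⟩ := hnt hTr h1
    refine E2_ear C hy ?_ hz
    intro h2
    rcases hat z h2 with h3 | h3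
    · exact hzx h3
    · exact hz.1 h3.symm
  · push Not at h1
    obtain ⟨z, hz, hzy⟩ := h1
    refine E2_ear C hx ?_ hz
    intro h2
    rcases hat z h2 with h3 | h3
    · exact hz.1 h3.symm
    · exact hzy h3

end Pool.Agent.H40.CM
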