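import Mathlib

/-!
# CM / E3: balanced assignment

Let `d z = #{y | p y = z ∨ q y = z}`, `cap z = (d z + 1) / 2` (rounded down, i.e. `⌈d z / 2⌉`),
slots `(z, i)`, `i : Fin (cap z)`.  Hall's theorem (`Finset.all_card_le_biUnion_card_iff_exists_injective`)
for `t y` = the slots over `p y` and `q y`: for `A ⊆ Y` let `N = p(A) ∪ q(A)`; the number of slots over `N` is
`∑_{z ∈ N} cap z ≥ ∑_{z ∈ N} d z / 2 ≥ #{(y, z) | y ∈ A, z ∈ N, z ∈ {p y, q y}} / 2 = 2 #A / 2 = #A`
(`p y ≠ q y`).  The injective choice gives `f`, and `#{y | f y = z} ≤ cap z`.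
-/

namespace Pool.Agent.H40.CM

/-- The slots over a set of vertices. -/
private theorem e3_card_slots {V : Type*} [Fintype V] [DecidableEq V] (cap : V → ℕ)
    (N : Finset V) :
    (Finset.univ.filter fun s : (Σ z : V, Fin (cap z)) => s.1 ∈ N).card = ∑ z ∈ N, cap z := by
  have h : (Finset.univ.filter fun s : (Σ z : V, Fin (cap z)) => s.1 ∈ N) =
      N.sigma fun z => (Finset.univ : Finset (Fin (cap z))) := by
    ext ⟨z, i⟩
    simp
  rw [h, Finset.card_sigma]
  simp

theorem assign {Y V : Type*} [Finite Y] [Finite V] (p q : Y → V) (hpq : ∀ y, p y ≠ q y) :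
    ∃ f : Y → V, (∀ y, f y = p y ∨ f y = q y) ∧
      ∀ z, 2 * ({y | f y = z} : Set Y).ncard ≤ ({y | p y = z ∨ q y = z} : Set Y).ncard + 1 := by
  classical
  cases nonempty_fintype Y
  cases nonempty_fintype V
  obtain ⟨d, hd⟩ : ∃ d : V → ℕ, ∀ z, d z = (Finset.univ.filter fun y => p y = z ∨ q y = z).card :=
    ⟨_, fun _ => rfl⟩
  obtain ⟨cap, hcap⟩ : ∃ cap : V → ℕ, ∀ z, cap z = (d z + 1) / 2 := ⟨_, fun _ => rfl⟩
  have hall : ∀ A : Finset Y, A.card ≤ (A.biUnion fun y =>
      (Finset.univ.filter fun s : (Σ z : V, Fin (cap z)) => s.1 = p y ∨ s.1 = q y)).card := by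
    intro A
    obtain ⟨N, hN⟩ : ∃ N : Finset V, N = A.image p ∪ A.image q := ⟨_, rfl⟩
    have h1 : (A.biUnion fun y =>
        (Finset.univ.filter fun s : (Σ z : V, Fin (cap z)) => s.1 = p y ∨ s.1 = q y)) =
        Finset.univ.filter fun s : (Σ z : V, Fin (cap z)) => s.1 ∈ N := by
      ext s
      simp only [Finset.mem_biUnion, Finset.mem_filter, Finset.mem_univ, true_and, hN,
        Finset.mem_union, Finset.mem_image]
      constructor
      · rintro ⟨y, hy, h | h⟩
        · exact Or.inl ⟨y, hy, h.symm⟩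
        · exact Or.inr ⟨y, hy, h.symm⟩
      · rintro (⟨y, hy, h⟩ | ⟨y, hy, h⟩)
        · exact ⟨y, hy, Or.inl h.symm⟩
        · exact ⟨y, hy, Or.inr h.symm⟩
    rw [h1, e3_card_slots]
    have h2 : ∑ z ∈ N, (A.filter fun y => p y = z ∨ q y = z).card = 2 * A.card := by
      have h3 := Finset.sum_card_bipartiteAbove_eq_sum_card_bipartiteBelow
        (s := N) (t := A) (fun z y => p y = z ∨ q y = z)
      simp only [Finset.bipartiteAbove, Finset.bipartiteBelow] at h3
      rw [h3]
      have h4 : ∀ y ∈ A, (N.filter fun z => p y = z ∨ q y = z).card = 2 := by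
        intro y hy
        have h5 : (N.filter fun z => p y = z ∨ q y = z) = {p y, q y} := by
          ext z
          simp only [Finset.mem_filter, hN, Finset.mem_union, Finset.mem_image,
            Finset.mem_insert, Finset.mem_singleton]
          constructor
          · rintro ⟨-, h | h⟩
            · exact Or.inl h.symm
            · exact Or.inr h.symm
          · rintro (h | h)
            · exact ⟨Or.inl ⟨y, hy, h.symm⟩, Or.inl h.symm⟩
            · exact ⟨Or.inr ⟨y, hy, h.symm⟩, Or.inr h.symm⟩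
        rw [h5, Finset.card_pair (hpq y)]
      rw [Finset.sum_congr rfl h4, Finset.sum_const, smul_eq_mul, mul_comm]
    have h6 : ∑ z ∈ N, (A.filter fun y => p y = z ∨ q y = z).card ≤ ∑ z ∈ N, 2 * cap z := by
      refine Finset.sum_le_sum fun z _ => ?_
      have h7 : (A.filter fun y => p y = z ∨ q y = z).card ≤ d z := by
        rw [hd]
        exact Finset.card_le_card (Finset.filter_subset_filter _ (Finset.subset_univ _))
      have h8 := hcap z
      omega
    rw [h2, ← Finset.mul_sum] at h6
    omega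
  obtain ⟨g, hg, hgm⟩ := (Finset.all_card_le_biUnion_card_iff_exists_injective _).mp hall
  refine ⟨fun y => (g y).1, fun y => ?_, fun z => ?_⟩
  · simpa using hgm y
  · have h1 : ({y | (g y).1 = z} : Set Y).ncard ≤ cap z := by
      have h2 : ({y | (g y).1 = z} : Set Y) =
          ((Finset.univ.filter fun y => (g y).1 = z : Finset Y) : Set Y) := by
        ext y
        simp
      rw [h2, Set.ncard_coe_finset]
      have h3 := e3_card_slots cap {z}
      rw [Finset.sum_singleton] at h3
      rw [← h3]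
      refine Finset.card_le_card_of_injOn g (fun y hy => ?_) hg.injOn
      simpa using hy
    have h4 : ({y | p y = z ∨ q y = z} : Set Y).ncard = d z := by
      rw [hd, ← Set.ncard_coe_finset]
      congr 1
      ext y
      simp
    have h5 := hcap z
    change 2 * ({y | (g y).1 = z} : Set Y).ncard ≤ _
    rw [h4]
    omega

end Pool.Agent.H40.CM
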