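import Pool.Agent.H40.CM.Defs

/-!
# CM / MT: a large matching

Take an inclusion-maximal matching `M ≤ B`.  Every edge of `B` has an end in `M.support` (otherwise add it), and
`#M.support = 2 #M.edgeSet` (or `≤`), each vertex lies in at most `Δ` edges of `B`.
-/

namespace Pool.Agent.H40.CM

open SimpleGraph Pool.Agent.H40.CK

variable {V : Type*}

theorem exists_matching [Finite V] {B : SimpleGraph V} {Δ : ℕ}
    (hΔ : ∀ v, (B.neighborSet v).ncard ≤ Δ) :
    ∃ M : SimpleGraph V, M ≤ B ∧ IsMatch M ∧ B.edgeSet.ncard ≤ 2 * Δ * M.edgeSet.ncard := by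
  classical
  have := Fintype.ofFinite V
  have hfin : Finite (SimpleGraph V) := inferInstance
  obtain ⟨M, hM⟩ := Set.Finite.exists_maximal (s := {M : SimpleGraph V | M ≤ B ∧ IsMatch M})
    (Set.toFinite _) ⟨⊥, bot_le, fun x y z h => absurd h (by simp)⟩
  obtain ⟨⟨hMB, hMm⟩, hmax⟩ := hM
  refine ⟨M, hMB, hMm, ?_⟩
  -- every edge of `B` has an end in `M.support`
  have hend : ∀ x y, B.Adj x y → x ∈ M.support ∨ y ∈ M.support := by
    intro x y hxy
    by_contra hcon
    push Not at hcon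
    have h1 : M ⊔ fromEdgeSet {s(x, y)} ∈ {M : SimpleGraph V | M ≤ B ∧ IsMatch M} := by
      refine ⟨sup_le hMB ?_, ?_⟩
      · intro a b hab
        rw [fromEdgeSet_adj, Set.mem_singleton_iff, Sym2.eq_iff] at hab
        rcases hab.1 with ⟨rfl, rfl⟩ | ⟨rfl, rfl⟩
        · exact hxy
        · exact hxy.symm
      · intro a b c hb hc
        rw [sup_adj, fromEdgeSet_adj, Set.mem_singleton_iff, Sym2.eq_iff] at hb hc
        rcases hb with hb | ⟨⟨rfl, rfl⟩ | ⟨rfl, rfl⟩, -⟩ <;>
          rcases hc with hc | ⟨⟨h1, h2⟩ | ⟨h1, h2⟩, -⟩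
        · exact hMm a b c hb hc
        · exact absurd ⟨b, by rw [← h1]; exact hb⟩ hcon.1
        · exact absurd ⟨b, by rw [← h1]; exact hb⟩ hcon.2
        · exact absurd ⟨c, hc⟩ hcon.1
        · exact h2.symm
        · exact h1.symm.trans h2.symm
        · exact absurd ⟨c, hc⟩ hcon.2
        · exact h1.symm.trans h2.symm
        · exact h2.symm
    have h2 := hmax h1 le_sup_left
    have h3 : M.Adj x y := h2 (by
      rw [sup_adj, fromEdgeSet_adj]
      exact Or.inr ⟨rfl, hxy.ne⟩)
    exact hcon.1 ⟨y, h3⟩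
  -- `#M.support ≤ 2 #M.edgeSet`
  have hsupp : M.support.ncard ≤ 2 * M.edgeSet.ncard := by
    have h1 : M.support ⊆ ⋃ e ∈ M.edgeSet.toFinset, {z | z ∈ e} := by
      rintro x ⟨y, hxy⟩
      simp only [Set.mem_iUnion, Set.mem_toFinset]
      exact ⟨s(x, y), hxy, by simp⟩
    refine (Set.ncard_le_ncard h1 (Set.toFinite _)).trans ?_
    refine (Finset.set_ncard_biUnion_le _ _).trans ?_
    have h2 : ∀ e ∈ M.edgeSet.toFinset, ({z | z ∈ e} : Set V).ncard ≤ 2 := by
      intro e _
      induction e with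
      | h x y =>
        have : ({z | z ∈ s(x, y)} : Set V) = {x, y} := by ext z; simp
        rw [this]
        refine (Set.ncard_insert_le _ _).trans ?_
        rw [Set.ncard_singleton]
    refine (Finset.sum_le_card_nsmul _ _ _ h2).trans ?_
    rw [smul_eq_mul, ← Set.ncard_eq_toFinset_card', mul_comm]
  have hB : B.edgeSet.ncard ≤ Δ * M.support.ncard := by
    have h1 : B.edgeSet ⊆ ⋃ x ∈ M.support.toFinset, (fun y => s(x, y)) '' B.neighborSet x := by
      intro e he
      induction e with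
      | h x y =>
        simp only [Set.mem_iUnion, Set.mem_toFinset]
        rcases hend x y he with h | h
        · exact ⟨x, h, y, he, rfl⟩
        · exact ⟨y, h, x, he.symm, Sym2.eq_swap⟩
    refine (Set.ncard_le_ncard h1 (Set.toFinite _)).trans ?_
    refine (Finset.set_ncard_biUnion_le _ _).trans ?_
    have h2 : ∀ x ∈ M.support.toFinset, ((fun y => s(x, y)) '' B.neighborSet x).ncard ≤ Δ :=
      fun x _ => (Set.ncard_image_le (Set.toFinite _)).trans (hΔ x)
    refine (Finset.sum_le_card_nsmul _ _ _ h2).trans ?_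
    rw [smul_eq_mul, ← Set.ncard_eq_toFinset_card', mul_comm]
  calc B.edgeSet.ncard ≤ Δ * M.support.ncard := hB
    _ ≤ Δ * (2 * M.edgeSet.ncard) := Nat.mul_le_mul_left _ hsupp
    _ = 2 * Δ * M.edgeSet.ncard := by ring

end Pool.Agent.H40.CM
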