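import Pool.Agent.H40.CM.O1

/-!
# CM / O2: covering an even graph by disjoint unions of cycles (Petersen)

`petersen_one` (`1 ≤ k`, all degrees `≤ 2 k`): let `O` be a balanced orientation; the outdegree
and the indegree of `v` are `deg v / 2 ≤ k`.  Let `t v = {w | O v w} ∪ (if deg v < 2 k then {v} else ∅)`.  Hall's
condition holds by double counting with weights, and the bijection given by Hall's theorem gives `F`.
`petersen`: induction on `k`.
-/

namespace Pool.Agent.H40.CM

open SimpleGraph

variable {V : Type*}

theorem petersen_one [Finite V] (k : ℕ) (hk : 1 ≤ k) (Z : SimpleGraph V)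
    (heven : ∀ v, Even (Z.neighborSet v).ncard) (hdeg : ∀ v, (Z.neighborSet v).ncard ≤ 2 * k) :
    ∃ F : SimpleGraph V, F ≤ Z ∧ F.IsCycles ∧
      ∀ v, (Z.neighborSet v).ncard = 2 * k → v ∈ F.support := by
  classical
  have := Fintype.ofFinite V
  obtain ⟨O, h1, h2, h3⟩ := exists_orientation Z heven
  have hirr : ∀ v, ¬ O v v := fun v h => h2 v v h h
  have hd : ∀ v, (Z.neighborSet v).ncard = 2 * ({w | O v w} : Set V).ncard := by
    intro v
    have e : Z.neighborSet v = {w | O v w} ∪ {w | O w v} := by
      ext w
      rw [mem_neighborSet, h1]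
      rfl
    have d : Disjoint ({w | O v w} : Set V) {w | O w v} := by
      rw [Set.disjoint_left]
      intro w hw hw'
      exact h2 _ _ hw hw'
    rw [e, Set.ncard_union_eq d (Set.toFinite _) (Set.toFinite _), ← h3 v]
    ring
  have hout : ∀ v, ({w | O v w} : Set V).ncard = (Finset.univ.filter fun w => O v w).card := by
    intro v
    rw [← Set.ncard_coe_finset]
    congr 1
    ext w
    simp
  have hin : ∀ v, ({w | O v w} : Set V).ncard = (Finset.univ.filter fun w => O w v).card := by
    intro v
    rw [h3 v, ← Set.ncard_coe_finset]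
    congr 1
    ext w
    simp
  have hle : ∀ v, ({w | O v w} : Set V).ncard ≤ k := by
    intro v
    have := hdeg v
    rw [hd v] at this
    omega
  set W : V → V → ℕ := fun v w => if v = w then k - ({w | O v w} : Set V).ncard
    else if O v w then 1 else 0 with hW
  set t : V → Finset V := fun v => (Finset.univ.filter fun w => O v w) ∪
    (if (Z.neighborSet v).ncard < 2 * k then {v} else ∅) with ht
  have hrow : ∀ v, ∑ w, W v w = k := by
    intro v
    have e1 : ∀ w, W v w = (if v = w then k - ({w | O v w} : Set V).ncard else 0) +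
        (if O v w then 1 else 0) := by
      intro w
      simp only [hW]
      by_cases h : v = w
      · subst h
        simp [hirr v]
      · simp [h]
    simp only [e1, Finset.sum_add_distrib]
    rw [Finset.sum_ite_eq, if_pos (Finset.mem_univ _), ← Finset.card_filter, ← hout v]
    have := hle v
    omega
  have hcol : ∀ w, ∑ v, W v w = k := by
    intro w
    have e1 : ∀ v, W v w = (if w = v then k - ({x | O w x} : Set V).ncard else 0) +
        (if O v w then 1 else 0) := by
      intro v
      simp only [hW]
      by_cases h : v = w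
      · subst h
        simp [hirr v]
      · have h' : ¬ w = v := fun h' => h h'.symm
        simp [h, h']
    simp only [e1, Finset.sum_add_distrib]
    rw [Finset.sum_ite_eq, if_pos (Finset.mem_univ _), ← Finset.card_filter, ← hin w]
    have := hle w
    omega
  have hWt : ∀ v w, w ∉ t v → W v w = 0 := by
    intro v w hw
    simp only [ht, Finset.mem_union, Finset.mem_filter, Finset.mem_univ, true_and, not_or] at hw
    simp only [hW]
    by_cases h : v = w
    · subst h
      rw [if_pos rfl]
      have h5 : ¬ (Z.neighborSet v).ncard < 2 * k := by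
        intro h6
        rw [if_pos h6] at hw
        exact hw.2 (Finset.mem_singleton_self _)
      rw [hd v] at h5
      omega
    · rw [if_neg h, if_neg hw.1]
  have hall : ∀ A : Finset V, A.card ≤ (A.biUnion t).card := by
    intro A
    have e1 : k * A.card = ∑ v ∈ A, ∑ w ∈ A.biUnion t, W v w := by
      have : ∀ v ∈ A, ∑ w ∈ A.biUnion t, W v w = k := by
        intro v hv
        rw [← hrow v]
        apply Finset.sum_subset (Finset.subset_univ _)
        intro w _ hw
        apply hWt
        intro hw'
        exact hw (Finset.mem_biUnion.2 ⟨v, hv, hw'⟩)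
      rw [Finset.sum_congr rfl this, Finset.sum_const, smul_eq_mul, mul_comm]
    have e2 : ∑ v ∈ A, ∑ w ∈ A.biUnion t, W v w ≤ k * (A.biUnion t).card := by
      rw [Finset.sum_comm]
      calc ∑ w ∈ A.biUnion t, ∑ v ∈ A, W v w ≤ ∑ w ∈ A.biUnion t, ∑ v, W v w := by
            apply Finset.sum_le_sum
            intro w _
            exact Finset.sum_le_sum_of_subset (Finset.subset_univ _)
        _ = k * (A.biUnion t).card := by
            rw [Finset.sum_congr rfl fun w _ => hcol w, Finset.sum_const, smul_eq_mul, mul_comm]
    have e3 : k * A.card ≤ k * (A.biUnion t).card := e1 ▸ e2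
    exact Nat.le_of_mul_le_mul_left e3 hk
  obtain ⟨f, hf, hft⟩ := (Finset.all_card_le_biUnion_card_iff_exists_injective t).1 hall
  have hsurj : Function.Surjective f := Finite.surjective_of_injective hf
  have hOf : ∀ v, f v ≠ v → O v (f v) := by
    intro v hv
    have := hft v
    simp only [ht, Finset.mem_union, Finset.mem_filter, Finset.mem_univ, true_and] at this
    rcases this with h | h
    · exact h
    · split_ifs at h with hlt
      · exact absurd (Finset.mem_singleton.1 h) hv
      · simp at h
  have hadj : ∀ x y, (SimpleGraph.fromRel fun v w => w = f v).Adj x y ↔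
      x ≠ y ∧ (y = f x ∨ x = f y) := fun x y => SimpleGraph.fromRel_adj _ _ _
  refine ⟨SimpleGraph.fromRel fun v w => w = f v, ?_, ?_, ?_⟩
  · intro x y hxy
    rw [hadj] at hxy
    obtain ⟨hne, h | h⟩ := hxy
    · rw [h1]
      left
      rw [h]
      exact hOf x (by rw [← h]; exact hne.symm)
    · rw [h1]
      right
      rw [h]
      exact hOf y (by rw [← h]; exact hne)
  · intro v hv
    obtain ⟨y, hy⟩ := hv
    rw [mem_neighborSet, hadj] at hy
    have hfv : f v ≠ v := by
      intro h
      obtain ⟨hne, h' | h'⟩ := hy
      · exact hne (h.symm.trans h'.symm)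
      · exact hne (hf (h.trans h'))
    obtain ⟨y0, hy0⟩ := hsurj v
    have hy0v : y0 ≠ v := by
      rintro rfl
      exact hfv hy0
    have hO1 : O v (f v) := hOf v hfv
    have hO2 : O y0 v := by
      have := hOf y0 (by rw [hy0]; exact hy0v.symm)
      rwa [hy0] at this
    have hne : f v ≠ y0 := by
      intro h
      rw [h] at hO1
      exact h2 _ _ hO1 hO2
    rw [Set.ncard_eq_two]
    refine ⟨f v, y0, hne, ?_⟩
    ext w
    simp only [mem_neighborSet, hadj, Set.mem_insert_iff, Set.mem_singleton_iff]
    constructor
    · rintro ⟨_, h | h⟩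
      · exact Or.inl h
      · exact Or.inr (hf (h.symm.trans hy0.symm))
    · rintro (rfl | rfl)
      · exact ⟨hfv.symm, Or.inl rfl⟩
      · exact ⟨hy0v.symm, Or.inr hy0.symm⟩
  · intro v hv
    have hfv : f v ≠ v := by
      intro h
      have := hft v
      simp only [ht, Finset.mem_union, Finset.mem_filter, Finset.mem_univ, true_and, h] at this
      rcases this with h' | h'
      · exact hirr v h'
      · rw [if_neg (by omega)] at h'
        simp at h'
    rw [mem_support]
    exact ⟨f v, (hadj _ _).2 ⟨hfv.symm, Or.inl rfl⟩⟩

theorem petersen [Finite V] (k : ℕ) (Z : SimpleGraph V)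
    (heven : ∀ v, Even (Z.neighborSet v).ncard) (hdeg : ∀ v, (Z.neighborSet v).ncard ≤ 2 * k) :
    ∃ F : Fin k → SimpleGraph V, (∀ i, F i ≤ Z) ∧ (∀ i, (F i).IsCycles) ∧
      ∀ v ∈ Z.support, ∃ i, v ∈ (F i).support := by
  classical
  induction k generalizing Z with
  | zero =>
    refine ⟨Fin.elim0, fun i => i.elim0, fun i => i.elim0, ?_⟩
    intro v hv
    rw [mem_support] at hv
    obtain ⟨w, hw⟩ := hv
    have h1 : 0 < (Z.neighborSet v).ncard := (Set.ncard_pos (Set.toFinite _)).2 ⟨w, hw⟩
    have := hdeg v
    omega
  | succ k ih =>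
    obtain ⟨F0, hF0, hcyc, hsup⟩ := petersen_one (k + 1) (by omega) Z heven hdeg
    have hsplit : ∀ v, (Z.neighborSet v).ncard =
        ((Z \ F0).neighborSet v).ncard + (F0.neighborSet v).ncard := by
      intro v
      have e : Z.neighborSet v = (Z \ F0).neighborSet v ∪ F0.neighborSet v := by
        ext w
        simp only [mem_neighborSet, sdiff_adj, Set.mem_union]
        constructor
        · intro h
          by_cases hw : F0.Adj v w
          · exact Or.inr hw
          · exact Or.inl ⟨h, hw⟩
        · rintro (h | h)
          · exact h.1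
          · exact hF0 h
      have d : Disjoint ((Z \ F0).neighborSet v) (F0.neighborSet v) := by
        rw [Set.disjoint_left]
        intro w hw hw'
        simp only [mem_neighborSet, sdiff_adj] at hw hw'
        exact hw.2 hw'
      rw [e, Set.ncard_union_eq d (Set.toFinite _) (Set.toFinite _)]
    have hF2 : ∀ v, (F0.neighborSet v).ncard = 0 ∨ (F0.neighborSet v).ncard = 2 := by
      intro v
      by_cases h : (F0.neighborSet v).Nonempty
      · exact Or.inr (hcyc h)
      · left
        rw [Set.not_nonempty_iff_eq_empty.1 h]
        simp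
    have hev' : ∀ v, Even ((Z \ F0).neighborSet v).ncard := by
      intro v
      have h1 := heven v
      rw [hsplit v, Nat.even_add] at h1
      apply h1.2
      rcases hF2 v with h | h <;> rw [h] <;> decide
    have hdeg' : ∀ v, ((Z \ F0).neighborSet v).ncard ≤ 2 * k := by
      intro v
      have h1 := hsplit v
      have h2 := hdeg v
      obtain ⟨m, hm⟩ := heven v
      by_cases h : (Z.neighborSet v).ncard = 2 * (k + 1)
      · have hv := hsup v h
        rw [mem_support] at hv
        obtain ⟨w, hw⟩ := hv
        have h3 : (F0.neighborSet v).ncard = 2 := hcyc ⟨w, hw⟩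
        omega
      · omega
    obtain ⟨F', hF', hcyc', hsup'⟩ := ih (Z \ F0) hev' hdeg'
    refine ⟨Fin.cons F0 F', ?_, ?_, ?_⟩
    · intro i
      refine Fin.cases ?_ (fun j => ?_) i
      · simpa using hF0
      · simpa using (hF' j).trans sdiff_le
    · intro i
      refine Fin.cases ?_ (fun j => ?_) i
      · simpa using hcyc
      · simpa using hcyc' j
    · intro v hv
      rw [mem_support] at hv
      obtain ⟨w, hw⟩ := hv
      by_cases h : F0.Adj v w
      · exact ⟨0, by rw [Fin.cons_zero, mem_support]; exact ⟨w, h⟩⟩
      · obtain ⟨j, hj⟩ := hsup' v (by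
          rw [mem_support]
          exact ⟨w, by rw [sdiff_adj]; exact ⟨hw, h⟩⟩)
        exact ⟨j.succ, by rw [Fin.cons_succ]; exact hj⟩

end Pool.Agent.H40.CM
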