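import Pool.Agent.H40.CM.Defs
import Pool.Agent.H40.CK.B7

/-!
# CM / P1: a maximal part of `M` creating no short cycle

`V` is finite: take `M' ≤ M` inclusion-maximal such that `P ⊔ M'` has no cycle of length `≤ s` (`M' = ⊥` is possible, by
`hP`).  Let `M.Adj x y`, `¬ M'.Adj x y`.  `P ⊔ (M' ⊔ fromEdgeSet {s(x, y)})` has a cycle `C` of length `≤ s`, which
uses the edge `s(x, y)`; removing it from `C` leaves a path of `P ⊔ M'` from `x` to `y` of length `< s`.
(`cycle_to_path` in CK/B7.lean: a cycle `C` with `s(u, v) ∈ C.edges` gives a path from `u` to `v` of length `C.length - 1` not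
using `s(u, v)`, with all edges in `C.edges`.  Import it if useful.)
-/

namespace Pool.Agent.H40.CM

open SimpleGraph Pool.Agent.H40.CK

variable {V : Type*}

theorem exists_maximal_part [Finite V] (P M : SimpleGraph V) (s : ℕ)
    (hP : ∀ (u : V) (C : P.Walk u u), C.IsCycle → s < C.length) :
    ∃ M' : SimpleGraph V, M' ≤ M ∧
      (∀ (u : V) (C : (P ⊔ M').Walk u u), C.IsCycle → s < C.length) ∧
      ∀ x y, M.Adj x y → ¬ M'.Adj x y → ∃ Q : (P ⊔ M').Walk x y, Q.IsPath ∧ Q.length < s := by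
  classical
  have hfin : Finite (SimpleGraph V) := inferInstance
  let S : Set (SimpleGraph V) := {M' | M' ≤ M ∧ ∀ (u : V) (C : (P ⊔ M').Walk u u), C.IsCycle → s < C.length}
  have hne : S.Nonempty := by
    refine ⟨⊥, bot_le, ?_⟩
    rw [sup_bot_eq]
    exact hP
  obtain ⟨M', hM'⟩ := (Set.toFinite S).exists_maximal hne
  obtain ⟨⟨hle, hcyc⟩, hmax⟩ := hM'
  refine ⟨M', hle, hcyc, ?_⟩
  intro x y hxy hnxy
  have hle2 : M' ⊔ fromEdgeSet {s(x, y)} ≤ M := by
    apply sup_le hle
    intro a b hab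
    rw [fromEdgeSet_adj, Set.mem_singleton_iff] at hab
    rw [← mem_edgeSet, hab.1]
    exact hxy
  have hnot : ¬ (M' ⊔ fromEdgeSet {s(x, y)}) ∈ S := by
    intro h
    have h1 := hmax h le_sup_left
    apply hnxy
    apply h1
    rw [sup_adj]
    right
    rw [fromEdgeSet_adj]
    exact ⟨rfl, hxy.ne⟩
  have hex : ∃ (u : V) (C : (P ⊔ (M' ⊔ fromEdgeSet {s(x, y)})).Walk u u), C.IsCycle ∧ C.length ≤ s := by
    by_contra hcon
    push Not at hcon
    exact hnot ⟨hle2, hcon⟩
  obtain ⟨u, C, hC, hCs⟩ := hex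
  have hedge : ∀ e ∈ (P ⊔ (M' ⊔ fromEdgeSet {s(x, y)})).edgeSet, e ≠ s(x, y) → e ∈ (P ⊔ M').edgeSet := by
    intro e
    induction e using Sym2.ind with
    | _ a b =>
      intro he hne
      rw [mem_edgeSet, sup_adj, sup_adj, fromEdgeSet_adj, Set.mem_singleton_iff] at he
      rw [mem_edgeSet, sup_adj]
      rcases he with h | h | h
      · exact Or.inl h
      · exact Or.inr h
      · exact absurd h.1 hne
  by_cases hmem : s(x, y) ∈ C.edges
  · obtain ⟨R, hR, hRl, hRn, hRC⟩ := B7.cycle_to_path C hC hmem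
    have hR' : ∀ e ∈ R.edges, e ∈ (P ⊔ M').edgeSet := by
      intro e he
      apply hedge e (R.edges_subset_edgeSet he)
      rintro rfl
      exact hRn he
    refine ⟨R.transfer _ hR', hR.transfer hR', ?_⟩
    rw [Walk.length_transfer]
    omega
  · exfalso
    have hC' : ∀ e ∈ C.edges, e ∈ (P ⊔ M').edgeSet := by
      intro e he
      apply hedge e (C.edges_subset_edgeSet he)
      rintro rfl
      exact hmem he
    have h1 := hcyc u (C.transfer _ hC') (hC.transfer hC')
    rw [Walk.length_transfer] at h1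
    omega

end Pool.Agent.H40.CM
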