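import Pool.Agent.H40.CK.B4
import Pool.Agent.H40.CK.B6
import Pool.Agent.H40.CM.Defs

/-!
# CM / P2: components of `cyc (P ⊔ M)` with at most two bridge-darts

`J = P ⊔ M`.  Let `κ` be a nontrivial component of `cyc J` with `bdeg J κ ≤ 2`.  Claim: `κ` contains a vertex of `P`-degree one,
or it contains the whole `P`-component of some vertex of `κ` (at least `L` vertices).  Suppose not.
All vertices of `κ` are in `J.support ⊆ P.support` (`hsupp`), so they have `P`-degree two.
For a component `Q` of `P` meeting `κ` let `a(Q)` be the number of `P`-darts `(v, w)`, `v ∈ κ ∩ Q`, `w ∉ κ`.  Such a dart is a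
bridge-dart of `κ` (`cyc J`-neighbours of `v ∈ κ` are in `κ`), so `∑_Q a(Q) ≤ 2`.
 * `a(Q) ≥ 1`: `Q` is connected and not contained in `κ`.
 * `a(Q)` is even: `2 #(κ ∩ Q) = ∑_{v ∈ κ ∩ Q} deg_P v = a(Q) +` the number of `P`-darts inside `κ ∩ Q`, which is even.
So `a(Q) = 2` and `Q` is the only `P`-component meeting `κ`, i.e. `κ ⊆ Q`.  `κ` contains a cycle `C` of `J` (`cyc_cycle`);
an `M`-edge joins different components of `P` (`hdiff`), so all edges of `C` are `P`-edges.  As `P`-degrees are `≤ 2`,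
`C.support` is closed under `P`-adjacency, so it is the whole component `Q`: `Q ⊆ κ`, a contradiction.
Count: the small components containing a vertex of `P`-degree one are at most `#{v | deg_P v = 1}` many; the others
have at least `L` vertices each (`csz P v ≥ L` for `v ∈ P.support`) and are disjoint.
-/

namespace Pool.Agent.H40.CM

open SimpleGraph Pool.Agent.H40.CK

variable {V : Type*}

/-- The darts leaving a finite set of vertices of degree two are even in number. -/
theorem P2.even_leaving [Finite V] (P : SimpleGraph V) (S : Set V)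
    (hS : ∀ v ∈ S, (P.neighborSet v).ncard = 2) :
    Even ({d : V × V | d.1 ∈ S ∧ P.Adj d.1 d.2 ∧ d.2 ∉ S} : Set (V × V)).ncard := by
  classical
  have := Fintype.ofFinite V
  have h1 := (B6.ind P S).sum_degrees_eq_twice_card_edges
  have hset : ({d : V × V | d.1 ∈ S ∧ P.Adj d.1 d.2 ∧ d.2 ∉ S} : Set (V × V)).ncard =
      ∑ v ∈ Finset.univ.filter (fun v => v ∈ S),
        (Finset.univ.filter (fun w => P.Adj v w ∧ w ∉ S)).card := by
    rw [← Finset.card_sigma, Set.ncard_eq_toFinset_card']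
    refine Finset.card_bij' (fun d _ => ⟨d.1, d.2⟩) (fun d _ => (d.1, d.2)) ?_ ?_ ?_ ?_
    · rintro ⟨a, b⟩ h
      simp only [Set.mem_toFinset, Set.mem_ofPred_eq] at h
      simp [h.1, h.2.1, h.2.2]
    · rintro ⟨a, b⟩ h
      simp only [Finset.mem_sigma, Finset.mem_filter, Finset.mem_univ, true_and] at h
      simp [h.1, h.2.1, h.2.2]
    · intro d _; rfl
    · intro d _; rfl
  have h2 : ∀ v ∈ Finset.univ.filter (fun v => v ∈ S),
      (B6.ind P S).degree v + (Finset.univ.filter (fun w => P.Adj v w ∧ w ∉ S)).card = 2 := by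
    intro v hv
    simp only [Finset.mem_filter, Finset.mem_univ, true_and] at hv
    rw [← hS v hv, Set.ncard_eq_toFinset_card', ← card_neighborFinset_eq_degree]
    rw [← Finset.card_union_of_disjoint]
    · congr 1
      ext w
      simp only [Finset.mem_union, mem_neighborFinset, B6.ind, Finset.mem_filter,
        Finset.mem_univ, true_and, Set.mem_toFinset, mem_neighborSet]
      by_cases hw : w ∈ S <;> simp [hw, hv]
    · rw [Finset.disjoint_left]
      intro w hw hw'
      simp only [mem_neighborFinset, B6.ind] at hw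
      simp only [Finset.mem_filter] at hw'
      exact hw'.2.2 hw.2.2
  have h3 : ∑ v ∈ Finset.univ.filter (fun v => v ∈ S), (B6.ind P S).degree v =
      ∑ v, (B6.ind P S).degree v := by
    apply Finset.sum_subset (Finset.subset_univ _)
    intro v _ hv
    simp only [Finset.mem_filter, Finset.mem_univ, true_and] at hv
    rw [← card_neighborFinset_eq_degree, Finset.card_eq_zero]
    ext w
    simp [B6.ind, hv]
  have h4 := Finset.sum_congr rfl h2
  rw [Finset.sum_add_distrib, h3, h1, ← hset, Finset.sum_const, smul_eq_mul] at h4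
  rw [Nat.even_iff]
  omega

/-- The key step. -/
theorem P2.exists_comp [Finite V] (P M : SimpleGraph V)
    (hdeg : ∀ v, (P.neighborSet v).ncard ≤ 2)
    (hdiff : ∀ x y, M.Adj x y → ¬ P.Reachable x y) (hsupp : M.support ⊆ P.support)
    (κ : (cyc (P ⊔ M)).ConnectedComponent) (hnt : κ.supp.Nontrivial)
    (hb : bdeg (P ⊔ M) κ ≤ 2) (hone : ∀ v ∈ κ.supp, (P.neighborSet v).ncard ≠ 1) :
    ∃ v ∈ κ.supp, v ∈ P.support ∧ ∀ w, P.Reachable v w → w ∈ κ.supp := by
  classical
  have hPs : ∀ v ∈ κ.supp, v ∈ P.support := by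
    intro v hv
    obtain ⟨w, hw⟩ := B6.mem_support hnt hv
    have hJ : (P ⊔ M).Adj v w := cyc_le _ hw
    rcases hJ with h | h
    · exact ⟨w, h⟩
    · exact hsupp ⟨w, h⟩
  have hd2 : ∀ v ∈ κ.supp, (P.neighborSet v).ncard = 2 := by
    intro v hv
    have h1 := hdeg v
    have h2 := hone v hv
    obtain ⟨w, hw⟩ := hPs v hv
    have h3 : 0 < (P.neighborSet v).ncard := by
      rw [Set.ncard_pos (Set.toFinite _)]
      exact ⟨w, hw⟩
    omega
  by_contra hcon
  push Not at hcon
  have hex : ∀ v ∈ κ.supp, ∃ w, P.Reachable v w ∧ w ∉ κ.supp := fun v hv => hcon v hv (hPs v hv)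
  -- the bridge darts
  set BD : Set (V × V) := {d : V × V | d.1 ∈ κ.supp ∧ (P ⊔ M).Adj d.1 d.2 ∧
    ¬ (cyc (P ⊔ M)).Adj d.1 d.2} with hBD
  have hBDle : BD.ncard ≤ 2 := hb
  -- leaving darts
  let LD : V → Set (V × V) := fun v => {d : V × V | d.1 ∈ κ.supp ∩ {w | P.Reachable v w} ∧
    P.Adj d.1 d.2 ∧ d.2 ∉ κ.supp ∩ {w | P.Reachable v w}}
  have hLDsub : ∀ v, LD v ⊆ BD := by
    rintro v ⟨a, b⟩ ⟨⟨ha1, ha2⟩, hab, hb'⟩
    refine ⟨ha1, Or.inl hab, ?_⟩
    intro hc
    exact hb' ⟨B6.mem_of_adj ha1 hc, (show P.Reachable v a from ha2).trans hab.reachable⟩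
  have hLDeven : ∀ v, Even (LD v).ncard := by
    intro v
    exact P2.even_leaving P (κ.supp ∩ {w | P.Reachable v w}) (fun x hx => hd2 x hx.1)
  have hLDpos : ∀ v ∈ κ.supp, 0 < (LD v).ncard := by
    intro v hv
    obtain ⟨w, hw, hwn⟩ := hex v hv
    rw [Set.ncard_pos (Set.toFinite _)]
    obtain ⟨p⟩ := hw
    obtain ⟨d, hd, hd1, hd2⟩ := p.exists_boundary_dart (κ.supp ∩ {w | P.Reachable v w})
      ⟨hv, Reachable.refl v⟩ (fun h => hwn h.1)
    exact ⟨(d.fst, d.snd), hd1, d.adj, hd2⟩
  have hLDeq : ∀ v ∈ κ.supp, LD v = BD := by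
    intro v hv
    apply Set.eq_of_subset_of_ncard_le (hLDsub v) _ (Set.toFinite _)
    have h1 := hLDpos v hv
    have h2 := hLDeven v
    rw [Nat.even_iff] at h2
    omega
  have hreach : ∀ v ∈ κ.supp, ∀ v' ∈ κ.supp, P.Reachable v v' := by
    intro v hv v' hv'
    have h1 := hLDpos v hv
    rw [Set.ncard_pos (Set.toFinite _)] at h1
    obtain ⟨d, hd⟩ := h1
    have hd' : d ∈ LD v' := by
      rw [hLDeq v' hv', ← hLDeq v hv]
      exact hd
    have e1 : P.Reachable v d.1 := hd.1.2
    have e2 : P.Reachable v' d.1 := hd'.1.2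
    exact e1.trans e2.symm
  -- the cycle
  obtain ⟨u, hu⟩ := hnt.nonempty
  obtain ⟨w, hw⟩ := B6.mem_support hnt hu
  obtain ⟨C, hC, -⟩ := cyc_cycle hw
  have hCs : ∀ x ∈ C.support, x ∈ κ.supp := fun x hx =>
    B6.mem_of_reachable hu ⟨C.takeUntil x hx⟩
  have hCe : ∀ e ∈ C.edges, e ∈ P.edgeSet := by
    intro e he
    induction e with
    | h x y =>
      have hxy : (cyc (P ⊔ M)).Adj x y := C.adj_of_mem_edges he
      have hJ : (P ⊔ M).Adj x y := cyc_le _ hxy
      rcases hJ with h | h
      · exact h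
      · exact absurd (hreach x (hCs x (C.fst_mem_support_of_mem_edges he)) y
          (hCs y (C.snd_mem_support_of_mem_edges he))) (hdiff x y h)
  have hD := hC.transfer hCe
  set D := C.transfer P hCe with hDdef
  have hDs : D.support = C.support := by simp [hDdef]
  have hcl : ∀ x ∈ D.support, ∀ y, P.Adj x y → y ∈ D.support := by
    intro x hx y hxy
    have h2 := hD.ncard_neighborSet_toSubgraph_eq_two hx
    have h3 : D.toSubgraph.neighborSet x ⊆ P.neighborSet x := Subgraph.neighborSet_subset _ _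
    have h4 : D.toSubgraph.neighborSet x = P.neighborSet x := by
      apply Set.eq_of_subset_of_ncard_le h3 _ (Set.toFinite _)
      rw [h2]
      exact hdeg x
    have h5 : y ∈ D.toSubgraph.neighborSet x := by
      rw [h4]
      exact hxy
    have h6 : D.toSubgraph.Adj x y := h5
    have h7 := h6.snd_mem
    simpa using h7
  obtain ⟨w', hw', hwn⟩ := hex u hu
  obtain ⟨p⟩ := hw'
  have hall : ∀ (a b : V) (q : P.Walk a b), a ∈ D.support → b ∈ D.support := by
    intro a b q
    induction q with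
    | nil => exact id
    | cons h q ih => exact fun ha => ih (hcl _ ha _ h)
  have h8 := hall u w' p (Walk.start_mem_support D)
  rw [hDs] at h8
  exact hwn (hCs w' h8)

theorem smallK_bound [Finite V] (P M : SimpleGraph V) (L : ℕ)
    (hdeg : ∀ v, (P.neighborSet v).ncard ≤ 2) (hL : Long P L)
    (hdiff : ∀ x y, M.Adj x y → ¬ P.Reachable x y) (hsupp : M.support ⊆ P.support) :
    L * smallK (P ⊔ M) ≤
      Nat.card V + L * ({v | (P.neighborSet v).ncard = 1} : Set V).ncard := by
  classical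
  have := Fintype.ofFinite V
  have hfin : Finite (cyc (P ⊔ M)).ConnectedComponent := Quot.finite _
  have := Fintype.ofFinite (cyc (P ⊔ M)).ConnectedComponent
  set T : Set (cyc (P ⊔ M)).ConnectedComponent :=
    {κ | κ.supp.Nontrivial ∧ bdeg (P ⊔ M) κ ≤ 2} with hT
  set A : Set (cyc (P ⊔ M)).ConnectedComponent :=
    {κ | κ ∈ T ∧ ∃ v ∈ κ.supp, (P.neighborSet v).ncard = 1} with hA
  set B : Set (cyc (P ⊔ M)).ConnectedComponent :=
    {κ | κ ∈ T ∧ ∀ v ∈ κ.supp, (P.neighborSet v).ncard ≠ 1} with hB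
  have hTAB : T ⊆ A ∪ B := by
    intro κ hκ
    by_cases h : ∃ v ∈ κ.supp, (P.neighborSet v).ncard = 1
    · exact Or.inl ⟨hκ, h⟩
    · push Not at h
      exact Or.inr ⟨hκ, h⟩
  have hcard : T.ncard ≤ A.ncard + B.ncard :=
    (Set.ncard_le_ncard hTAB (Set.toFinite _)).trans (Set.ncard_union_le _ _)
  have hAle : A.ncard ≤ ({v | (P.neighborSet v).ncard = 1} : Set V).ncard := by
    have hsub : A ⊆ (fun v => (cyc (P ⊔ M)).connectedComponentMk v) ''
        {v | (P.neighborSet v).ncard = 1} := by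
      rintro κ ⟨-, v, hv, h1⟩
      exact ⟨v, h1, hv⟩
    exact (Set.ncard_le_ncard hsub (Set.toFinite _)).trans (Set.ncard_image_le (Set.toFinite _))
  have hBle : L * B.ncard ≤ Nat.card V := by
    rw [Set.ncard_eq_toFinset_card', Nat.card_eq_fintype_card, ← Finset.card_univ]
    refine le_trans (Finset.mul_card_image_le_card_of_maps_to
      (s := Finset.univ.filter (fun v => (cyc (P ⊔ M)).connectedComponentMk v ∈ B))
      (f := fun v => (cyc (P ⊔ M)).connectedComponentMk v) ?_ L ?_) (Finset.card_le_univ _)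
    · intro v hv
      simpa using hv
    · intro κ hκ
      have hκB : κ ∈ B := by simpa using hκ
      obtain ⟨⟨hnt, hb⟩, hone⟩ := hκB
      obtain ⟨v, hv, hvs, hvr⟩ := P2.exists_comp P M hdeg hdiff hsupp κ hnt hb hone
      have h1 : L ≤ csz P v := hL v hvs
      refine h1.trans ?_
      unfold csz
      rw [Set.ncard_eq_toFinset_card']
      apply Finset.card_le_card
      intro w hw
      have hw' : P.Reachable v w := by simpa using hw
      have hwκ : w ∈ κ.supp := hvr w hw'
      rw [ConnectedComponent.mem_supp_iff] at hwκ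
      simp only [Finset.mem_filter, Finset.mem_univ, true_and]
      rw [hwκ]
      exact ⟨⟨⟨hnt, hb⟩, hone⟩, rfl⟩
  have : smallK (P ⊔ M) = T.ncard := rfl
  rw [this]
  calc L * T.ncard ≤ L * (A.ncard + B.ncard) := Nat.mul_le_mul_left _ hcard
    _ = L * B.ncard + L * A.ncard := by ring
    _ ≤ _ := Nat.add_le_add hBle (Nat.mul_le_mul_left _ hAle)

end Pool.Agent.H40.CM
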