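import Pool.Agent.H40.CM.Defs

/-!
# CM / P3a: few ends of paths

Every component of `P` has at most two vertices of degree one: let `a`, `b`, `c` be three different ones in the same component;
take a path from `a` to `b` and a path from `a` to `c`.  All degrees are `≤ 2` and `a` has only one neighbour, so by induction the
two paths agree as long as both last; so `b` is on the path from `a` to `c` or conversely, as an interior vertex, which
has degree two: contradiction.
Each component containing a vertex of degree one has at least `L` vertices, the components are disjoint: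
`L * #{such components} ≤ n`, and `#{v | deg v = 1} ≤ 2 #{such components}`.
-/

namespace Pool.Agent.H40.CM

open SimpleGraph Pool.Agent.H40.CK

variable {V : Type*}

private theorem P3a_three [Finite V] {P : SimpleGraph V} (hdeg : ∀ v, (P.neighborSet v).ncard ≤ 2)
    {v a b c : V} (ha : P.Adj v a) (hb : P.Adj v b) (hc : P.Adj v c) (hab : a ≠ b) (hac : a ≠ c) :
    b = c := by
  classical
  by_contra hbc
  have h1 : ({a, b, c} : Set V) ⊆ P.neighborSet v := by
    intro z hz
    simp only [Set.mem_insert_iff, Set.mem_singleton_iff] at hz
    rcases hz with rfl | rfl | rfl <;> assumption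
  have h2 := Set.ncard_le_ncard h1 (Set.toFinite _)
  have h3 : ({a, b, c} : Set V).ncard = 3 := by
    rw [Set.ncard_eq_three]
    exact ⟨a, b, c, hab, hac, hbc, rfl⟩
  have := hdeg v
  omega

private theorem P3a_one [Finite V] {P : SimpleGraph V} {v a b : V}
    (hv : (P.neighborSet v).ncard = 1) (ha : P.Adj v a) (hb : P.Adj v b) : a = b := by
  rw [Set.ncard_eq_one] at hv
  obtain ⟨z, hz⟩ := hv
  have h1 : a ∈ ({z} : Set V) := by rw [← hz]; exact ha
  have h2 : b ∈ ({z} : Set V) := by rw [← hz]; exact hb
  rw [Set.mem_singleton_iff] at h1 h2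
  rw [h1, h2]

private theorem P3a_agree [Finite V] {P : SimpleGraph V} (hdeg : ∀ v, (P.neighborSet v).ncard ≤ 2)
    {a b c : V} (ha : (P.neighborSet a).ncard = 1) (p : P.Walk a b) (q : P.Walk a c)
    (hp : p.IsPath) (hq : q.IsPath) :
    ∀ i, i ≤ p.length → i ≤ q.length → p.getVert i = q.getVert i := by
  intro i
  induction i using Nat.strong_induction_on with
  | _ i ih =>
    intro h1 h2
    rcases i with _ | i
    · simp
    · have e0 := ih i (by omega) (by omega) (by omega)
      have a1 : P.Adj (p.getVert i) (p.getVert (i + 1)) := p.adj_getVert_succ (by omega)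
      have a2 : P.Adj (p.getVert i) (q.getVert (i + 1)) := by
        rw [e0]; exact q.adj_getVert_succ (by omega)
      rcases i with _ | i
      · rw [Walk.getVert_zero] at a1 a2
        exact P3a_one ha a1 a2
      · have e1 := ih i (by omega) (by omega) (by omega)
        have a3 : P.Adj (p.getVert (i + 1)) (p.getVert i) := (p.adj_getVert_succ (by omega)).symm
        refine P3a_three hdeg a3 a1 a2 ?_ ?_
        · intro h
          have := hp.getVert_injOn (by simp only [Set.mem_ofPred_eq]; omega)
            (by simp only [Set.mem_ofPred_eq]; omega) h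
          omega
        · intro h
          rw [e1] at h
          have := hq.getVert_injOn (by simp only [Set.mem_ofPred_eq]; omega)
            (by simp only [Set.mem_ofPred_eq]; omega) h
          omega

private theorem P3a_le [Finite V] {P : SimpleGraph V} (hdeg : ∀ v, (P.neighborSet v).ncard ≤ 2)
    {a b c : V} (ha : (P.neighborSet a).ncard = 1) (hb : (P.neighborSet b).ncard = 1)
    (hab : a ≠ b) (p : P.Walk a b) (q : P.Walk a c)
    (hp : p.IsPath) (hq : q.IsPath) : q.length ≤ p.length := by
  by_contra hcon
  push Not at hcon
  have e := P3a_agree hdeg ha p q hp hq p.length le_rfl hcon.le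
  rw [Walk.getVert_length] at e
  have hp0 : p.length ≠ 0 := fun h => hab (Walk.eq_of_length_eq_zero h)
  obtain ⟨k, hk⟩ := Nat.exists_eq_succ_of_ne_zero hp0
  rw [Nat.succ_eq_add_one] at hk
  have a1 : P.Adj b (q.getVert (p.length + 1)) := by
    have := q.adj_getVert_succ hcon
    rwa [← e] at this
  have a2 : P.Adj b (q.getVert k) := by
    have := q.adj_getVert_succ (show k < q.length by omega)
    rw [← hk, ← e] at this
    exact this.symm
  have h := P3a_one hb a1 a2
  have := hq.getVert_injOn (by simp only [Set.mem_ofPred_eq]; omega)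
            (by simp only [Set.mem_ofPred_eq]; omega) h
  omega

theorem ends_bound [Finite V] (P : SimpleGraph V) (L : ℕ)
    (hdeg : ∀ v, (P.neighborSet v).ncard ≤ 2) (hL : Long P L) :
    L * ({v | (P.neighborSet v).ncard = 1} : Set V).ncard ≤ 2 * Nat.card V := by
  classical
  letI := Fintype.ofFinite V
  set E : Finset V := Finset.univ.filter (fun v => (P.neighborSet v).ncard = 1) with hE
  have hEc : ({v | (P.neighborSet v).ncard = 1} : Set V).ncard = E.card := by
    rw [← Set.ncard_coe_finset, hE]
    congr 1
    ext v
    simp
  set f : V → P.ConnectedComponent := fun v => P.connectedComponentMk v with hf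
  have h1 : E.card ≤ 2 * (E.image f).card := by
    refine Finset.card_le_mul_card_image _ 2 ?_
    intro κ hκ
    by_contra hcon
    push Not at hcon
    rw [Finset.two_lt_card] at hcon
    obtain ⟨a, ha, b, hb, c, hc, hab, hac, hbc⟩ := hcon
    rw [Finset.mem_filter, hE, Finset.mem_filter] at ha hb hc
    have rab : P.Reachable a b := by rw [← ConnectedComponent.eq]; exact ha.2.trans hb.2.symm
    have rac : P.Reachable a c := by rw [← ConnectedComponent.eq]; exact ha.2.trans hc.2.symm
    obtain ⟨p, hp⟩ := rab.exists_isPath
    obtain ⟨q, hq⟩ := rac.exists_isPath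
    have l1 := P3a_le hdeg ha.1.2 hb.1.2 hab p q hp hq
    have l2 := P3a_le hdeg ha.1.2 hc.1.2 hac q p hq hp
    have l3 : p.length = q.length := le_antisymm l2 l1
    have e := P3a_agree hdeg ha.1.2 p q hp hq p.length le_rfl l3.le
    rw [Walk.getVert_length, l3, Walk.getVert_length] at e
    exact hbc e
  have h2 : L * (E.image f).card ≤ (Finset.univ : Finset V).card := by
    have h3 : L * (E.image f).card ≤ (Finset.univ.filter (fun v => f v ∈ E.image f)).card := by
      refine Finset.mul_card_image_le_card_of_maps_to (f := f)
        (fun v hv => (Finset.mem_filter.1 hv).2) L ?_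
      intro κ hκ
      obtain ⟨v, hv, hvκ⟩ := Finset.mem_image.1 hκ
      have hv1 : (P.neighborSet v).ncard = 1 := (Finset.mem_filter.1 hv).2
      have hv2 : v ∈ P.support := by
        rw [Set.ncard_eq_one] at hv1
        obtain ⟨z, hz⟩ := hv1
        have hz' : z ∈ P.neighborSet v := by rw [hz]; rfl
        exact ⟨z, hz'⟩
      refine (hL v hv2).trans ?_
      unfold csz
      rw [← Set.ncard_coe_finset]
      refine Set.ncard_le_ncard ?_ (Set.toFinite _)
      intro w hw
      have hw' : f w = κ := by
        rw [← hvκ, hf]
        exact ConnectedComponent.eq.2 (Reachable.symm hw)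
      rw [Finset.mem_coe, Finset.mem_filter, Finset.mem_filter]
      exact ⟨⟨Finset.mem_univ _, by rw [hw']; exact hκ⟩, hw'⟩
    exact h3.trans (Finset.card_le_card (Finset.filter_subset _ _))
  rw [hEc]
  rw [Finset.card_univ, ← Nat.card_eq_fintype_card] at h2
  calc L * E.card ≤ L * (2 * (E.image f).card) := Nat.mul_le_mul_left _ h1
    _ = 2 * (L * (E.image f).card) := by ring
    _ ≤ 2 * Nat.card V := Nat.mul_le_mul_left _ h2

end Pool.Agent.H40.CM
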