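import Pool.Agent.H40.CK.B8
import Pool.Agent.H40.CM.Defs

/-!
# CM / T1m: vertices of `T2 G` with a short path leaving `T2 G`

For `x ∈ X` let `x = x_0, x_1, ..., x_l` (`l ≤ m`) be the path, `x_l ∉ T2 G`; let `k ≥ 1` be the first index with
`x_k ∉ T2 G`.  `(x_k, x_{k-1}) ∈ ent G`, and `x` is obtained from the dart `(x_k, x_{k-1})` by
`k - 1 ≤ m - 1` steps `(a, b) ↦ (b, the neighbour of b other than a)` (all `x_i`, `i < k`, have degree two and
`x_{i+1} ≠ x_{i-1}`).  So `x ↦ (dart, k - 1)` is an injection of `X` into `ent G × {0, ..., m - 1}`.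
Compare `CK/B8.lean` and `CL/C8.lean` (`b8_other`, the functions there can be copied).
-/

namespace Pool.Agent.H40.CM

open SimpleGraph Pool.Agent.H40.CK

variable {V : Type*}

private theorem t1m_other_spec {G : SimpleGraph V} {a b : V} (hb : (G.neighborSet b).ncard = 2) :
    G.Adj b (b8_other G a b) ∧ b8_other G a b ≠ a := by
  have h : ∃ c, G.Adj b c ∧ c ≠ a := by
    obtain ⟨p, q, hpq, hs⟩ := Set.ncard_eq_two.1 hb
    have hp : G.Adj b p := by
      have : p ∈ G.neighborSet b := by rw [hs]; simp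
      exact this
    have hq : G.Adj b q := by
      have : q ∈ G.neighborSet b := by rw [hs]; simp
      exact this
    by_cases hpa : p = a
    · exact ⟨q, hq, fun hqa => hpq (hpa.trans hqa.symm)⟩
    · exact ⟨p, hp, hpa⟩
  unfold b8_other
  rw [dif_pos h]
  exact h.choose_spec

private theorem t1m_other_unique {G : SimpleGraph V} {a b c : V}
    (hb : (G.neighborSet b).ncard = 2) (hab : G.Adj b a) (hc : G.Adj b c) (hca : c ≠ a) :
    b8_other G a b = c := by
  obtain ⟨h1, h2⟩ := t1m_other_spec (a := a) hb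
  obtain ⟨p, q, hpq, hs⟩ := Set.ncard_eq_two.1 hb
  have k1 : a ∈ G.neighborSet b := hab
  have k2 : c ∈ G.neighborSet b := hc
  have k3 : b8_other G a b ∈ G.neighborSet b := h1
  rw [hs] at k1 k2 k3
  simp only [Set.mem_insert_iff, Set.mem_singleton_iff] at k1 k2 k3
  rcases k1 with k1 | k1 <;> rcases k2 with k2 | k2 <;> rcases k3 with k3 | k3
  · exact k3.trans k2.symm
  · exact absurd (k2.trans k1.symm) hca
  · exact absurd (k3.trans k1.symm) h2
  · exact k3.trans k2.symm
  · exact k3.trans k2.symm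
  · exact absurd (k3.trans k1.symm) h2
  · exact absurd (k2.trans k1.symm) hca
  · exact k3.trans k2.symm

private theorem t1m_exists {G : SimpleGraph V} {m : ℕ} {v y : V} (hv : v ∈ T2 G)
    (P : G.Walk v y) (hP : P.IsPath) (hPl : P.length ≤ m) (hy : y ∉ T2 G) :
    ∃ d ∈ ent G, ∃ j < m, ((fun p : V × V => (p.2, b8_other G p.1 p.2))^[j] d).2 = v := by
  classical
  set x : ℕ → V := P.getVert with hx
  have hx0 : x 0 = v := P.getVert_zero
  have hex : ∃ k, k ≤ P.length ∧ x k ∉ T2 G := ⟨P.length, le_rfl, by rw [hx, P.getVert_length]; exact hy⟩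
  obtain ⟨k, ⟨hkm, hk⟩, hmin⟩ : ∃ k, (k ≤ P.length ∧ x k ∉ T2 G) ∧ ∀ i < k, x i ∈ T2 G := by
    refine ⟨Nat.find hex, Nat.find_spec hex, fun i hi => ?_⟩
    by_contra hcon
    have h1 := Nat.find_spec hex
    exact Nat.find_min hex hi ⟨by omega, hcon⟩
  have hk0 : 0 < k := by
    rcases Nat.eq_zero_or_pos k with h | h
    · subst h
      exact absurd hv (by rw [← hx0]; exact hk)
    · exact h
  have hadj : ∀ i < P.length, G.Adj (x i) (x (i + 1)) := fun i hi => P.adj_getVert_succ hi
  have hinj : ∀ i ≤ P.length, ∀ j ≤ P.length, x i = x j → i = j := by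
    intro i hi j hj hij
    exact hP.getVert_injOn (by simpa using hi) (by simpa using hj) hij
  refine ⟨(x k, x (k - 1)), ⟨?_, hk, hmin _ (by omega)⟩, k - 1, by omega, ?_⟩
  · have := hadj (k - 1) (by omega)
    rw [show k - 1 + 1 = k by omega] at this
    exact this.symm
  · have hstep : ∀ j, j ≤ k - 1 →
        ((fun p : V × V => (p.2, b8_other G p.1 p.2))^[j] (x k, x (k - 1))) =
          (x (k - j), x (k - 1 - j)) := by
      intro j
      induction j with
      | zero => intro _; rfl
      | succ j ih =>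
        intro hj
        rw [Function.iterate_succ_apply', ih (by omega)]
        have e1 : k - (j + 1) = k - 1 - j := by omega
        rw [e1]
        refine Prod.ext rfl ?_
        show b8_other G (x (k - j)) (x (k - 1 - j)) = x (k - 1 - (j + 1))
        obtain ⟨i, hi⟩ : ∃ i, k - 1 - (j + 1) = i := ⟨_, rfl⟩
        have e2 : k - 1 - j = i + 1 := by omega
        have e3 : k - j = i + 2 := by omega
        rw [hi, e2, e3]
        refine t1m_other_unique (hmin (i + 1) (by omega)).2 (hadj (i + 1) (by omega))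
          (hadj i (by omega)).symm ?_
        intro h
        have := hinj i (by omega) (i + 2) (by omega) h
        omega
    rw [hstep (k - 1) le_rfl]
    show x (k - 1 - (k - 1)) = v
    rw [Nat.sub_self, hx0]

theorem T2X_bound [Finite V] {G : SimpleGraph V} {m : ℕ} (X : Set V) (hX : X ⊆ T2 G)
    (hpath : ∀ x ∈ X, ∃ (y : V) (P : G.Walk x y), P.IsPath ∧ P.length ≤ m ∧ y ∉ T2 G) :
    X.ncard ≤ m * (ent G).ncard := by
  classical
  let f : V × V → V × V := fun p => (p.2, b8_other G p.1 p.2)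
  have hsub : X ⊆ (fun q : ℕ × (V × V) => (f^[q.1] q.2).2) '' (Set.Iio m ×ˢ ent G) := by
    intro v hv
    obtain ⟨y, P, hP, hPl, hy⟩ := hpath v hv
    obtain ⟨d, hd, j, hj, h⟩ := t1m_exists (hX hv) P hP hPl hy
    exact ⟨(j, d), ⟨hj, hd⟩, h⟩
  have hfin : (Set.Iio m ×ˢ ent G).Finite := (Set.finite_Iio m).prod (Set.toFinite _)
  calc X.ncard ≤ ((fun q : ℕ × (V × V) => (f^[q.1] q.2).2) '' (Set.Iio m ×ˢ ent G)).ncard :=
        Set.ncard_le_ncard hsub (hfin.image _)
    _ ≤ (Set.Iio m ×ˢ ent G).ncard := Set.ncard_image_le hfin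
    _ = m * (ent G).ncard := by
        rw [Set.ncard_prod]
        congr 1
        rw [Set.ncard_eq_toFinset_card']
        simp

end Pool.Agent.H40.CM
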