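import Pool.Agent.H40.CK.B5
import Pool.Agent.H40.CK.B9
import Pool.Agent.H40.CM.Defs

/-!
# CM / T2m: counting bridge-darts

Let `H = cyc G`, `b κ = bdeg G κ`.  The components of `H` are the nontrivial ones and the singletons `{v}`,
`v ∉ H.support`, for which `b = deg_G v` (all edges at `v` are bridges).  Let `T0` = isolated vertices of `G`.
(0) `#bridges + #components(G) ≤ #components(H)` (this is what the private `b5_step` in CK/B5.lean proves with `B` = all
    bridges; `G.deleteEdges B = cyc G`; copy its proof) and `#components(G) ≥ #T0`.  With `sum_bdeg`: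
    `∑_κ b κ + 2 #T0 ≤ 2 #components(H)`, so `∑_{κ not in T0} (b κ - 2) ≤ 0` in `ℤ`.  I.e.
(1) `∑_{v ∈ T3} (deg v - 2) + ∑_{nontrivial, b ≥ 3} (b κ - 2) ≤ #T1 + ∑_{nontrivial, b ≤ 2} (2 - b κ)`,
    and the last sum is `≤ 2 smallK`.
* `#T3 ≤ #T1 + 2 smallK`.
* `#ntDarts = ∑_{nontrivial} b κ ≤ ∑_{nt, b ≤ 2} b + 3 ∑_{nt, b ≥ 3} (b - 2) ≤ 3 #T1 + ∑_{nt, b ≤ 2} (6 - 2 b)
  ≤ 3 #T1 + 6 smallK`.
* `ent G`: darts `(u, v)`, `u ∉ T2`, `v ∈ T2`: `u ∈ T1`, `u ∈ T3` or `u ∈ H.support` (then the dart is in `ntDarts`).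
  `#ent ≤ #T1 + ∑_{T3} deg + ∑_{nt} b ≤ #T1 + 3 (∑_{T3} (deg - 2) + ∑_{nt, b ≥ 3} (b - 2)) + ∑_{nt, b ≤ 2} b
  ≤ 4 #T1 + 6 smallK`.
Compare the proofs of `T_bound` in CK/B9.lean and CL/C9.lean.
-/

namespace Pool.Agent.H40.CM

open SimpleGraph Pool.Agent.H40.CK

variable {V : Type*}

private theorem t2m_step [Finite V] {G : SimpleGraph V} (B : Finset (Sym2 V))
    (hB : (B : Set (Sym2 V)) ⊆ G.edgeSet \ (cyc G).edgeSet) :
    B.card + Nat.card G.ConnectedComponent ≤ Nat.card (G.deleteEdges B).ConnectedComponent := by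
  classical
  induction B using Finset.induction_on with
  | empty => simp
  | insert e B he ih =>
    have hB' : (B : Set (Sym2 V)) ⊆ G.edgeSet \ (cyc G).edgeSet :=
      fun x hx => hB (by simp [Finset.mem_coe.1 hx])
    have ih' := ih hB'
    have heG : e ∈ G.edgeSet \ (cyc G).edgeSet := hB (by simp)
    rw [Finset.card_insert_of_notMem he]
    have hle : G.deleteEdges (↑(insert e B) : Set (Sym2 V)) ≤ G.deleteEdges (B : Set (Sym2 V)) := by
      apply deleteEdges_anti
      intro x hx
      simp [Finset.mem_coe.1 hx]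
    have hlt : Nat.card (G.deleteEdges (B : Set (Sym2 V))).ConnectedComponent <
        Nat.card (G.deleteEdges (↑(insert e B) : Set (Sym2 V))).ConnectedComponent := by
      have := Fintype.ofFinite (G.deleteEdges (B : Set (Sym2 V))).ConnectedComponent
      have := Fintype.ofFinite (G.deleteEdges (↑(insert e B) : Set (Sym2 V))).ConnectedComponent
      rw [Nat.card_eq_fintype_card, Nat.card_eq_fintype_card]
      refine Fintype.card_lt_of_surjective_not_injective
        (ConnectedComponent.map (Hom.ofLE hle)) ?_ ?_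
      · intro κ
        induction κ using ConnectedComponent.ind with
        | h v => exact ⟨(G.deleteEdges (↑(insert e B) : Set (Sym2 V))).connectedComponentMk v, rfl⟩
      · intro hinj
        induction e using Sym2.ind with
        | h u v =>
          have hadj : (G.deleteEdges (B : Set (Sym2 V))).Adj u v := by
            rw [deleteEdges_adj]
            exact ⟨heG.1, he⟩
          have h1 : (G.deleteEdges (↑(insert s(u, v) B) : Set (Sym2 V))).connectedComponentMk u =
              (G.deleteEdges (↑(insert s(u, v) B) : Set (Sym2 V))).connectedComponentMk v := by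
            apply hinj
            show (G.deleteEdges (B : Set (Sym2 V))).connectedComponentMk u =
              (G.deleteEdges (B : Set (Sym2 V))).connectedComponentMk v
            exact ConnectedComponent.eq.2 hadj.reachable
          have h2 := ConnectedComponent.eq.1 h1
          have h3 : G.deleteEdges (↑(insert s(u, v) B) : Set (Sym2 V)) ≤
              G \ fromEdgeSet {s(u, v)} := by
            intro a b hab
            rw [deleteEdges_adj] at hab
            rw [sdiff_adj, fromEdgeSet_adj]
            refine ⟨hab.1, fun h => hab.2 ?_⟩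
            rw [Finset.coe_insert]
            exact Or.inl h.1
          obtain ⟨w, C, hC, hCe⟩ := adj_and_reachable_delete_edges_iff_exists_cycle.1
            ⟨heG.1, h2.mono h3⟩
          exact heG.2 ⟨w, C, hC, hCe⟩
    omega

private theorem t2m_card_bridges [Finite V] (G : SimpleGraph V) :
    (G.edgeSet \ (cyc G).edgeSet).ncard + Nat.card G.ConnectedComponent ≤
      Nat.card (cyc G).ConnectedComponent := by
  classical
  have hfin : (G.edgeSet \ (cyc G).edgeSet).Finite := Set.toFinite _
  have h1 := t2m_step (G := G) hfin.toFinset (by simp)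
  have h2 : G.deleteEdges (hfin.toFinset : Set (Sym2 V)) = cyc G := by
    rw [Set.Finite.coe_toFinset]
    ext u v
    rw [deleteEdges_adj]
    constructor
    · rintro ⟨h1, h2⟩
      by_contra h3
      exact h2 ⟨h1, h3⟩
    · intro h
      exact ⟨cyc_le G h, fun h' => h'.2 h⟩
  rw [h2, ← Set.ncard_eq_toFinset_card _ hfin] at h1
  exact h1

theorem dart_counts [Finite V] (G : SimpleGraph V) :
    (T3 G).ncard ≤ (T1 G).ncard + 2 * smallK G ∧
    (ntDarts G).ncard ≤ 3 * (T1 G).ncard + 6 * smallK G ∧
    (ent G).ncard ≤ 4 * (T1 G).ncard + 6 * smallK G := by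
  classical
  have := Fintype.ofFinite V
  set H : SimpleGraph V := cyc G with hH
  have := Fintype.ofFinite H.ConnectedComponent
  have := Fintype.ofFinite G.ConnectedComponent
  set c : V → H.ConnectedComponent := H.connectedComponentMk with hc
  have hbr : (G.edgeSet \ H.edgeSet).ncard + Fintype.card G.ConnectedComponent ≤
      Fintype.card H.ConnectedComponent := by
    rw [← Nat.card_eq_fintype_card, ← Nat.card_eq_fintype_card]
    exact t2m_card_bridges G
  have hsum : ∑ κ : H.ConnectedComponent, bdeg G κ = 2 * (G.edgeSet \ H.edgeSet).ncard :=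
    sum_bdeg G
  set 𝒩 : Finset H.ConnectedComponent := Finset.univ.filter fun κ => κ.supp.Nontrivial with h𝒩
  set 𝒯 : Finset H.ConnectedComponent := Finset.univ.filter fun κ => ¬ κ.supp.Nontrivial with h𝒯
  set N2 : Finset H.ConnectedComponent := 𝒩.filter fun κ => bdeg G κ ≤ 2 with hN2
  set N3 : Finset H.ConnectedComponent := 𝒩.filter fun κ => ¬ bdeg G κ ≤ 2 with hN3
  set U : Finset V := Finset.univ.filter fun v => v ∉ H.support with hU
  set U2 : Finset V := U.filter fun v => (G.neighborSet v).ncard = 2 with hU2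
  set UR : Finset V := U.filter fun v => ¬ (G.neighborSet v).ncard = 2 with hUR
  set U1 : Finset V := UR.filter fun v => (G.neighborSet v).ncard = 1 with hU1
  set US : Finset V := UR.filter fun v => ¬ (G.neighborSet v).ncard = 1 with hUS
  set U3 : Finset V := US.filter fun v => 3 ≤ (G.neighborSet v).ncard with hU3
  set U0 : Finset V := US.filter fun v => ¬ 3 ≤ (G.neighborSet v).ncard with hU0
  have hUmem : ∀ v, v ∈ U ↔ v ∉ H.support := fun v => by simp [hU]
  -- the bridge darts
  set Bd : H.ConnectedComponent → Finset (V × V) := fun κ =>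
    Finset.univ.filter fun d => d.1 ∈ κ.supp ∧ G.Adj d.1 d.2 ∧ ¬ H.Adj d.1 d.2 with hBd
  have hBdc : ∀ κ, (Bd κ).card = bdeg G κ := by
    intro κ
    rw [← Set.ncard_coe_finset]
    unfold bdeg
    congr 1
    ext d
    simp only [hBd, Finset.coe_filter, Finset.mem_univ, true_and]
    rfl
  -- degree of trivial components
  have htriv : ∀ v ∈ U, bdeg G (c v) = (G.neighborSet v).ncard := by
    intro v hv
    have hv' := (hUmem v).1 hv
    have himg : {d : V × V | d.1 ∈ (c v).supp ∧ G.Adj d.1 d.2 ∧ ¬ (cyc G).Adj d.1 d.2} =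
        (fun w => (v, w)) '' G.neighborSet v := by
      ext d
      obtain ⟨x, y⟩ := d
      simp only [Set.mem_ofPred_eq, Set.mem_image, mem_neighborSet, Prod.mk.injEq]
      rw [hc, B9_supp_of_isolated hv', Set.mem_singleton_iff]
      constructor
      · rintro ⟨rfl, h1, _⟩
        exact ⟨y, h1, rfl, rfl⟩
      · rintro ⟨w, h1, rfl, rfl⟩
        exact ⟨rfl, h1, fun h => hv' ⟨_, h⟩⟩
    unfold bdeg
    rw [himg]
    exact Set.ncard_image_of_injective _ (fun a b h => (Prod.ext_iff.1 h).2)
  have hinj : Set.InjOn c (U : Set V) := by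
    intro v hv w hw hvw
    have h1 := B9_supp_of_isolated ((hUmem v).1 hv)
    have h2 : w ∈ (c v).supp := by rw [hvw]; simp [hc]
    rw [hc, h1] at h2
    exact (Set.mem_singleton_iff.1 h2).symm
  have h𝒯img : 𝒯 = U.image c := by
    ext κ
    simp only [h𝒯, Finset.mem_filter, Finset.mem_univ, true_and, Finset.mem_image]
    constructor
    · intro h
      obtain ⟨v, rfl⟩ := κ.exists_rep
      refine ⟨v, (hUmem v).2 fun hv => h (B9_nontrivial_of_mem hv), rfl⟩
    · rintro ⟨v, hv, rfl⟩
      rw [hc, B9_supp_of_isolated ((hUmem v).1 hv)]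
      exact Set.not_nontrivial_singleton
  have hsum𝒯 : ∑ κ ∈ 𝒯, bdeg G κ = 2 * U2.card + ∑ v ∈ UR, (G.neighborSet v).ncard := by
    rw [h𝒯img, Finset.sum_image hinj, Finset.sum_congr rfl htriv,
      ← Finset.sum_filter_add_sum_filter_not U (fun v => (G.neighborSet v).ncard = 2)]
    congr 1
    rw [Finset.sum_congr rfl (g := fun _ => 2) (fun v hv => (Finset.mem_filter.1 hv).2)]
    simp [mul_comm, hU2]
  set S3 : ℕ := ∑ v ∈ U3, (G.neighborSet v).ncard with hS3
  have hU0deg : ∀ v ∈ U0, (G.neighborSet v).ncard = 0 := by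
    intro v hv
    have h1 := Finset.mem_filter.1 hv
    have h2 := Finset.mem_filter.1 h1.1
    have h3 := Finset.mem_filter.1 h2.1
    have h4 := h1.2
    have h5 := h2.2
    have h6 := h3.2
    omega
  have hsumUR : ∑ v ∈ UR, (G.neighborSet v).ncard = U1.card + S3 := by
    rw [← Finset.sum_filter_add_sum_filter_not UR (fun v => (G.neighborSet v).ncard = 1)]
    congr 1
    · rw [← hU1, Finset.sum_congr rfl (g := fun _ => 1) (fun v hv => (Finset.mem_filter.1 hv).2),
        Finset.sum_const, smul_eq_mul, mul_one]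
    · rw [← hUS, ← Finset.sum_filter_add_sum_filter_not US (fun v => 3 ≤ (G.neighborSet v).ncard),
        ← hU3, ← hU0, Finset.sum_congr rfl hU0deg]
      simp [hS3]
  have hS3b : 3 * U3.card ≤ S3 := by
    have := Finset.card_nsmul_le_sum U3 (fun v => (G.neighborSet v).ncard) 3 (fun v hv =>
      (Finset.mem_filter.1 hv).2)
    simpa [mul_comm, hS3] using this
  have hcardU : U.card = U2.card + (U1.card + (U3.card + U0.card)) := by
    have h1 : U2.card + UR.card = U.card := Finset.card_filter_add_card_filter_not (s := U)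
      (fun v => (G.neighborSet v).ncard = 2)
    have h2 : U1.card + US.card = UR.card := Finset.card_filter_add_card_filter_not (s := UR)
      (fun v => (G.neighborSet v).ncard = 1)
    have h3 : U3.card + U0.card = US.card := Finset.card_filter_add_card_filter_not (s := US)
      (fun v => 3 ≤ (G.neighborSet v).ncard)
    omega
  -- the isolated vertices are components of `G`
  have hU0c : U0.card ≤ Fintype.card G.ConnectedComponent := by
    have hiso : ∀ v ∈ U0, v ∉ G.support := by
      intro v hv hvs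
      have h1 := hU0deg v hv
      rw [Set.ncard_eq_zero (Set.toFinite _)] at h1
      obtain ⟨w, hw⟩ := hvs
      have h2 : w ∈ G.neighborSet v := hw
      rw [h1] at h2
      exact h2
    have hinj0 : Set.InjOn G.connectedComponentMk (U0 : Set V) := by
      intro v hv w hw hvw
      have h1 := B9_supp_of_isolated (hiso v hv)
      have h2 : w ∈ (G.connectedComponentMk v).supp := by rw [hvw]; simp
      rw [h1] at h2
      exact (Set.mem_singleton_iff.1 h2).symm
    rw [← Finset.card_image_of_injOn hinj0, ← Finset.card_univ]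
    exact Finset.card_le_card (Finset.subset_univ _)
  have hcard𝒯 : 𝒯.card = U.card := by rw [h𝒯img, Finset.card_image_of_injOn hinj]
  have hcard𝒩 : 𝒩.card = N2.card + N3.card :=
    (Finset.card_filter_add_card_filter_not (s := 𝒩) fun κ => bdeg G κ ≤ 2).symm
  have hcard𝒦 : Fintype.card H.ConnectedComponent = 𝒩.card + 𝒯.card := by
    rw [← Finset.card_univ]
    exact (Finset.card_filter_add_card_filter_not (s := Finset.univ)
      fun κ : H.ConnectedComponent => κ.supp.Nontrivial).symm
  have hsplit : ∑ κ : H.ConnectedComponent, bdeg G κ =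
      (∑ κ ∈ 𝒩, bdeg G κ) + ∑ κ ∈ 𝒯, bdeg G κ :=
    (Finset.sum_filter_add_sum_filter_not Finset.univ
      (fun κ : H.ConnectedComponent => κ.supp.Nontrivial) _).symm
  have hsplit𝒩 : ∑ κ ∈ 𝒩, bdeg G κ = (∑ κ ∈ N2, bdeg G κ) + ∑ κ ∈ N3, bdeg G κ :=
    (Finset.sum_filter_add_sum_filter_not 𝒩 (fun κ => bdeg G κ ≤ 2) _).symm
  have hN3b : 3 * N3.card ≤ ∑ κ ∈ N3, bdeg G κ := by
    have := Finset.card_nsmul_le_sum N3 (fun κ => bdeg G κ) 3 (fun κ hκ => by
      have := (Finset.mem_filter.1 hκ).2
      omega)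
    simpa [mul_comm] using this
  -- the darts of the nontrivial components
  have hnt : (ntDarts G).ncard ≤ ∑ κ ∈ 𝒩, bdeg G κ := by
    have hsub : ntDarts G ⊆ ((𝒩.biUnion Bd : Finset (V × V)) : Set (V × V)) := by
      rintro ⟨x, y⟩ ⟨h1, h2, h3⟩
      simp only at h1 h2 h3
      rw [Finset.mem_coe, Finset.mem_biUnion]
      refine ⟨c x, ?_, ?_⟩
      · simp only [h𝒩, Finset.mem_filter, Finset.mem_univ, true_and]
        exact B9_nontrivial_of_mem h1
      · simp only [hBd, Finset.mem_filter, Finset.mem_univ, true_and]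
        exact ⟨by simp [hc], h2, h3⟩
    have h1 := Set.ncard_le_ncard hsub (Set.toFinite _)
    rw [Set.ncard_coe_finset] at h1
    refine h1.trans (Finset.card_biUnion_le.trans (le_of_eq ?_))
    exact Finset.sum_congr rfl fun κ _ => hBdc κ
  -- the entering darts
  have hent : (ent G).ncard ≤ (∑ κ ∈ 𝒩, bdeg G κ) + (U1.card + S3) := by
    have hsub : ent G ⊆ ((𝒩.biUnion Bd ∪ UR.biUnion fun v => Bd (c v) : Finset (V × V)) :
        Set (V × V)) := by
      rintro ⟨x, y⟩ ⟨h1, h2, h3⟩
      simp only at h1 h2 h3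
      have hnH : ¬ H.Adj x y := fun h => h3.1 ⟨x, h.symm⟩
      have hmemBd : (x, y) ∈ Bd (c x) := by
        simp only [hBd, Finset.mem_filter, Finset.mem_univ, true_and]
        exact ⟨by simp [hc], h1, hnH⟩
      rw [Finset.mem_coe, Finset.mem_union, Finset.mem_biUnion, Finset.mem_biUnion]
      by_cases hx : x ∈ H.support
      · exact Or.inl ⟨c x, by simp only [h𝒩, Finset.mem_filter, Finset.mem_univ, true_and]
                              exact B9_nontrivial_of_mem hx, hmemBd⟩
      · refine Or.inr ⟨x, ?_, hmemBd⟩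
        simp only [hUR, Finset.mem_filter]
        exact ⟨(hUmem x).2 hx, fun h => h2 ⟨hx, h⟩⟩
    have h1 := Set.ncard_le_ncard hsub (Set.toFinite _)
    rw [Set.ncard_coe_finset] at h1
    refine h1.trans ((Finset.card_union_le _ _).trans (Nat.add_le_add ?_ ?_))
    · refine Finset.card_biUnion_le.trans (le_of_eq ?_)
      exact Finset.sum_congr rfl fun κ _ => hBdc κ
    · refine Finset.card_biUnion_le.trans (le_of_eq ?_)
      rw [← hsumUR]
      refine Finset.sum_congr rfl fun v hv => ?_
      rw [hBdc, htriv v (Finset.mem_filter.1 hv).1]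
  have hT1c : (T1 G).ncard = U1.card := by
    rw [← Set.ncard_coe_finset]
    congr 1
    ext v
    simp only [T1, hU1, hUR, hU, Finset.coe_filter, Finset.mem_filter, Finset.mem_univ, true_and,
      Set.mem_ofPred_eq]
    constructor
    · rintro ⟨h1, h2⟩
      exact ⟨⟨h1, by omega⟩, h2⟩
    · rintro ⟨⟨h1, _⟩, h2⟩
      exact ⟨h1, h2⟩
  have hT3c : (T3 G).ncard = U3.card := by
    rw [← Set.ncard_coe_finset]
    congr 1
    ext v
    simp only [T3, hU3, hUS, hUR, hU, Finset.coe_filter, Finset.mem_filter, Finset.mem_univ,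
      true_and, Set.mem_ofPred_eq]
    constructor
    · rintro ⟨h1, h2⟩
      exact ⟨⟨⟨h1, by omega⟩, by omega⟩, h2⟩
    · rintro ⟨⟨⟨h1, _⟩, _⟩, h2⟩
      exact ⟨h1, h2⟩
  have hKc : smallK G = N2.card := by
    unfold smallK
    rw [← Set.ncard_coe_finset]
    congr 1
    ext κ
    simp only [hN2, h𝒩, Finset.coe_filter, Finset.mem_filter, Finset.mem_univ, true_and,
      Set.mem_ofPred_eq]
    rfl
  rw [hT1c, hT3c, hKc]
  rw [hsplit, hsplit𝒩, hsum𝒯, hsumUR] at hsum
  rw [hcard𝒦, hcard𝒩, hcard𝒯, hcardU] at hbr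
  rw [hsplit𝒩] at hent hnt
  refine ⟨?_, ?_, ?_⟩ <;> omega

end Pool.Agent.H40.CM
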