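import Pool.Agent.H40.CK.B10
import Pool.Agent.H40.CM.AF
import Pool.Agent.H40.CM.P1
import Pool.Agent.H40.CM.P2
import Pool.Agent.H40.CM.P3a
import Pool.Agent.H40.CM.T1m
import Pool.Agent.H40.CM.T2m

/-!
# CM / P3: long paths and cycles joined by a matching

`n = Nat.card V`.  Choose `s : ℕ` with `10^8 / (θ/16)^4 ≤ s`, `1 ≤ s`, then `L : ℕ` with `120 * s / θ ≤ L`, `s < L`;
`c = θ / 128`.  Let `En = {v | deg_P v = 1}`; `L #En ≤ 2 n` (`ends_bound`).
`M₀` = the edges of `M` with no end in `En`: `#M₀ ≥ θ n - #En` (each vertex is in at most one `M`-edge).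
The ends of `M`-edges are in `P.support`, so the ends of `M₀`-edges have `P`-degree two.
`P` has no cycle of length `≤ s` (the vertices of a cycle of `P` form a whole component (degrees `≤ 2`), with at least `L > s`
vertices).  Take `M' ≤ M₀` from `exists_maximal_part P M₀ s`, `J = P ⊔ M'`.
All `J`-degrees are `≤ 3`; a vertex with an `M'`-edge has `J`-degree three (`M`-edges are not `P`-edges by
`hdiff`); other vertices have their `P`-degree.  So `T1 J ⊆ En`.
`L * smallK J ≤ n + L #En`, so `L * smallK J ≤ 3 n` (`smallK_bound P M' L`).  By `dart_counts J`: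
`L #T3 ≤ 8 n`, `L #ntDarts ≤ 24 n`, `L #ent ≤ 26 n`.
Let `H = cyc J`, `𝒢` = the edges `e ∈ M₀` with both ends in `H.support` such that `e ∉ H` or both ends have
`H`-degree three.  An edge `x y` of `M₀` is not in `𝒢` only in the following cases:
 * `x y ∈ M'`, an end is not in `H.support`: this end is in `T3 J`;
 * `x y ∈ M'`, both ends in `H.support`, `x y ∈ H`, an end `x` has `H`-degree `≤ 2` (`J`-degree three): there is a
   bridge-dart starting at `x`, in `ntDarts J`;
 * `x y ∉ M'`, an end, say `x`, is not in `H.support`: `x` has no `M'`-edge (`M` is a matching), so its `J`-degree is two and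
   `x ∈ T2 J`.  There is a `J`-path `Q` from `x` to `y` of length `< s`.  As `x`, `y` are in different components of `P`, `Q` uses
   an `M'`-edge, whose ends have `J`-degree three, so are not in `T2 J`.  So `x` has a `J`-path of length `≤ s` to a vertex
   outside `T2 J`: by `T2X_bound` there are at most `s * #ent` such `x`.
   (If `x y ∉ M'` and both ends are in `H.support` then `x y ∉ J ⊇ H`, so it is in `𝒢`: `M`-edges are not `P`-edges.)
So `L #(M₀ \ 𝒢) ≤ 8 n + 24 n + 26 s n ≤ 58 s n` and `#𝒢 ≥ θ n - 2 n / L - 58 s n / L ≥ θ n - 60 s n / L ≥ θ n / 2`.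
`random_even H` (CK/B10.lean) gives `F ≤ H`, `F.IsCycles`, with at least `#𝒢 / 8 ≥ θ n / 16` edges of `𝒢` in `free M F`.
`F ≤ J` has no cycle of length `≤ s`.  `rich_of_free` with `θ / 16`, `s`.
-/

namespace Pool.Agent.H40.CM

open SimpleGraph Pool.Agent.H40.CK

universe u

private theorem P3_uniq {V : Type*} {M : SimpleGraph V} (hM : IsMatch M) {x : V} {e e' : Sym2 V}
    (he : e ∈ M.edgeSet) (he' : e' ∈ M.edgeSet) (hx : x ∈ e) (hx' : x ∈ e') : e = e' := by
  obtain ⟨a, rfl⟩ := Sym2.mem_iff_exists.1 hx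
  obtain ⟨b, rfl⟩ := Sym2.mem_iff_exists.1 hx'
  rw [hM x a b he he']

/-- Sets of edges of a matching, each with an end in `Z`, have at most `#Z` elements. -/
private theorem P3_count {V : Type*} [Finite V] [Nonempty V] {M : SimpleGraph V} (hM : IsMatch M)
    (B : Set (Sym2 V)) (hB : B ⊆ M.edgeSet) (Z : Set V) (hZ : ∀ e ∈ B, ∃ z ∈ e, z ∈ Z) :
    B.ncard ≤ Z.ncard := by
  classical
  have h : ∀ e : Sym2 V, ∃ z, e ∈ B → z ∈ e ∧ z ∈ Z := by
    intro e
    by_cases he : e ∈ B
    · obtain ⟨z, h1, h2⟩ := hZ e he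
      exact ⟨z, fun _ => ⟨h1, h2⟩⟩
    · exact ⟨Classical.arbitrary V, fun h => absurd h he⟩
  choose f hf using h
  refine Set.ncard_le_ncard_of_injOn f (fun e he => (hf e he).2) ?_ (Set.toFinite _)
  intro e he e' he' hee
  exact P3_uniq hM (hB he) (hB he') (hf e he).1 (hee ▸ (hf e' he').1)

private theorem P3_cycle {V : Type*} [Finite V] {P : SimpleGraph V}
    (hdeg : ∀ v, (P.neighborSet v).ncard ≤ 2) {u : V} (C : P.Walk u u) (hC : C.IsCycle) :
    u ∈ P.support ∧ csz P u ≤ C.length := by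
  classical
  have hclosed : ∀ z w, z ∈ C.support → P.Adj z w → w ∈ C.support := by
    intro z w hz hzw
    have h1 := hC.ncard_neighborSet_toSubgraph_eq_two hz
    have h2 : C.toSubgraph.neighborSet z ⊆ P.neighborSet z := Subgraph.neighborSet_subset _ _
    have h3 : C.toSubgraph.neighborSet z = P.neighborSet z := by
      refine Set.eq_of_subset_of_ncard_le h2 ?_ (Set.toFinite _)
      rw [h1]; exact hdeg z
    have h4 : w ∈ C.toSubgraph.neighborSet z := by rw [h3]; exact hzw
    have h5 : C.toSubgraph.Adj z w := h4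
    exact C.mem_verts_toSubgraph.1 h5.snd_mem
  have hreach : ∀ w, P.Reachable u w → w ∈ C.support := by
    rintro w ⟨p⟩
    have : ∀ (a b : V) (p : P.Walk a b), a ∈ C.support → b ∈ C.support := by
      intro a b p
      induction p with
      | nil => exact id
      | cons hab p ih => exact fun ha => ih (hclosed _ _ ha hab)
    exact this u w p C.start_mem_support
  refine ⟨?_, ?_⟩
  · cases C with
    | nil => exact absurd Walk.Nil.nil hC.not_nil
    | cons h p => exact ⟨_, h⟩
  · have h1 : {w | P.Reachable u w} ⊆ (C.support.tail.toFinset : Set V) := by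
      intro w hw
      rw [Finset.mem_coe, List.mem_toFinset]
      have h2 := hreach w hw
      by_cases hwu : w = u
      · rw [hwu]; exact C.end_mem_tail_support (fun h => hC.not_nil h)
      · rw [← C.cons_tail_support, List.mem_cons] at h2
        exact h2.resolve_left hwu
    have h2 := Set.ncard_le_ncard h1 (Set.toFinite _)
    rw [Set.ncard_coe_finset, List.toFinset_card_of_nodup hC.support_nodup, List.length_tail,
      Walk.length_support] at h2
    unfold csz
    omega

theorem lemmaP (θ : ℝ) (hθ : 0 < θ) (hθ1 : θ ≤ 1) :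
    ∃ L : ℕ, ∀ {V : Type u} [Finite V] [Nonempty V] (P M G : SimpleGraph V),
      (∀ v, (P.neighborSet v).ncard ≤ 2) → Long P L → IsMatch M →
      (∀ x y, M.Adj x y → ¬ P.Reachable x y) → M.support ⊆ P.support → P ≤ G → M ≤ G →
      θ * (Nat.card V : ℝ) ≤ (M.edgeSet.ncard : ℝ) →
      ∃ (u : V) (C : G.Walk u u), C.IsCycle ∧
        θ / 128 * (C.length : ℝ) ≤ ((chords G C).ncard : ℝ) := by
  classical
  set s : ℕ := max 1 ⌈10 ^ 8 / (θ / 16) ^ 4⌉₊ with hs
  set L : ℕ := max (s + 1) ⌈120 * (s : ℝ) / θ⌉₊ with hLdef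
  have hs1 : 1 ≤ s := le_max_left _ _
  have hs8 : 10 ^ 8 / (θ / 16) ^ 4 ≤ (s : ℝ) :=
    (Nat.le_ceil _).trans (Nat.cast_le.2 (le_max_right _ _))
  have hLs : s < L := lt_of_lt_of_le (Nat.lt_succ_self s) (le_max_left _ _)
  have hL120 : 120 * (s : ℝ) / θ ≤ (L : ℝ) :=
    (Nat.le_ceil _).trans (Nat.cast_le.2 (le_max_right _ _))
  refine ⟨L, ?_⟩
  intro V _ _ P M G hdeg hLong hM hdiff hMP hPG hMG hdens
  set n : ℕ := Nat.card V with hn
  have hn0 : 0 < n := Nat.card_pos
  set En : Set V := {v | (P.neighborSet v).ncard = 1} with hEn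
  have hE : L * En.ncard ≤ 2 * n := ends_bound P L hdeg hLong
  set M₀ : SimpleGraph V := drop M En with hM₀
  have hM₀M : M₀ ≤ M := drop_le M En
  have hM₀match : IsMatch M₀ := isMatch_mono hM₀M hM
  -- the number of edges of `M₀`
  have hM₀card : M.edgeSet.ncard ≤ M₀.edgeSet.ncard + En.ncard := by
    have h1 : M.edgeSet ⊆ M₀.edgeSet ∪ {e | e ∈ M.edgeSet ∧ ∃ z ∈ e, z ∈ En} := by
      intro e he
      by_cases h : ∃ z ∈ e, z ∈ En
      · exact Or.inr ⟨he, h⟩
      · left
        push Not at h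
        induction e with
        | h x y => exact ⟨he, h x (by simp), h y (by simp)⟩
    have h2 : ({e | e ∈ M.edgeSet ∧ ∃ z ∈ e, z ∈ En} : Set (Sym2 V)).ncard ≤ En.ncard :=
      P3_count hM _ (fun e he => he.1) En (fun e he => he.2)
    exact (Set.ncard_le_ncard h1 (Set.toFinite _)).trans
      ((Set.ncard_union_le _ _).trans (Nat.add_le_add_left h2 _))
  have hPno : ∀ (u : V) (C : P.Walk u u), C.IsCycle → s < C.length := by
    intro u C hC
    obtain ⟨h1, h2⟩ := P3_cycle hdeg C hC
    exact lt_of_lt_of_le hLs ((hLong u h1).trans h2)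
  obtain ⟨M', hM'M₀, hJno, hM'max⟩ := exists_maximal_part P M₀ s hPno
  have hM'M : M' ≤ M := hM'M₀.trans hM₀M
  have hM'match : IsMatch M' := isMatch_mono hM'M hM
  set J : SimpleGraph V := P ⊔ M' with hJ
  have hM'deg : ∀ v, (M'.neighborSet v).ncard ≤ 1 := by
    intro v
    rw [Set.ncard_le_one_iff]
    intro a b ha hb
    exact hM'match v a b ha hb
  have hJdeg : ∀ v, (J.neighborSet v).ncard ≤ 3 := by
    intro v
    have h1 : J.neighborSet v ⊆ P.neighborSet v ∪ M'.neighborSet v := by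
      rintro w (h | h)
      · exact Or.inl h
      · exact Or.inr h
    have h2 := (Set.ncard_le_ncard h1 (Set.toFinite _)).trans (Set.ncard_union_le _ _)
    have h3 := hdeg v
    have h4 := hM'deg v
    omega
  -- vertices with an `M₀`-edge have `P`-degree two
  have hPdeg2 : ∀ x y, M₀.Adj x y → (P.neighborSet x).ncard = 2 := by
    intro x y hxy
    have h1 : x ∈ P.support := hMP ⟨y, hxy.1⟩
    have h2 : (P.neighborSet x).ncard ≠ 1 := hxy.2.1
    have h3 := hdeg x
    have h4 : 0 < (P.neighborSet x).ncard := by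
      rw [Set.ncard_pos (Set.toFinite _)]
      obtain ⟨w, hw⟩ := h1
      exact ⟨w, hw⟩
    omega
  have hnotP : ∀ x y, M.Adj x y → ¬ P.Adj x y := fun x y h h' => hdiff x y h h'.reachable
  have hJdeg3 : ∀ x y, M'.Adj x y → (J.neighborSet x).ncard = 3 := by
    intro x y hxy
    have h1 : insert y (P.neighborSet x) ⊆ J.neighborSet x := by
      intro w hw
      rcases hw with rfl | hw
      · exact Or.inr hxy
      · exact Or.inl hw
    have h2 : y ∉ P.neighborSet x := hnotP x y (hM'M hxy)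
    have h3 := Set.ncard_le_ncard h1 (Set.toFinite _)
    rw [Set.ncard_insert_of_notMem h2 (Set.toFinite _), hPdeg2 x y (hM'M₀ hxy)] at h3
    have h4 := hJdeg x
    omega
  have hJnbrP : ∀ x, (∀ y, ¬ M'.Adj x y) → J.neighborSet x = P.neighborSet x := by
    intro x hx
    ext w
    constructor
    · rintro (h | h)
      · exact h
      · exact absurd h (hx w)
    · exact fun h => Or.inl h
  have hT1 : T1 J ⊆ En := by
    rintro v ⟨-, hv⟩
    by_cases h : ∃ y, M'.Adj v y
    · obtain ⟨y, hy⟩ := h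
      rw [hJdeg3 v y hy] at hv
      omega
    · push Not at h
      rw [hJnbrP v h] at hv
      exact hv
  have hT1c : (T1 J).ncard ≤ En.ncard := Set.ncard_le_ncard hT1 (Set.toFinite _)
  have hsmall : L * smallK J ≤ n + L * En.ncard :=
    smallK_bound P M' L hdeg hLong (fun x y h => hdiff x y (hM'M h))
      (fun x hx => by
        obtain ⟨y, hy⟩ := hx
        exact hMP ⟨y, hM'M hy⟩)
  obtain ⟨hd1, hd2, hd3⟩ := dart_counts J
  have hsmall' : L * smallK J ≤ 3 * n := by omega
  have hLT1 : L * (T1 J).ncard ≤ 2 * n := (Nat.mul_le_mul_left _ hT1c).trans hE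
  have hLT3 : L * (T3 J).ncard ≤ 8 * n := by
    have := Nat.mul_le_mul_left L hd1
    have h2 : L * ((T1 J).ncard + 2 * smallK J) = L * (T1 J).ncard + 2 * (L * smallK J) := by ring
    omega
  have hLnt : L * (ntDarts J).ncard ≤ 24 * n := by
    have := Nat.mul_le_mul_left L hd2
    have h2 : L * (3 * (T1 J).ncard + 6 * smallK J) =
      3 * (L * (T1 J).ncard) + 6 * (L * smallK J) := by ring
    omega
  have hLent : L * (ent J).ncard ≤ 26 * n := by
    have := Nat.mul_le_mul_left L hd3
    have h2 : L * (4 * (T1 J).ncard + 6 * smallK J) =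
      4 * (L * (T1 J).ncard) + 6 * (L * smallK J) := by ring
    omega
  set H : SimpleGraph V := cyc J with hH
  have hHJ : H ≤ J := cyc_le J
  have hHdeg : ∀ v, (H.neighborSet v).ncard ≤ 3 := fun v =>
    (Set.ncard_le_ncard (fun w hw => hHJ hw) (Set.toFinite _)).trans (hJdeg v)
  set 𝒢 : Set (Sym2 V) := {e | e ∈ M₀.edgeSet ∧ (∀ z ∈ e, z ∈ H.support) ∧
    (e ∉ H.edgeSet ∨ ∀ z ∈ e, (H.neighborSet z).ncard = 3)} with h𝒢
  set X : Set V := {z | z ∈ T2 J ∧ ∃ (y : V) (Q : J.Walk z y), Q.IsPath ∧ Q.length ≤ s ∧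
    y ∉ T2 J} with hX
  have hXc : X.ncard ≤ s * (ent J).ncard :=
    T2X_bound X (fun z hz => hz.1) (fun z hz => hz.2)
  -- a vertex of a `J`-path joining the ends of an edge of `M` is not in `T2 J`
  have hpathX : ∀ x y, M₀.Adj x y → ¬ M'.Adj x y → x ∉ H.support → x ∈ X := by
    intro x y hxy hxy' hxH
    have hno : ∀ w, ¬ M'.Adj x w := by
      intro w hw
      have : w = y := hM x w y (hM'M hw) (hM₀M hxy)
      exact hxy' (this ▸ hw)
    refine ⟨⟨hxH, by rw [hJnbrP x hno]; exact hPdeg2 x y hxy⟩, ?_⟩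
    obtain ⟨Q, hQ, hQl⟩ := hM'max x y hxy hxy'
    have h1 : ∃ e ∈ Q.edges, e ∈ M'.edgeSet := by
      by_contra hcon
      push Not at hcon
      apply hdiff x y (hM₀M hxy)
      have h2 : ∀ e ∈ Q.edges, e ∈ P.edgeSet := by
        intro e he
        have h3 := Q.edges_subset_edgeSet he
        have h4 := hcon e he
        induction e with
        | h a b =>
          rcases h3 with h3 | h3
          · exact h3
          · exact absurd h3 h4
      exact (Q.transfer P h2).reachable
    obtain ⟨e, he, heM⟩ := h1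
    induction e with
    | h a b =>
      have ha : a ∈ Q.support := Q.fst_mem_support_of_mem_edges he
      refine ⟨a, Q.takeUntil a ha, hQ.takeUntil ha, (Q.length_takeUntil_le_length ha).trans hQl.le, ?_⟩
      intro haT
      have h5 := haT.2
      rw [hJdeg3 a b heM] at h5
      omega
  -- bad edges
  have hbad : ∀ e ∈ M₀.edgeSet \ 𝒢, ∃ z ∈ e, z ∈ T3 J ∪ (Prod.fst '' ntDarts J) ∪ X := by
    rintro e ⟨he, heG⟩
    induction e with
    | h x y =>
      have hxy : M₀.Adj x y := he
      by_cases hxy' : M'.Adj x y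
      · have hdx := hJdeg3 x y hxy'
        have hdy := hJdeg3 y x hxy'.symm
        have hd : ∀ z ∈ s(x, y), (J.neighborSet z).ncard = 3 := by
          intro z hz
          rcases Sym2.mem_iff.1 hz with rfl | rfl
          · exact hdx
          · exact hdy
        by_cases hsup : ∀ z ∈ s(x, y), z ∈ H.support
        · have h1 : ¬ (∀ z ∈ s(x, y), (H.neighborSet z).ncard = 3) := by
            intro h
            exact heG ⟨he, hsup, Or.inr h⟩
          push Not at h1
          obtain ⟨z, hz, hz3⟩ := h1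
          refine ⟨z, hz, Or.inl (Or.inr ?_)⟩
          have h2 : ∃ w, w ∈ J.neighborSet z ∧ w ∉ H.neighborSet z := by
            by_contra hcon
            push Not at hcon
            have h3 : J.neighborSet z ⊆ H.neighborSet z := fun w hw => hcon w hw
            have h4 := Set.ncard_le_ncard h3 (Set.toFinite _)
            rw [hd z hz] at h4
            have h5 := hHdeg z
            omega
          obtain ⟨w, hw1, hw2⟩ := h2
          exact ⟨(z, w), ⟨hsup z hz, hw1, hw2⟩, rfl⟩
        · push Not at hsup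
          obtain ⟨z, hz, hzH⟩ := hsup
          exact ⟨z, hz, Or.inl (Or.inl ⟨hzH, (hd z hz).ge⟩)⟩
      · have h1 : ¬ (∀ z ∈ s(x, y), z ∈ H.support) := by
          intro h
          refine heG ⟨he, h, Or.inl ?_⟩
          intro heH
          have h2 : J.Adj x y := hHJ heH
          rcases h2 with h2 | h2
          · exact hnotP x y (hM₀M hxy) h2
          · exact hxy' h2
        push Not at h1
        obtain ⟨z, hz, hzH⟩ := h1
        refine ⟨z, hz, Or.inr ?_⟩
        rcases Sym2.mem_iff.1 hz with rfl | rfl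
        · exact hpathX z y hxy hxy' hzH
        · exact hpathX z x hxy.symm (fun h => hxy' h.symm) hzH
  have hbadc : (M₀.edgeSet \ 𝒢).ncard ≤ (T3 J).ncard + (ntDarts J).ncard + X.ncard := by
    refine (P3_count hM₀match _ Set.sdiff_subset _ hbad).trans ?_
    refine (Set.ncard_union_le _ _).trans (Nat.add_le_add_right ?_ _)
    refine (Set.ncard_union_le _ _).trans (Nat.add_le_add_left ?_ _)
    exact Set.ncard_image_le (Set.toFinite _)
  have hLbad : L * (M₀.edgeSet \ 𝒢).ncard ≤ 58 * s * n := by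
    have h1 := Nat.mul_le_mul_left L hbadc
    have h2 : L * ((T3 J).ncard + (ntDarts J).ncard + X.ncard) =
      L * (T3 J).ncard + L * (ntDarts J).ncard + L * X.ncard := by ring
    have h3 : L * X.ncard ≤ s * (26 * n) := by
      calc L * X.ncard ≤ L * (s * (ent J).ncard) := Nat.mul_le_mul_left _ hXc
        _ = s * (L * (ent J).ncard) := by ring
        _ ≤ s * (26 * n) := Nat.mul_le_mul_left _ hLent
    have h4 : n ≤ s * n := Nat.le_mul_of_pos_left n hs1
    have h5 : s * (26 * n) = 26 * (s * n) := by ring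
    have h6 : 58 * s * n = 58 * (s * n) := by ring
    omega
  have hM₀G : M₀.edgeSet.ncard ≤ 𝒢.ncard + (M₀.edgeSet \ 𝒢).ncard := by
    have h1 : M₀.edgeSet ⊆ 𝒢 ∪ (M₀.edgeSet \ 𝒢) := by
      intro e he
      by_cases h : e ∈ 𝒢
      · exact Or.inl h
      · exact Or.inr ⟨he, h⟩
    exact (Set.ncard_le_ncard h1 (Set.toFinite _)).trans (Set.ncard_union_le _ _)
  have hGc : θ / 2 * (n : ℝ) ≤ (𝒢.ncard : ℝ) := by
    have hL0 : (0 : ℝ) < (L : ℝ) := by
      have : 0 < L := by omega
      exact_mod_cast this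
    have h1 : M.edgeSet.ncard ≤ 𝒢.ncard + (M₀.edgeSet \ 𝒢).ncard + En.ncard := by omega
    have h2 : (M.edgeSet.ncard : ℝ) ≤ (𝒢.ncard : ℝ) + ((M₀.edgeSet \ 𝒢).ncard : ℝ) +
      (En.ncard : ℝ) := by exact_mod_cast h1
    have h3 : (L : ℝ) * ((M₀.edgeSet \ 𝒢).ncard : ℝ) ≤ 58 * s * n := by exact_mod_cast hLbad
    have h4 : (L : ℝ) * (En.ncard : ℝ) ≤ 2 * n := by exact_mod_cast hE
    have h5 : 120 * (s : ℝ) ≤ θ * L := by
      rw [div_le_iff₀ hθ] at hL120
      linarith
    have h6 : (1 : ℝ) ≤ (s : ℝ) := by exact_mod_cast hs1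
    have hnn : (0 : ℝ) < (n : ℝ) := by exact_mod_cast hn0
    have h7 : (L : ℝ) * (((M₀.edgeSet \ 𝒢).ncard : ℝ) + (En.ncard : ℝ)) ≤
        (L : ℝ) * (θ / 2 * n) := by
      have h8 : 120 * (s : ℝ) * n ≤ θ * L * n := mul_le_mul_of_nonneg_right h5 hnn.le
      have h9 : (n : ℝ) ≤ s * n := le_mul_of_one_le_left hnn.le h6
      nlinarith
    have h8 := le_of_mul_le_mul_left h7 hL0
    linarith
  obtain ⟨F, hFH, hFc, hFcount⟩ := random_even H hHdeg
    (fun u v huv => by
      obtain ⟨C, hC, he⟩ := cyc_cycle huv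
      exact ⟨u, C, hC, he⟩)
    𝒢 (fun e he => M₀.not_isDiag_of_mem_edgeSet he.1) (fun e he => he.2.1) (fun e he => he.2.2)
  have hFJ : F ≤ J := hFH.trans hHJ
  have hfree : (({e | e ∈ 𝒢 ∧ e ∉ F.edgeSet ∧ ∀ z ∈ e, z ∈ F.support} : Set (Sym2 V)).ncard : ℝ) ≤
      ((free M F).ncard : ℝ) := by
    have h1 : ({e | e ∈ 𝒢 ∧ e ∉ F.edgeSet ∧ ∀ z ∈ e, z ∈ F.support} : Set (Sym2 V)) ⊆
        free M F := by
      rintro e ⟨h1, h2, h3⟩
      exact ⟨(edgeSet_mono hM₀M) h1.1, h2, h3⟩
    exact_mod_cast Set.ncard_le_ncard h1 (Set.toFinite _)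
  obtain ⟨u, C, hC, hCc⟩ := rich_of_free (G := G) (F := F) (M := M) (θ / 16) (by positivity)
    (by linarith) s hFc hM (hFJ.trans (sup_le hPG (hM'M.trans hMG))) hMG
    (by
      intro u C hC
      have := hJno u (C.mapLe hFJ) (hC.mapLe hFJ)
      have h2 : s < C.length := by simpa using this
      exact h2.le)
    (by
      have h1 : (𝒢.ncard : ℝ) ≤ 8 * (({e | e ∈ 𝒢 ∧ e ∉ F.edgeSet ∧ ∀ z ∈ e, z ∈ F.support} :
        Set (Sym2 V)).ncard : ℝ) := by exact_mod_cast hFcount
      linarith) hs8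
  refine ⟨u, C, hC, le_trans (le_of_eq ?_) hCc⟩
  ring

end Pool.Agent.H40.CM
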