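import Pool.Agent.H40.CK.A2
import Pool.Agent.H40.CK.A7a
import Pool.Agent.H40.CK.B2a
import Pool.Agent.H40.CM.Defs

/-!
# CM / X1a: short pieces of cycles outside a set `W`

Let `c` be the cyclic sequence of the component of `x` in `F` (`exists_cycSeq` in CK/A2.lean; `F`-neighbours of `c i` are
exactly `c (i+1)`, `c (i-1)`), `c 0 = x` (shift), with `m > s₀` vertices (`hno` and `comp_cycle`, CK/A1.lean).
Some `c i` is in `W`: otherwise the whole cycle is in the component of `x` in `drop F W`, which has at most `L < m`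
vertices.  Let `j ≥ 1` be least with `c j ∈ W` and `i ≥ 1` least with `c (-i) ∈ W` (`i, j ≤ m - 1`... `c m = c 0 = x ∉ W`).
The vertices `c k`, `-i < k < j`, are reachable from `x` in `drop F W`; they are distinct as long as there are at most `m` of
them, so `i + j - 1 ≤ L` (if `i + j - 1 > L` then `L + 1 ≤ m` of them would be distinct).  Hence `0 < i + j ≤ L + 1 ≤ s₀ < m`, so
`c j ≠ c (-i)`.  The component of `x` in `drop F W` is exactly `{c k | -i < k < j}` (this set is closed under
`drop F W`-adjacency).  `u = c j`, `a = c (j - 1)`, `u' = c (-i)`, `a' = c (-i + 1)`.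
`P`: the walk `c 0, c 1, ..., c j` (an `arc`, CK/B2a.lean), length `j ≤ L`.
-/

namespace Pool.Agent.H40.CM

open SimpleGraph Pool.Agent.H40.CK

variable {V : Type*}

/-- Distinct reachable vertices: a lower bound for the size of the component. -/
private theorem X1a_count [Finite V] {F G : SimpleGraph V} {c : ℤ → V} {m : ℕ} (hc : CycSeq F c m)
    {x : V} (p : ℤ) (t : ℕ) (ht : t ≤ m)
    (h : ∀ k : ℤ, p ≤ k → k < p + t → G.Reachable x (c k)) : t ≤ csz G x := by
  classical
  have h1 : ((Finset.Ico p (p + t)).image c).card = t := by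
    rw [Finset.card_image_of_injOn, Int.card_Ico]
    · omega
    · intro i hi j hj hij
      rw [Finset.mem_coe, Finset.mem_Ico] at hi hj
      have hd := (hc.eq_iff i j).1 hij
      by_contra hne
      rcases lt_or_gt_of_ne hne with hlt | hlt
      · have := Int.le_of_dvd (by omega) hd
        omega
      · have hd' : (m : ℤ) ∣ i - j := by
          have := (dvd_neg (α := ℤ)).2 hd
          rwa [neg_sub] at this
        have := Int.le_of_dvd (by omega) hd'
        omega
  unfold csz
  rw [← h1, ← Set.ncard_coe_finset]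
  refine Set.ncard_le_ncard ?_ (Set.toFinite _)
  intro w hw
  rw [Finset.mem_coe, Finset.mem_image] at hw
  obtain ⟨k, hk, rfl⟩ := hw
  rw [Finset.mem_Ico] at hk
  exact h k hk.1 hk.2

private theorem X1a_pos {F : SimpleGraph V} {c : ℤ → V} {m : ℕ} (hc : CycSeq F c m) {W : Set V}
    {x : V} (hx : c 0 = x) (n : ℕ) (h : ∀ k : ℕ, k ≤ n → c k ∉ W) :
    (drop F W).Reachable x (c n) := by
  induction n with
  | zero => rw [← hx]; simp
  | succ n ih =>
    have h1 := ih fun k hk => h k (by omega)
    refine h1.trans (Adj.reachable ?_)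
    refine ⟨?_, h n (by omega), h (n + 1) le_rfl⟩
    have := hc.adj n
    push_cast
    exact this

private theorem X1a_neg {F : SimpleGraph V} {c : ℤ → V} {m : ℕ} (hc : CycSeq F c m) {W : Set V}
    {x : V} (hx : c 0 = x) (n : ℕ) (h : ∀ k : ℕ, k ≤ n → c (-(k : ℤ)) ∉ W) :
    (drop F W).Reachable x (c (-(n : ℤ))) := by
  induction n with
  | zero => rw [← hx]; simp
  | succ n ih =>
    have h1 := ih fun k hk => h k (by omega)
    refine h1.trans (Adj.reachable ?_)
    refine ⟨?_, h n (by omega), h (n + 1) le_rfl⟩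
    have h2 := hc.adj (-((n + 1 : ℕ) : ℤ))
    have h3 : -((n + 1 : ℕ) : ℤ) + 1 = -(n : ℤ) := by push_cast; ring
    rw [h3] at h2
    exact h2.symm

private theorem X1a_closed {G : SimpleGraph V} (S : V → Prop) {x : V} (h0 : S x)
    (hs : ∀ a b, S a → G.Adj a b → S b) : ∀ v, G.Reachable x v → S v := by
  rintro v ⟨p⟩
  induction p with
  | nil => exact h0
  | cons hab p ih => exact ih (hs _ _ h0 hab)

theorem short_piece [Finite V] {F : SimpleGraph V} (hF : F.IsCycles) (W : Set V) {L s₀ : ℕ}
    (hL : L + 1 ≤ s₀) (hno : ∀ (u : V) (C : F.Walk u u), C.IsCycle → s₀ < C.length)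
    {x : V} (hx : x ∈ F.support) (hxW : x ∉ W) (hcsz : csz (drop F W) x ≤ L) :
    ∃ u a u' a', u ≠ u' ∧ u ∈ W ∧ u' ∈ W ∧ F.Adj u a ∧ F.Adj u' a' ∧
      (drop F W).Reachable x a ∧ (drop F W).Reachable x a' ∧
      (∀ v w, (drop F W).Reachable x v → w ∈ W → F.Adj w v →
        (w = u ∧ v = a) ∨ (w = u' ∧ v = a')) ∧
      ∃ P : F.Walk x u, P.IsPath ∧ P.length ≤ L ∧
        ∀ z ∈ P.support, z ≠ u → (drop F W).Reachable x z := by
  classical
  obtain ⟨h3, c, hc, hc0, -, hadj⟩ := exists_cycSeq hF hx
  set m : ℕ := csz F x with hm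
  have hsm : s₀ < m := by
    obtain ⟨C, hC, hlen, -, -⟩ := comp_cycle hF le_rfl hx
    rw [hm, ← hlen]
    exact hno _ C hC
  -- the first vertex of `W` in positive direction
  have hj : ∃ n : ℕ, c n ∈ W := by
    by_contra hcon
    push Not at hcon
    have h1 := X1a_count (G := drop F W) hc (x := x) 0 m le_rfl (by
      intro k hk _
      obtain ⟨n, rfl⟩ := Int.eq_ofNat_of_zero_le hk
      exact X1a_pos hc hc0 n fun k _ => hcon k)
    omega
  have hi : ∃ n : ℕ, c (-(n : ℤ)) ∈ W := by
    by_contra hcon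
    push Not at hcon
    have h1 := X1a_count (G := drop F W) hc (x := x) (-(m : ℤ) + 1) m le_rfl (by
      intro k _ hk
      obtain ⟨n, hn⟩ := Int.eq_ofNat_of_zero_le (show 0 ≤ -k by omega)
      have hk' : k = -(n : ℤ) := by omega
      rw [hk']
      exact X1a_neg hc hc0 n fun k _ => hcon k)
    omega
  set j := Nat.find hj with hjd
  set i := Nat.find hi with hid
  have hjW : c j ∈ W := Nat.find_spec hj
  have hiW : c (-(i : ℤ)) ∈ W := Nat.find_spec hi
  have hjmin : ∀ k : ℕ, k < j → c k ∉ W := fun k hk => Nat.find_min hj hk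
  have himin : ∀ k : ℕ, k < i → c (-(k : ℤ)) ∉ W := fun k hk => Nat.find_min hi hk
  have hj1 : 1 ≤ j := by
    rcases Nat.eq_zero_or_pos j with h | h
    · rw [h] at hjW; simp only [Nat.cast_zero] at hjW; rw [hc0] at hjW; exact absurd hjW hxW
    · exact h
  have hi1 : 1 ≤ i := by
    rcases Nat.eq_zero_or_pos i with h | h
    · rw [h] at hiW; simp only [Nat.cast_zero, neg_zero] at hiW; rw [hc0] at hiW
      exact absurd hiW hxW
    · exact h
  -- the vertices in between
  have hmidW : ∀ k : ℤ, -(i : ℤ) < k → k < j → c k ∉ W := by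
    intro k hk1 hk2
    rcases le_or_gt 0 k with h | h
    · obtain ⟨n, rfl⟩ := Int.eq_ofNat_of_zero_le h
      exact hjmin n (by omega)
    · obtain ⟨n, hn⟩ := Int.eq_ofNat_of_zero_le (show 0 ≤ -k by omega)
      have hk' : k = -(n : ℤ) := by omega
      rw [hk']
      exact himin n (by omega)
  have hmidR : ∀ k : ℤ, -(i : ℤ) < k → k < j → (drop F W).Reachable x (c k) := by
    intro k hk1 hk2
    rcases le_or_gt 0 k with h | h
    · obtain ⟨n, rfl⟩ := Int.eq_ofNat_of_zero_le h
      exact X1a_pos hc hc0 n fun l hl => hjmin l (by omega)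
    · obtain ⟨n, hn⟩ := Int.eq_ofNat_of_zero_le (show 0 ≤ -k by omega)
      have hk' : k = -(n : ℤ) := by omega
      rw [hk']
      exact X1a_neg hc hc0 n fun l hl => himin l (by omega)
  have hij : i + j ≤ L + 1 := by
    by_contra hcon
    have h1 := X1a_count (G := drop F W) hc (x := x) (-(i : ℤ) + 1) (L + 1) (by omega) (by
      intro k hk1 hk2
      push_cast at hk2
      exact hmidR k (by omega) (by omega))
    omega
  have hcomp : ∀ v, (drop F W).Reachable x v → ∃ k : ℤ, -(i : ℤ) < k ∧ k < j ∧ v = c k := by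
    refine X1a_closed (fun v => ∃ k : ℤ, -(i : ℤ) < k ∧ k < j ∧ v = c k)
      ⟨0, by omega, by omega, hc0.symm⟩ ?_
    rintro _ a ⟨k, hk1, hk2, rfl⟩ hab
    have hF1 : F.Adj (c k) a := hab.1
    have haW : a ∉ W := hab.2.2
    rcases hadj k a hF1 with h | h
    · refine ⟨k + 1, by omega, ?_, h⟩
      by_contra hcon
      have : k + 1 = j := by omega
      rw [h, this] at haW
      exact haW hjW
    · refine ⟨k - 1, ?_, by omega, h⟩
      by_contra hcon
      have : k - 1 = -(i : ℤ) := by omega
      rw [h, this] at haW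
      exact haW hiW
  refine ⟨c j, c (j - 1), c (-(i : ℤ)), c (-(i : ℤ) + 1), ?_, hjW, hiW, ?_, hc.adj _,
    hmidR _ (by omega) (by omega), hmidR _ (by omega) (by omega), ?_, ?_⟩
  · intro h
    have hd := (hc.eq_iff _ _).1 h
    have hd' : (m : ℤ) ∣ (j : ℤ) - -(i : ℤ) := by
      have := (dvd_neg (α := ℤ)).2 hd
      rwa [neg_sub] at this
    have := Int.le_of_dvd (by omega) hd'
    omega
  · have := hc.adj ((j : ℤ) - 1)
    rw [sub_add_cancel] at this
    exact this.symm
  · intro v w hv hw hwv
    obtain ⟨k, hk1, hk2, rfl⟩ := hcomp v hv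
    rcases hadj k w hwv.symm with h | h
    · left
      have h1 : k + 1 = j := by
        by_contra hcon
        exact hmidW (k + 1) (by omega) (by omega) (h ▸ hw)
      refine ⟨by rw [h, h1], ?_⟩
      rw [← h1, add_sub_cancel_right]
    · right
      have h1 : k - 1 = -(i : ℤ) := by
        by_contra hcon
        exact hmidW (k - 1) (by omega) (by omega) (h ▸ hw)
      refine ⟨by rw [h, h1], ?_⟩
      rw [← h1, sub_add_cancel]
  · obtain ⟨P, hP, hPl, hPs, -⟩ := arc hc (a := 0) (b := j) (by omega) (by omega)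
    refine ⟨P.copy hc0 rfl, by simpa using hP, ?_, ?_⟩
    · rw [Walk.length_copy]; omega
    · intro z hz hzu
      rw [Walk.support_copy] at hz
      obtain ⟨k, hk1, hk2, rfl⟩ := (hPs z).1 hz
      refine hmidR k (by omega) ?_
      rcases lt_or_eq_of_le hk2 with h | h
      · exact h
      · exact absurd (by rw [h]) hzu

end Pool.Agent.H40.CM
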