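import Pool.Agent.H40.CK.A5
import Pool.Agent.H40.CM.X1a

/-!
# CM / X1b: random selection of short pieces

For every `u ∈ F.support` fix an enumeration `nb u : Bool → V` of its two `F`-neighbours (`nb u true ≠ nb u false`; arbitrary
for other `u`).  For `ρ : V → Bool` let `g u = nb u (ρ u)`.  Let `X` be a set of vertices `x ∈ F.support \ W` with
`csz (drop F W) x ≤ L`.  By `short_piece`, for `x ∈ X` there are `u ≠ u'` and `a, a'` such that the condition
`for all `v` reachable from `x` in `drop F W` and all `w ∈ W`, `F.Adj w v → g w = v`` follows from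
`g u = a` and `g u' = a'`, i.e. from `ρ u = β`, `ρ u' = β'` for certain `β, β' : Bool`.
`avg_prod` (CK/A5.lean) with `K = V`, `Ω = fun _ => Bool`, `E = V`, `U = X` (as a `Finset`), `k₁ x = u`, `k₂ x = u'`,
`A₁ x = {β}`, `A₂ x = {β'}`, `c = 1/2` gives `ρ` with `(1/4) #X ≤ #{x ∈ X | ...}`.
(If `F.support` is empty, `X` is empty and `g` is arbitrary; choose `g v = v` outside `F.support`.)
-/

namespace Pool.Agent.H40.CM

open SimpleGraph Pool.Agent.H40.CK

variable {V : Type*}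

theorem exists_selection [Finite V] {F : SimpleGraph V} (hF : F.IsCycles) (W : Set V) {L s₀ : ℕ}
    (hL : L + 1 ≤ s₀) (hno : ∀ (u : V) (C : F.Walk u u), C.IsCycle → s₀ < C.length)
    (X : Set V) (hX : ∀ x ∈ X, x ∈ F.support ∧ x ∉ W ∧ csz (drop F W) x ≤ L) :
    ∃ g : V → V, X.ncard ≤ 4 *
      ({x | x ∈ X ∧ ∀ v w, (drop F W).Reachable x v → w ∈ W → F.Adj w v → g w = v} : Set V).ncard := by
  classical
  letI := Fintype.ofFinite V
  have hnb : ∀ u, ∃ nb : Bool → V, ∀ a, F.Adj u a → ∃ β, nb β = a := by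
    intro u
    by_cases hu : (F.neighborSet u).Nonempty
    · have h2 := hF hu
      rw [Set.ncard_eq_two] at h2
      obtain ⟨a, b, -, hab⟩ := h2
      refine ⟨fun β => if β then a else b, fun c hc => ?_⟩
      have hc' : c ∈ ({a, b} : Set V) := by rw [← hab]; exact hc
      rcases hc' with rfl | hc'
      · exact ⟨true, by simp⟩
      · rw [Set.mem_singleton_iff] at hc'
        exact ⟨false, by simp [hc']⟩
    · refine ⟨fun _ => u, fun c hc => ?_⟩
      exact absurd ⟨c, hc⟩ hu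
  choose nb hnb using hnb
  have key : ∀ x, ∃ (u u' : V) (β β' : Bool), x ∈ X → u ≠ u' ∧
      ∀ ρ : V → Bool, ρ u = β → ρ u' = β' → ∀ v w, (drop F W).Reachable x v → w ∈ W →
        F.Adj w v → nb w (ρ w) = v := by
    intro x
    by_cases hx : x ∈ X
    · obtain ⟨h1, h2, h3⟩ := hX x hx
      obtain ⟨u, a, u', a', huu, -, -, hua, hua', -, -, hall, -⟩ :=
        short_piece hF W hL hno h1 h2 h3
      obtain ⟨β, hβ⟩ := hnb u a hua
      obtain ⟨β', hβ'⟩ := hnb u' a' hua'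
      refine ⟨u, u', β, β', fun _ => ⟨huu, ?_⟩⟩
      intro ρ hρ hρ' v w hv hw hwv
      rcases hall v w hv hw hwv with ⟨rfl, rfl⟩ | ⟨rfl, rfl⟩
      · rw [hρ, hβ]
      · rw [hρ', hβ']
    · exact ⟨x, x, true, true, fun h => absurd h hx⟩
  choose k₁ k₂ β₁ β₂ hk using key
  set U : Finset V := X.toFinset with hU
  have hUX : ∀ x ∈ U, x ∈ X := fun x hx => by simpa [hU] using hx
  obtain ⟨ρ, hρ⟩ := avg_prod (K := V) (Ω := fun _ => Bool) (E := V) U k₁ k₂
    (fun e he => (hk e (hUX e he)).1) (fun x => {β₁ x}) (fun x => {β₂ x}) (1 / 2) (by norm_num)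
    (fun e _ => by simp) (fun e _ => by simp)
  refine ⟨fun u => nb u (ρ u), ?_⟩
  have hsub : ({e | e ∈ U ∧ ρ (k₁ e) ∈ ({β₁ e} : Set Bool) ∧ ρ (k₂ e) ∈ ({β₂ e} : Set Bool)} : Set V) ⊆
      {x | x ∈ X ∧ ∀ v w, (drop F W).Reachable x v → w ∈ W → F.Adj w v → nb w (ρ w) = v} := by
    rintro x ⟨h1, h2, h3⟩
    exact ⟨hUX x h1, (hk x (hUX x h1)).2 ρ h2 h3⟩
  have h1 := Set.ncard_le_ncard hsub (Set.toFinite _)
  have h2 : X.ncard = U.card := by rw [Set.ncard_eq_toFinset_card', hU]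
  have h3 : (1 / 4 : ℝ) * (X.ncard : ℝ) ≤ (({x | x ∈ X ∧ ∀ v w, (drop F W).Reachable x v → w ∈ W →
      F.Adj w v → nb w (ρ w) = v} : Set V).ncard : ℝ) := by
    rw [h2]
    refine le_trans (le_of_eq (by norm_num)) (hρ.trans ?_)
    exact_mod_cast h1
  have h4 : (X.ncard : ℝ) ≤ 4 * (({x | x ∈ X ∧ ∀ v w, (drop F W).Reachable x v → w ∈ W →
      F.Adj w v → nb w (ρ w) = v} : Set V).ncard : ℝ) := by linarith
  exact_mod_cast h4

end Pool.Agent.H40.CM
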