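import Pool.Agent.H40.CK.B4
import Pool.Agent.H40.CM.AF
import Pool.Agent.H40.CM.T1m
import Pool.Agent.H40.CM.T2m
import Pool.Agent.H40.CM.X1b

/-!
# CM / X1c: the graph `J` = `F₂` and the selected short pieces of `F₁`

`W = F₂.support`.  `Sel g` = the set of `v ∈ F₁.support \ W` with `csz (drop F₁ W) v ≤ L` and
`∀ v' w, (drop F₁ W).Reachable v v' → w ∈ W → F₁.Adj w v' → g w = v'`.  It is closed under `drop F₁ W`-adjacency.
`J` = `F₂` and the `F₁`-edges with an end in `Sel`.
Facts (`J_facts`):
* `J ≤ F₁ ⊔ F₂`; `J`-degrees are `≤ 3`: `v ∉ W`: if `v ∈ Sel`, the `J`-neighbours are its two `F₁`-neighbours; if `v ∉ Sel`, `v` has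
  no `J`-neighbour (an `F₁`-neighbour `b ∈ Sel` of `v ∉ W` would give `v ∈ Sel`, since `b ∉ W`).  `v ∈ W`: two
  `F₂`-neighbours, and the `F₁`-neighbours of `v` in `Sel` are all equal to `g v`.
* `F₂ ≤ cyc J` (`comp_cycle`), so `W ⊆ (cyc J).support`.
* `T1 J = ∅` (degrees are `0`, `2` or `3`; all vertices of degree three are in `W`).
* every nontrivial component of `cyc J` contains a cycle of `cyc J` (`cyc_cycle`), which is a cycle of `F₁ ⊔ F₂`, so it has more than `s₀`
  vertices; hence `s₀ * smallK J ≤ n`.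
* `dart_counts`: `#ent ≤ 6 smallK`.  Every `v ∈ Sel` not in `(cyc J).support` has `J`-degree two, so is in `T2 J`; by
  `short_piece` (for `x = v`) there is an `F₁`-path of length `≤ L` from `v` to `u ∈ W` all of whose vertices except `u` are reachable from `v`
  in `drop F₁ W`, so are in `Sel`; it is a path in `J`; `u ∉ T2 J`.  `T2X_bound` with `X = Sel \ (cyc J).support`:
  `s₀ #X ≤ s₀ L #ent ≤ 6 L n`.
-/

namespace Pool.Agent.H40.CM

open SimpleGraph Pool.Agent.H40.CK

variable {V : Type*}

/-- The selected vertices. -/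
def Sel (F₁ F₂ : SimpleGraph V) (L : ℕ) (g : V → V) : Set V :=
  {v | v ∈ F₁.support ∧ v ∉ F₂.support ∧ csz (drop F₁ F₂.support) v ≤ L ∧
    ∀ v' w, (drop F₁ F₂.support).Reachable v v' → w ∈ F₂.support → F₁.Adj w v' → g w = v'}

/-- `F₂` together with the selected pieces of `F₁`. -/
def selJ (F₁ F₂ : SimpleGraph V) (L : ℕ) (g : V → V) : SimpleGraph V where
  Adj a b := F₂.Adj a b ∨ (F₁.Adj a b ∧ (a ∈ Sel F₁ F₂ L g ∨ b ∈ Sel F₁ F₂ L g))
  symm := ⟨fun _ _ h => h.elim (fun h => Or.inl h.symm) (fun h => Or.inr ⟨h.1.symm, h.2.symm⟩)⟩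
  loopless := ⟨fun _ h => h.elim (fun h => h.ne rfl) (fun h => h.1.ne rfl)⟩

/-- `Sel` is closed under adjacency in `drop F₁ W`. -/
private theorem X1c_closed {F₁ F₂ : SimpleGraph V} {L : ℕ} {g : V → V} {v w : V}
    (hv : v ∈ Sel F₁ F₂ L g) (hvw : (drop F₁ F₂.support).Adj v w) : w ∈ Sel F₁ F₂ L g := by
  obtain ⟨h1, h2, h3, h4⟩ := hv
  refine ⟨⟨v, hvw.1.symm⟩, hvw.2.2, ?_, ?_⟩
  · have h5 : csz (drop F₁ F₂.support) w = csz (drop F₁ F₂.support) v := by
      unfold csz
      congr 1
      ext z
      exact ⟨fun h => hvw.reachable.trans h, fun h => hvw.symm.reachable.trans h⟩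
    rw [h5]; exact h3
  · intro v' w' h5 h6 h7
    exact h4 v' w' (hvw.reachable.trans h5) h6 h7

private theorem X1c_reach {F₁ F₂ : SimpleGraph V} {L : ℕ} {g : V → V} {v w : V}
    (hv : v ∈ Sel F₁ F₂ L g) (hvw : (drop F₁ F₂.support).Reachable v w) :
    w ∈ Sel F₁ F₂ L g := by
  obtain ⟨p⟩ := hvw
  induction p with
  | nil => exact hv
  | cons hab p ih => exact ih (X1c_closed hv hab)

/-- All nontrivial components of `cyc G` have at least `s` vertices if `G` has no short cycle. -/
private theorem X1c_small [Finite V] {G : SimpleGraph V} {s : ℕ}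
    (hno : ∀ (u : V) (C : G.Walk u u), C.IsCycle → s < C.length) :
    s * smallK G ≤ Nat.card V := by
  classical
  letI := Fintype.ofFinite V
  letI : Fintype (cyc G).ConnectedComponent := Fintype.ofFinite _
  set T : Finset (cyc G).ConnectedComponent :=
    Finset.univ.filter (fun κ => κ.supp.Nontrivial ∧ bdeg G κ ≤ 2) with hT
  have hTc : smallK G = T.card := by
    unfold smallK
    rw [← Set.ncard_coe_finset, hT]
    congr 1
    ext κ
    simp
  set A : Finset V := Finset.univ.filter (fun v => (cyc G).connectedComponentMk v ∈ T) with hA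
  have h1 : s * T.card ≤ A.card := by
    refine Finset.mul_card_image_le_card_of_maps_to
      (f := fun v => (cyc G).connectedComponentMk v) (fun v hv => (Finset.mem_filter.1 hv).2) s ?_
    intro κ hκ
    have hκ' : κ.supp.Nontrivial := (Finset.mem_filter.1 hκ).2.1
    obtain ⟨v, hv, w, hw, hvw⟩ := hκ'
    rw [ConnectedComponent.mem_supp_iff] at hv hw
    have hr : (cyc G).Reachable v w := by
      rw [← ConnectedComponent.eq, hv, hw]
    obtain ⟨p⟩ := hr
    cases p with
    | nil => exact absurd rfl hvw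
    | @cons _ b _ hab p =>
      obtain ⟨C, hC, -⟩ := cyc_cycle hab
      have h2 : s < C.length := by
        have := hno v (C.mapLe (cyc_le G)) (hC.mapLe (cyc_le G))
        simpa using this
      have h3 : C.support.tail.toFinset ⊆ A.filter (fun v => (cyc G).connectedComponentMk v = κ) := by
        intro z hz
        rw [List.mem_toFinset] at hz
        have hz' : z ∈ C.support := List.mem_of_mem_tail hz
        have h4 : (cyc G).connectedComponentMk z = κ := by
          rw [← hv, ConnectedComponent.eq]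
          exact (C.takeUntil z hz').reachable.symm
        rw [Finset.mem_filter, hA, Finset.mem_filter]
        exact ⟨⟨Finset.mem_univ _, by rw [h4]; exact hκ⟩, h4⟩
      have h5 := Finset.card_le_card h3
      rw [List.toFinset_card_of_nodup hC.support_nodup, List.length_tail, Walk.length_support] at h5
      have h6 : C.length + 1 - 1 = C.length := by omega
      rw [h6] at h5
      exact h2.le.trans h5
  rw [hTc]
  refine h1.trans ?_
  rw [Nat.card_eq_fintype_card, ← Finset.card_univ]
  exact Finset.card_le_card (Finset.filter_subset _ _)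

theorem J_facts [Finite V] {F₁ F₂ : SimpleGraph V} (h₁ : F₁.IsCycles) (h₂ : F₂.IsCycles)
    {L s₀ : ℕ} (hL : L + 1 ≤ s₀)
    (hno : ∀ (u : V) (C : (F₁ ⊔ F₂).Walk u u), C.IsCycle → s₀ < C.length) (g : V → V) :
    selJ F₁ F₂ L g ≤ F₁ ⊔ F₂ ∧ (∀ v, ((selJ F₁ F₂ L g).neighborSet v).ncard ≤ 3) ∧
      F₂.support ⊆ (cyc (selJ F₁ F₂ L g)).support ∧
      s₀ * (Sel F₁ F₂ L g \ (cyc (selJ F₁ F₂ L g)).support).ncard ≤ 6 * L * Nat.card V := by
  classical
  have hcard1 : ∀ v, (F₁.neighborSet v).ncard ≤ 2 := by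
    intro v
    rcases (F₁.neighborSet v).eq_empty_or_nonempty with h | h
    · rw [h]; simp
    · exact (h₁ h).le
  have hcard2 : ∀ v, (F₂.neighborSet v).ncard ≤ 2 := by
    intro v
    rcases (F₂.neighborSet v).eq_empty_or_nonempty with h | h
    · rw [h]; simp
    · exact (h₂ h).le
  have hJle : selJ F₁ F₂ L g ≤ F₁ ⊔ F₂ := by
    intro a b h
    rcases h with h | h
    · exact Or.inr h
    · exact Or.inl h.1
  have hF2J : F₂ ≤ selJ F₁ F₂ L g := fun a b h => Or.inl h
  have hsup : F₂.support ⊆ (cyc (selJ F₁ F₂ L g)).support := by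
    intro v hv
    obtain ⟨C, hC, -, -, hCe⟩ := comp_cycle h₂ hF2J hv
    obtain ⟨w, hw⟩ := hv
    refine ⟨w, v, C, hC, (hCe _).2 ⟨hw, ?_⟩⟩
    intro z hz
    rcases Sym2.mem_iff.1 hz with rfl | rfl
    · exact Reachable.refl _
    · exact hw.reachable
  refine ⟨hJle, ?_, hsup, ?_⟩
  · intro v
    by_cases hv : v ∈ F₂.support
    · have h1 : (selJ F₁ F₂ L g).neighborSet v ⊆ F₂.neighborSet v ∪ {g v} := by
        intro b hb
        rcases hb with hb | ⟨hb1, hb2⟩
        · exact Or.inl hb
        · right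
          rcases hb2 with hb2 | hb2
          · exact absurd hv hb2.2.1
          · exact (hb2.2.2.2 b v (Reachable.refl _) hv hb1).symm
      refine (Set.ncard_le_ncard h1 (Set.toFinite _)).trans ?_
      refine (Set.ncard_union_le _ _).trans ?_
      rw [Set.ncard_singleton]
      have := hcard2 v
      omega
    · have h1 : (selJ F₁ F₂ L g).neighborSet v ⊆ F₁.neighborSet v := by
        intro b hb
        rcases hb with hb | hb
        · exact absurd ⟨b, hb⟩ hv
        · exact hb.1
      have h2 := Set.ncard_le_ncard h1 (Set.toFinite _)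
      have h3 := hcard1 v
      omega
  · have hdeg2 : ∀ v ∈ Sel F₁ F₂ L g, ((selJ F₁ F₂ L g).neighborSet v).ncard = 2 := by
      intro v hv
      have h1 : (selJ F₁ F₂ L g).neighborSet v = F₁.neighborSet v := by
        ext b
        constructor
        · rintro (hb | hb)
          · exact absurd ⟨b, hb⟩ hv.2.1
          · exact hb.1
        · intro hb
          exact Or.inr ⟨hb, Or.inl hv⟩
      rw [h1]
      exact h₁ hv.1
    have hT1 : T1 (selJ F₁ F₂ L g) = ∅ := by
      rw [Set.eq_empty_iff_forall_notMem]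
      rintro v ⟨hv1, hv2⟩
      have hvW : v ∉ F₂.support := fun h => hv1 (hsup h)
      by_cases hvS : v ∈ Sel F₁ F₂ L g
      · rw [hdeg2 v hvS] at hv2; omega
      · have h1 : (selJ F₁ F₂ L g).neighborSet v = ∅ := by
          rw [Set.eq_empty_iff_forall_notMem]
          rintro b (hb | ⟨hb1, hb2⟩)
          · exact hvW ⟨b, hb⟩
          · rcases hb2 with hb2 | hb2
            · exact hvS hb2
            · exact hvS (X1c_closed hb2 ⟨hb1.symm, hb2.2.1, hvW⟩)
        rw [h1, Set.ncard_empty] at hv2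
        omega
    have hsmall : s₀ * smallK (selJ F₁ F₂ L g) ≤ Nat.card V := by
      refine X1c_small ?_
      intro u C hC
      have := hno u (C.mapLe hJle) (hC.mapLe hJle)
      simpa using this
    have hent := (dart_counts (selJ F₁ F₂ L g)).2.2
    rw [hT1, Set.ncard_empty, mul_zero, zero_add] at hent
    have hno1 : ∀ (u : V) (C : F₁.Walk u u), C.IsCycle → s₀ < C.length := by
      intro u C hC
      have := hno u (C.mapLe le_sup_left) (hC.mapLe le_sup_left)
      simpa using this
    have hX := T2X_bound (G := selJ F₁ F₂ L g) (m := L)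
      (Sel F₁ F₂ L g \ (cyc (selJ F₁ F₂ L g)).support)
      (fun v hv => ⟨hv.2, hdeg2 v hv.1⟩) (by
        rintro x ⟨hx, -⟩
        obtain ⟨u, a, u', a', -, huW, -, -, -, -, -, -, P, hP, hPl, hPs⟩ :=
          short_piece h₁ F₂.support hL hno1 hx.1 hx.2.1 hx.2.2.1
        have hPe : ∀ e ∈ P.edges, e ∈ (selJ F₁ F₂ L g).edgeSet := by
          intro e he
          induction e with
          | h b c =>
            have hbc : F₁.Adj b c := P.adj_of_mem_edges he
            refine Or.inr ⟨hbc, ?_⟩
            by_cases hb : b = u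
            · right
              have hc : c ≠ u := fun h => hbc.ne (hb.trans h.symm)
              exact X1c_reach hx (hPs c (P.snd_mem_support_of_mem_edges he) hc)
            · left
              exact X1c_reach hx (hPs b (P.fst_mem_support_of_mem_edges he) hb)
        refine ⟨u, P.transfer _ hPe, hP.transfer hPe, by simpa using hPl, ?_⟩
        intro hu
        exact hu.1 (hsup huW))
    calc s₀ * (Sel F₁ F₂ L g \ (cyc (selJ F₁ F₂ L g)).support).ncard
        ≤ s₀ * (L * (6 * smallK (selJ F₁ F₂ L g))) :=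
          Nat.mul_le_mul_left _ (hX.trans (Nat.mul_le_mul_left _ hent))
      _ = 6 * L * (s₀ * smallK (selJ F₁ F₂ L g)) := by ring
      _ ≤ 6 * L * Nat.card V := Nat.mul_le_mul_left _ hsmall

end Pool.Agent.H40.CM
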