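import Pool.Agent.H40.CK.B10
import Pool.Agent.H40.CM.X1c

/-!
# CM / X1: matching edges starting in short pieces

`n = Nat.card V`, `W = F₂.support`.  Let `X` be the set of ends `x` of `M`-edges `x y` with `x ∈ F₁.support \ W`,
`y ∈ W`, `y ∉ F₁.support`, `csz (drop F₁ W) x ≤ L`.  Every `M`-edge has exactly one end in `X` (`hends`; its other end is in `W`), and
`M` is a matching, so `#X = #M ≥ θ n`.
`exists_selection` gives `g` with `#X ≤ 4 #X'`, `X' = {x ∈ X | ...} ⊆ Sel F₁ F₂ L g`.  `J = selJ F₁ F₂ L g`, `H = cyc J`.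
`𝒢` = the `M`-edges with an end in `X' ∩ H.support` (the other end is in `W ⊆ H.support`).  An `M`-edge is neither in `F₁` (its end `y`
is not in `F₁.support`) nor in `F₂` (`x ∉ F₂.support`), so not in `H ≤ J ≤ F₁ ⊔ F₂`.
`#𝒢 ≥ #X' - #(Sel \ H.support) ≥ θ n / 4 - 6 L n / s₀ ≥ θ n / 8` as `48 L / θ ≤ s₀`.
`random_even H` (CK/B10.lean; `H`-degrees are `≤ 3`, `cyc_cycle`) gives `F ≤ H`, `F.IsCycles`, with at least `#𝒢 / 8 ≥ θ n / 64` edges of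
`𝒢` in `free M F`.  `rich_of_free` with `θ / 64`, `s₀` (cycles of `F` are cycles of `F₁ ⊔ F₂`).
-/

namespace Pool.Agent.H40.CM

open SimpleGraph Pool.Agent.H40.CK

variable {V : Type*}

private theorem X1_uniq {M : SimpleGraph V} (hM : IsMatch M) {x : V} {e e' : Sym2 V}
    (he : e ∈ M.edgeSet) (he' : e' ∈ M.edgeSet) (hx : x ∈ e) (hx' : x ∈ e') : e = e' := by
  obtain ⟨a, rfl⟩ := Sym2.mem_iff_exists.1 hx
  obtain ⟨b, rfl⟩ := Sym2.mem_iff_exists.1 hx'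
  rw [hM x a b he he']

theorem cross_short [Finite V] [Nonempty V] (θ : ℝ) (hθ : 0 < θ) (hθ1 : θ ≤ 1) {L s₀ : ℕ}
    (hL : L + 1 ≤ s₀) (hs₀ : 48 * (L : ℝ) / θ ≤ (s₀ : ℝ))
    (hs₁ : 10 ^ 8 / (θ / 64) ^ 4 ≤ (s₀ : ℝ)) {F₁ F₂ M G : SimpleGraph V} (h₁ : F₁.IsCycles)
    (h₂ : F₂.IsCycles) (hM : IsMatch M)
    (hno : ∀ (u : V) (C : (F₁ ⊔ F₂).Walk u u), C.IsCycle → s₀ < C.length)
    (hends : ∀ x y, M.Adj x y →
      (x ∈ F₁.support ∧ x ∉ F₂.support ∧ y ∈ F₂.support ∧ y ∉ F₁.support ∧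
        csz (drop F₁ F₂.support) x ≤ L) ∨
      (y ∈ F₁.support ∧ y ∉ F₂.support ∧ x ∈ F₂.support ∧ x ∉ F₁.support ∧
        csz (drop F₁ F₂.support) y ≤ L))
    (hdens : θ * (Nat.card V : ℝ) ≤ (M.edgeSet.ncard : ℝ)) (hFG : F₁ ⊔ F₂ ≤ G) (hMG : M ≤ G) :
    ∃ (u : V) (C : G.Walk u u), C.IsCycle ∧
      θ / 512 * (C.length : ℝ) ≤ ((chords G C).ncard : ℝ) := by
  classical
  set W : Set V := F₂.support with hW
  set n : ℝ := (Nat.card V : ℝ) with hn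
  have hn0 : 0 < n := by rw [hn]; exact_mod_cast Nat.card_pos
  have hs0 : 1 ≤ s₀ := by omega
  have hs0' : (0 : ℝ) < (s₀ : ℝ) := by exact_mod_cast hs0
  have hno1 : ∀ (u : V) (C : F₁.Walk u u), C.IsCycle → s₀ < C.length := by
    intro u C hC
    have := hno u (C.mapLe le_sup_left) (hC.mapLe le_sup_left)
    simpa using this
  -- the ends in short pieces
  set X : Set V := {x | ∃ y, M.Adj x y ∧ x ∈ F₁.support ∧ x ∉ W ∧ y ∈ W ∧ y ∉ F₁.support ∧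
    csz (drop F₁ W) x ≤ L} with hX
  have hMX : ∀ e ∈ M.edgeSet, ∃ x ∈ e, x ∈ X := by
    intro e he
    induction e with
    | h x y =>
      have hxy : M.Adj x y := he
      rcases hends x y hxy with ⟨h1, h2, h3, h4, h5⟩ | ⟨h1, h2, h3, h4, h5⟩
      · exact ⟨x, by simp, y, hxy, h1, h2, h3, h4, h5⟩
      · exact ⟨y, by simp, x, hxy.symm, h1, h2, h3, h4, h5⟩
  have hXM : M.edgeSet.ncard ≤ X.ncard := by
    have hMX' : ∀ e : Sym2 V, ∃ x, e ∈ M.edgeSet → x ∈ e ∧ x ∈ X := by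
      intro e
      by_cases he : e ∈ M.edgeSet
      · obtain ⟨x, h1, h2⟩ := hMX e he
        exact ⟨x, fun _ => ⟨h1, h2⟩⟩
      · exact ⟨Classical.arbitrary V, fun h => absurd h he⟩
    choose f hf using hMX'
    refine Set.ncard_le_ncard_of_injOn f (fun e he => (hf e he).2) ?_ (Set.toFinite _)
    intro e he e' he' hee
    exact X1_uniq hM he he' (hf e he).1 (hee ▸ (hf e' he').1)
  obtain ⟨g, hg⟩ := exists_selection h₁ W hL hno1 X (by
    rintro x ⟨y, -, h1, h2, -, -, h3⟩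
    exact ⟨h1, h2, h3⟩)
  set X' : Set V := {x | x ∈ X ∧ ∀ v w, (drop F₁ W).Reachable x v → w ∈ W → F₁.Adj w v → g w = v}
    with hX'
  have hX'Sel : X' ⊆ Sel F₁ F₂ L g := by
    rintro x ⟨⟨y, -, h1, h2, -, -, h3⟩, h4⟩
    exact ⟨h1, h2, h3, h4⟩
  obtain ⟨hJle, hJdeg, hJsup, hJcount⟩ := J_facts h₁ h₂ hL hno g
  set J : SimpleGraph V := selJ F₁ F₂ L g with hJ
  set H : SimpleGraph V := cyc J with hH
  have hHJ : H ≤ J := cyc_le J
  set 𝒢 : Set (Sym2 V) := {e | e ∈ M.edgeSet ∧ ∃ x ∈ e, x ∈ X' ∧ x ∈ H.support} with h𝒢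
  -- the number of good edges
  have hG1 : (X' ∩ H.support).ncard ≤ 𝒢.ncard := by
    have h1 : ∀ x, ∃ y, x ∈ X → M.Adj x y ∧ y ∈ W := by
      intro x
      by_cases hx : x ∈ X
      · obtain ⟨y, h1, -, -, h2, -, -⟩ := hx
        exact ⟨y, fun _ => ⟨h1, h2⟩⟩
      · exact ⟨x, fun h => absurd h hx⟩
    choose y hy using h1
    refine Set.ncard_le_ncard_of_injOn (fun x => s(x, y x)) ?_ ?_ (Set.toFinite _)
    · rintro x ⟨hx, hxH⟩
      exact ⟨(hy x hx.1).1, x, by simp, hx, hxH⟩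
    · rintro x ⟨hx, -⟩ x' ⟨hx', -⟩ hxx
      simp only [Sym2.eq_iff] at hxx
      rcases hxx with h | h
      · exact h.1
      · exfalso
        obtain ⟨-, -, -, h2, -⟩ := hx.1
        exact h2 (h.1 ▸ (hy x' hx'.1).2)
  have hG2 : X'.ncard ≤ (X' ∩ H.support).ncard + (Sel F₁ F₂ L g \ H.support).ncard := by
    have h1 : X' ⊆ (X' ∩ H.support) ∪ (Sel F₁ F₂ L g \ H.support) := by
      intro x hx
      by_cases h : x ∈ H.support
      · exact Or.inl ⟨hx, h⟩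
      · exact Or.inr ⟨hX'Sel hx, h⟩
    exact (Set.ncard_le_ncard h1 (Set.toFinite _)).trans (Set.ncard_union_le _ _)
  have hG3 : (((Sel F₁ F₂ L g \ H.support).ncard : ℕ) : ℝ) ≤ θ / 8 * n := by
    have h1 : (s₀ : ℝ) * ((Sel F₁ F₂ L g \ H.support).ncard : ℝ) ≤ 6 * L * n := by
      rw [hn]; exact_mod_cast hJcount
    have h2 : 48 * (L : ℝ) ≤ θ * s₀ := by
      rw [div_le_iff₀ hθ] at hs₀
      linarith
    have h3 : 6 * L * n ≤ (s₀ : ℝ) * (θ / 8 * n) := by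
      have : 48 * (L : ℝ) * n ≤ θ * s₀ * n := mul_le_mul_of_nonneg_right h2 hn0.le
      linarith
    exact le_of_mul_le_mul_left (h1.trans h3) hs0'
  have hG4 : θ / 8 * n ≤ (𝒢.ncard : ℝ) := by
    have h1 : θ * n ≤ (X.ncard : ℝ) := hdens.trans (by exact_mod_cast hXM)
    have h2 : (X.ncard : ℝ) ≤ 4 * (X'.ncard : ℝ) := by exact_mod_cast hg
    have h3 : (X'.ncard : ℝ) ≤ ((X' ∩ H.support).ncard : ℝ) +
        ((Sel F₁ F₂ L g \ H.support).ncard : ℝ) := by exact_mod_cast hG2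
    have h4 : ((X' ∩ H.support).ncard : ℝ) ≤ (𝒢.ncard : ℝ) := by exact_mod_cast hG1
    linarith
  -- ends of good edges
  have hGend : ∀ e ∈ 𝒢, ∃ x y, e = s(x, y) ∧ M.Adj x y ∧ x ∈ X' ∧ x ∈ H.support ∧ x ∉ W ∧
      y ∈ W ∧ y ∉ F₁.support := by
    rintro e ⟨he, x, hxe, hx, hxH⟩
    obtain ⟨y, rfl⟩ := Sym2.mem_iff_exists.1 hxe
    obtain ⟨y', h1, -, h2, h3, h4, -⟩ := hx.1
    have hyy : y = y' := hM x y y' he h1
    subst hyy
    exact ⟨x, y, rfl, he, hx, hxH, h2, h3, h4⟩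
  obtain ⟨F, hFH, hFc, hFcount⟩ := random_even H
    (fun v => (Set.ncard_le_ncard (fun w hw => hHJ hw) (Set.toFinite _)).trans (hJdeg v))
    (fun u v huv => by
      obtain ⟨C, hC, he⟩ := cyc_cycle huv
      exact ⟨u, C, hC, he⟩)
    𝒢 (fun e he => M.not_isDiag_of_mem_edgeSet he.1)
    (fun e he z hz => by
      obtain ⟨x, y, rfl, -, -, hxH, -, hyW, -⟩ := hGend e he
      rcases Sym2.mem_iff.1 hz with rfl | rfl
      · exact hxH
      · exact hJsup hyW)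
    (fun e he => by
      left
      intro heH
      obtain ⟨x, y, rfl, -, -, -, hxW, -, hyF⟩ := hGend e he
      have h1 : (F₁ ⊔ F₂).Adj x y := hJle (hHJ heH)
      rcases h1 with h1 | h1
      · exact hyF ⟨x, h1.symm⟩
      · exact hxW ⟨y, h1⟩)
  have hFle : F ≤ F₁ ⊔ F₂ := hFH.trans (hHJ.trans hJle)
  have hfree : (({e | e ∈ 𝒢 ∧ e ∉ F.edgeSet ∧ ∀ z ∈ e, z ∈ F.support} : Set (Sym2 V)).ncard : ℝ) ≤
      ((free M F).ncard : ℝ) := by
    have h1 : ({e | e ∈ 𝒢 ∧ e ∉ F.edgeSet ∧ ∀ z ∈ e, z ∈ F.support} : Set (Sym2 V)) ⊆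
        free M F := by
      rintro e ⟨h1, h2, h3⟩
      exact ⟨h1.1, h2, h3⟩
    exact_mod_cast Set.ncard_le_ncard h1 (Set.toFinite _)
  obtain ⟨u, C, hC, hCc⟩ := rich_of_free (G := G) (F := F) (M := M) (θ / 64) (by positivity)
    (by linarith) s₀ hFc hM (hFle.trans hFG) hMG
    (by
      intro u C hC
      have := hno u (C.mapLe hFle) (hC.mapLe hFle)
      have h2 : s₀ < C.length := by simpa using this
      exact h2.le)
    (by
      have h1 : (𝒢.ncard : ℝ) ≤ 8 * (({e | e ∈ 𝒢 ∧ e ∉ F.edgeSet ∧ ∀ z ∈ e, z ∈ F.support} :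
        Set (Sym2 V)).ncard : ℝ) := by exact_mod_cast hFcount
      rw [← hn]
      linarith) hs₁
  refine ⟨u, C, hC, le_trans (le_of_eq ?_) hCc⟩
  ring

end Pool.Agent.H40.CM
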