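import Pool.Agent.H40.CK.A7d
import Pool.Agent.H40.CM.P3
import Pool.Agent.H40.CM.X1

/-!
# CM / X2: two disjoint unions of cycles and a matching between them
-/

namespace Pool.Agent.H40.CM

open SimpleGraph Pool.Agent.H40.CK

universe u

theorem Long.mono {V : Type*} {P : SimpleGraph V} {L L' : ℕ} (h : Long P L') (hL : L ≤ L') :
    Long P L := fun v hv => hL.trans (h v hv)

theorem csz_mono {V : Type*} [Finite V] {P Q : SimpleGraph V} (h : P ≤ Q) (v : V) :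
    csz P v ≤ csz Q v :=
  Set.ncard_le_ncard (fun _ hw => Reachable.mono h hw) (Set.toFinite _)

/-- The part of `F` outside `W` consisting of components with more than `L` vertices. -/
def longPart {V : Type*} (F : SimpleGraph V) (W : Set V) (L : ℕ) : SimpleGraph V :=
  drop (drop F W) {x | csz (drop F W) x ≤ L}

theorem longPart_adj {V : Type*} {F : SimpleGraph V} {W : Set V} {L : ℕ} {a b : V} :
    (longPart F W L).Adj a b ↔ F.Adj a b ∧ a ∉ W ∧ b ∉ W ∧ L < csz (drop F W) a := by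
  constructor
  · rintro ⟨⟨h1, h2, h3⟩, h4, -⟩
    exact ⟨h1, h2, h3, not_le.1 h4⟩
  · rintro ⟨h1, h2, h3, h4⟩
    have h5 : (drop F W).Adj a b := ⟨h1, h2, h3⟩
    refine ⟨h5, not_le.2 h4, ?_⟩
    rw [Set.mem_ofPred_eq, ← csz_eq_of_reachable h5.reachable]
    exact not_le.2 h4

theorem longPart_csz {V : Type*} [Finite V] {F : SimpleGraph V} {W : Set V} {L : ℕ} {a b : V}
    (h : (longPart F W L).Adj a b) : L ≤ csz (longPart F W L) a := by
  have h1 : csz (longPart F W L) a = csz (drop F W) a := by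
    refine csz_drop ?_ h.2.1
    intro x y hxy hx
    rw [Set.mem_ofPred_eq, ← csz_eq_of_reachable hxy.reachable]
    exact hx
  rw [h1]
  exact (longPart_adj.1 h).2.2.2.le

theorem mem_longPart {V : Type*} [Finite V] {F : SimpleGraph V} {W : Set V} {L : ℕ} (hL : 1 ≤ L)
    {x : V} (h : L < csz (drop F W) x) : x ∈ (longPart F W L).support := by
  have h1 : 1 < ({w | (drop F W).Reachable x w} : Set V).ncard := by
    have : csz (drop F W) x = ({w | (drop F W).Reachable x w} : Set V).ncard := rfl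
    omega
  obtain ⟨w, hw, hwx⟩ := Set.exists_ne_of_one_lt_ncard h1 x
  obtain ⟨p⟩ : (drop F W).Reachable x w := hw
  cases p with
  | nil => exact absurd rfl hwx
  | cons hadj _ =>
    exact ⟨_, longPart_adj.2 ⟨hadj.1, hadj.2.1, hadj.2.2, h⟩⟩

theorem cross (θ : ℝ) (hθ : 0 < θ) (hθ1 : θ ≤ 1) :
    ∃ (s₀ : ℕ) (c : ℝ), 1 ≤ s₀ ∧ 0 < c ∧ ∀ {V : Type u} [Finite V] [Nonempty V]
      (F₁ F₂ M G : SimpleGraph V),
      F₁.IsCycles → F₂.IsCycles → IsMatch M →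
      (∀ (u : V) (C : (F₁ ⊔ F₂).Walk u u), C.IsCycle → s₀ < C.length) →
      (∀ x y, M.Adj x y → ¬ F₁.Adj x y ∧ ¬ F₂.Adj x y) →
      (∀ x y, M.Adj x y → (x ∈ F₁.support ∧ y ∈ F₂.support) ∨
        (y ∈ F₁.support ∧ x ∈ F₂.support)) →
      θ * (Nat.card V : ℝ) ≤ (M.edgeSet.ncard : ℝ) → F₁ ⊔ F₂ ≤ G → M ≤ G →
      ∃ (u : V) (C : G.Walk u u), C.IsCycle ∧ c * (C.length : ℝ) ≤ ((chords G C).ncard : ℝ) := by
  obtain ⟨θ', hθ'⟩ : ∃ θ' : ℝ, θ' = θ / 5 := ⟨_, rfl⟩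
  have hθ'0 : 0 < θ' := by rw [hθ']; positivity
  have hθ'1 : θ' ≤ 1 := by rw [hθ']; linarith
  obtain ⟨L₀, hL₀⟩ := lemmaP.{u} θ' hθ'0 hθ'1
  obtain ⟨L, hL⟩ : ∃ L : ℕ, L = L₀ + 1 := ⟨_, rfl⟩
  obtain ⟨s₁, hs₁⟩ := exists_nat_ge (48 * (L : ℝ) / θ')
  obtain ⟨s₂, hs₂⟩ := exists_nat_ge ((10 : ℝ) ^ 8 / (θ' / 64) ^ 4)
  obtain ⟨s₀, hs₀⟩ : ∃ s₀ : ℕ, s₀ = L + 1 + s₁ + s₂ := ⟨_, rfl⟩
  have hs₀1 : 48 * (L : ℝ) / θ' ≤ (s₀ : ℝ) := by
    refine hs₁.trans ?_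
    have : s₁ ≤ s₀ := by omega
    exact_mod_cast this
  have hs₀2 : (10 : ℝ) ^ 8 / (θ' / 64) ^ 4 ≤ (s₀ : ℝ) := by
    refine hs₂.trans ?_
    have : s₂ ≤ s₀ := by omega
    exact_mod_cast this
  have hs₀3 : (10 : ℝ) ^ 8 / θ' ^ 4 ≤ (s₀ : ℝ) := by
    refine le_trans ?_ hs₀2
    gcongr
    linarith
  refine ⟨s₀, θ' / 512, by omega, by positivity, ?_⟩
  intro V _ _ F₁ F₂ M G h₁ h₂ hM hno hdisj hends hdens hFG hMG
  classical
  have hno₁ : ∀ (u : V) (C : F₁.Walk u u), C.IsCycle → s₀ < C.length := by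
    intro u C hC
    have := hno u (C.mapLe le_sup_left) (hC.mapLe _)
    simpa using this
  have hno₂ : ∀ (u : V) (C : F₂.Walk u u), C.IsCycle → s₀ < C.length := by
    intro u C hC
    have := hno u (C.mapLe le_sup_right) (hC.mapLe _)
    simpa using this
  have hno' : ∀ (u : V) (C : (F₂ ⊔ F₁).Walk u u), C.IsCycle → s₀ < C.length := by
    intro u C hC
    have := hno u (C.mapLe (le_of_eq (sup_comm F₂ F₁))) (hC.mapLe _)
    simpa using this
  -- the cycle found in each case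
  have weaken : ∀ a : ℝ, θ' / 512 ≤ a → (∃ (u : V) (C : G.Walk u u), C.IsCycle ∧
      a * (C.length : ℝ) ≤ ((chords G C).ncard : ℝ)) →
      ∃ (u : V) (C : G.Walk u u), C.IsCycle ∧
        θ' / 512 * (C.length : ℝ) ≤ ((chords G C).ncard : ℝ) := by
    rintro a ha ⟨u, C, hC, hc⟩
    refine ⟨u, C, hC, le_trans ?_ hc⟩
    have h6 : (0 : ℝ) ≤ (C.length : ℝ) := Nat.cast_nonneg _
    exact mul_le_mul_of_nonneg_right ha h6
  -- the five classes
  let Sa : Set (Sym2 V) := {e | e ∈ M.edgeSet ∧ ∀ z ∈ e, z ∈ F₁.support}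
  let Sb : Set (Sym2 V) := {e | e ∈ M.edgeSet ∧ ∀ z ∈ e, z ∈ F₂.support}
  let Q : V → V → Prop := fun x y => M.Adj x y ∧ x ∈ F₁.support ∧ x ∉ F₂.support ∧
    y ∈ F₂.support ∧ y ∉ F₁.support
  let Sc : Set (Sym2 V) := {e | ∃ x y, e = s(x, y) ∧ Q x y ∧ csz (drop F₁ F₂.support) x ≤ L}
  let Sd : Set (Sym2 V) := {e | ∃ x y, e = s(x, y) ∧ Q x y ∧ csz (drop F₂ F₁.support) y ≤ L}
  let Se : Set (Sym2 V) := {e | ∃ x y, e = s(x, y) ∧ Q x y ∧
    L < csz (drop F₁ F₂.support) x ∧ L < csz (drop F₂ F₁.support) y}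
  have hcov : M.edgeSet ⊆ Sa ∪ (Sb ∪ (Sc ∪ (Sd ∪ Se))) := by
    intro e he
    induction e with
    | h x y =>
      rw [mem_edgeSet] at he
      have key : ∀ x y, M.Adj x y → x ∈ F₁.support → y ∈ F₂.support →
          s(x, y) ∈ Sa ∪ (Sb ∪ (Sc ∪ (Sd ∪ Se))) := by
        intro x y he hx hy
        by_cases hy1 : y ∈ F₁.support
        · refine Or.inl ⟨he, fun z hz => ?_⟩
          rcases Sym2.mem_iff.1 hz with rfl | rfl <;> assumption
        by_cases hx1 : x ∈ F₂.support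
        · refine Or.inr (Or.inl ⟨he, fun z hz => ?_⟩)
          rcases Sym2.mem_iff.1 hz with rfl | rfl <;> assumption
        have hQ : Q x y := ⟨he, hx, hx1, hy, hy1⟩
        by_cases hc : csz (drop F₁ F₂.support) x ≤ L
        · exact Or.inr (Or.inr (Or.inl ⟨x, y, rfl, hQ, hc⟩))
        by_cases hd : csz (drop F₂ F₁.support) y ≤ L
        · exact Or.inr (Or.inr (Or.inr (Or.inl ⟨x, y, rfl, hQ, hd⟩)))
        exact Or.inr (Or.inr (Or.inr (Or.inr ⟨x, y, rfl, hQ, not_le.1 hc, not_le.1 hd⟩)))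
      rcases hends x y he with ⟨hx, hy⟩ | ⟨hy, hx⟩
      · exact key x y he hx hy
      · rw [Sym2.eq_swap]
        exact key y x he.symm hy hx
  have hsum : M.edgeSet.ncard ≤ Sa.ncard + (Sb.ncard + (Sc.ncard + (Sd.ncard + Se.ncard))) := by
    refine (Set.ncard_le_ncard hcov (Set.toFinite _)).trans ?_
    refine (Set.ncard_union_le _ _).trans (Nat.add_le_add_left ?_ _)
    refine (Set.ncard_union_le _ _).trans (Nat.add_le_add_left ?_ _)
    refine (Set.ncard_union_le _ _).trans (Nat.add_le_add_left ?_ _)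
    exact Set.ncard_union_le _ _
  have hsum' : (M.edgeSet.ncard : ℝ) ≤ (Sa.ncard : ℝ) + ((Sb.ncard : ℝ) + ((Sc.ncard : ℝ) +
      ((Sd.ncard : ℝ) + (Se.ncard : ℝ)))) := by
    exact_mod_cast hsum
  -- restricting `M`
  have hrest : ∀ S : Set (Sym2 V), S ⊆ M.edgeSet →
      (fromEdgeSet S).edgeSet = S ∧ fromEdgeSet S ≤ M ∧ IsMatch (fromEdgeSet S) := by
    intro S hS
    have h1 : fromEdgeSet S ≤ M := by
      intro x y hxy
      rw [fromEdgeSet_adj] at hxy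
      exact hS hxy.1
    refine ⟨?_, h1, isMatch_mono h1 hM⟩
    rw [edgeSet_fromEdgeSet]
    ext e
    exact ⟨fun h => h.1, fun h => ⟨h, M.not_isDiag_of_mem_edgeSet (hS h)⟩⟩
  by_cases hca : θ' * (Nat.card V : ℝ) ≤ (Sa.ncard : ℝ)
  · have hS : Sa ⊆ M.edgeSet := fun e he => he.1
    obtain ⟨hr1, hr2, hr3⟩ := hrest Sa hS
    refine weaken _ (by linarith) (rich_of_free (M := fromEdgeSet Sa) θ' hθ'0 hθ'1 s₀ h₁ hr3
      (le_sup_left.trans hFG) (hr2.trans hMG) (fun u C hC => (hno₁ u C hC).le) ?_ hs₀3)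
    refine hca.trans ?_
    have : Sa ⊆ free (fromEdgeSet Sa) F₁ := by
      intro e he
      refine ⟨by rw [hr1]; exact he, ?_, he.2⟩
      induction e with
      | h x y => exact (hdisj x y he.1).1
    exact_mod_cast Set.ncard_le_ncard this (Set.toFinite _)
  by_cases hcb : θ' * (Nat.card V : ℝ) ≤ (Sb.ncard : ℝ)
  · have hS : Sb ⊆ M.edgeSet := fun e he => he.1
    obtain ⟨hr1, hr2, hr3⟩ := hrest Sb hS
    refine weaken _ (by linarith) (rich_of_free (M := fromEdgeSet Sb) θ' hθ'0 hθ'1 s₀ h₂ hr3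
      (le_sup_right.trans hFG) (hr2.trans hMG) (fun u C hC => (hno₂ u C hC).le) ?_ hs₀3)
    refine hcb.trans ?_
    have : Sb ⊆ free (fromEdgeSet Sb) F₂ := by
      intro e he
      refine ⟨by rw [hr1]; exact he, ?_, he.2⟩
      induction e with
      | h x y => exact (hdisj x y he.1).2
    exact_mod_cast Set.ncard_le_ncard this (Set.toFinite _)
  by_cases hcc : θ' * (Nat.card V : ℝ) ≤ (Sc.ncard : ℝ)
  · have hS : Sc ⊆ M.edgeSet := by
      rintro e ⟨x, y, rfl, hQ, -⟩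
      exact hQ.1
    obtain ⟨hr1, hr2, hr3⟩ := hrest Sc hS
    refine cross_short (M := fromEdgeSet Sc) θ' hθ'0 hθ'1 (L := L) (s₀ := s₀) (by omega) hs₀1
      hs₀2 h₁ h₂ hr3 hno ?_ (by rw [hr1]; exact hcc) hFG (hr2.trans hMG)
    intro x y hxy
    rw [fromEdgeSet_adj] at hxy
    obtain ⟨⟨x', y', he, ⟨hQ1, hQ2, hQ3, hQ4, hQ5⟩, hc⟩, -⟩ := hxy
    rw [Sym2.eq_iff] at he
    rcases he with ⟨rfl, rfl⟩ | ⟨rfl, rfl⟩
    · exact Or.inl ⟨hQ2, hQ3, hQ4, hQ5, hc⟩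
    · exact Or.inr ⟨hQ2, hQ3, hQ4, hQ5, hc⟩
  by_cases hcd : θ' * (Nat.card V : ℝ) ≤ (Sd.ncard : ℝ)
  · have hS : Sd ⊆ M.edgeSet := by
      rintro e ⟨x, y, rfl, hQ, -⟩
      exact hQ.1
    obtain ⟨hr1, hr2, hr3⟩ := hrest Sd hS
    refine cross_short (M := fromEdgeSet Sd) θ' hθ'0 hθ'1 (L := L) (s₀ := s₀) (by omega) hs₀1
      hs₀2 h₂ h₁ hr3 hno' ?_ (by rw [hr1]; exact hcd) (by rw [sup_comm]; exact hFG)
      (hr2.trans hMG)
    intro x y hxy
    rw [fromEdgeSet_adj] at hxy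
    obtain ⟨⟨x', y', he, ⟨hQ1, hQ2, hQ3, hQ4, hQ5⟩, hc⟩, -⟩ := hxy
    rw [Sym2.eq_iff] at he
    rcases he with ⟨rfl, rfl⟩ | ⟨rfl, rfl⟩
    · exact Or.inr ⟨hQ4, hQ5, hQ2, hQ3, hc⟩
    · exact Or.inl ⟨hQ4, hQ5, hQ2, hQ3, hc⟩
  have hce : θ' * (Nat.card V : ℝ) ≤ (Se.ncard : ℝ) := by
    rw [not_le] at hca hcb hcc hcd
    have : θ * (Nat.card V : ℝ) = 5 * (θ' * (Nat.card V : ℝ)) := by rw [hθ']; ring
    linarith
  have hS : Se ⊆ M.edgeSet := by
    rintro e ⟨x, y, rfl, hQ, -⟩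
    exact hQ.1
  obtain ⟨hr1, hr2, hr3⟩ := hrest Se hS
  set P₁ := longPart F₁ F₂.support L with hP₁
  set P₂ := longPart F₂ F₁.support L with hP₂
  have hP₁F : P₁ ≤ F₁ := fun a b h => (longPart_adj.1 h).1
  have hP₂F : P₂ ≤ F₂ := fun a b h => (longPart_adj.1 h).1
  have hadjV : ∀ a b, (P₁ ⊔ P₂).Adj a b → a ∈ F₁.support → b ∈ F₁.support := by
    rintro a b (h | h) ha
    · exact ⟨a, (hP₁F h).symm⟩
    · exact absurd ha (longPart_adj.1 h).2.1
  have hreach : ∀ a b, (P₁ ⊔ P₂).Reachable a b → a ∈ F₁.support → b ∈ F₁.support := by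
    rintro a b ⟨p⟩
    induction p with
    | nil => exact id
    | cons h _ ih => exact fun ha => ih (hadjV _ _ h ha)
  refine weaken _ (by linarith) (hL₀ (P₁ ⊔ P₂) (fromEdgeSet Se) G ?_ ?_ hr3 ?_ ?_
    ((sup_le_sup hP₁F hP₂F).trans hFG) (hr2.trans hMG) (by rw [hr1]; exact hce))
  · intro v
    by_cases hv : v ∈ F₁.support
    · refine (Set.ncard_le_ncard (t := F₁.neighborSet v) ?_ (Set.toFinite _)).trans
        (h₁ (by obtain ⟨w, hw⟩ := hv; exact ⟨w, hw⟩)).le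
      rintro w (h | h)
      · exact hP₁F h
      · exact absurd hv (longPart_adj.1 h).2.1
    · by_cases hv2 : v ∈ F₂.support
      · refine (Set.ncard_le_ncard (t := F₂.neighborSet v) ?_ (Set.toFinite _)).trans
          (h₂ (by obtain ⟨w, hw⟩ := hv2; exact ⟨w, hw⟩)).le
        rintro w (h | h)
        · exact absurd ⟨w, hP₁F h⟩ hv
        · exact hP₂F h
      · have : (P₁ ⊔ P₂).neighborSet v = ∅ := by
          rw [Set.eq_empty_iff_forall_notMem]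
          rintro w (h | h)
          · exact hv ⟨w, hP₁F h⟩
          · exact hv2 ⟨w, hP₂F h⟩
        rw [this]
        simp
  · rintro v ⟨w, h | h⟩
    · have h3 : L ≤ csz P₁ v := longPart_csz h
      have h4 := csz_mono (le_sup_left : P₁ ≤ P₁ ⊔ P₂) v
      exact le_trans (by omega) (h3.trans h4)
    · have h3 : L ≤ csz P₂ v := longPart_csz h
      have h4 := csz_mono (le_sup_right : P₂ ≤ P₁ ⊔ P₂) v
      exact le_trans (by omega) (h3.trans h4)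
  · intro x y hxy hr
    rw [fromEdgeSet_adj] at hxy
    obtain ⟨⟨x', y', he, ⟨hQ1, hQ2, hQ3, hQ4, hQ5⟩, hc⟩, -⟩ := hxy
    rw [Sym2.eq_iff] at he
    rcases he with ⟨rfl, rfl⟩ | ⟨rfl, rfl⟩
    · exact hQ5 (hreach _ _ hr hQ2)
    · exact hQ5 (hreach _ _ hr.symm hQ2)
  · rintro x ⟨y, hxy⟩
    have hxy' : (fromEdgeSet Se).Adj x y := hxy
    rw [fromEdgeSet_adj] at hxy'
    obtain ⟨⟨x', y', he, ⟨hQ1, hQ2, hQ3, hQ4, hQ5⟩, hc1, hc2⟩, -⟩ := hxy'
    rw [Sym2.eq_iff] at he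
    rcases he with ⟨rfl, rfl⟩ | ⟨rfl, rfl⟩
    · exact support_mono le_sup_left (mem_longPart (by omega) hc1)
    · exact support_mono le_sup_right (mem_longPart (by omega) hc2)

end Pool.Agent.H40.CM
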