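import Pool.Agent.H40.CM.B1m
import Pool.Agent.H40.CM.D2
import Pool.Agent.H40.CM.MT
import Pool.Agent.H40.CM.O2
import Pool.Agent.H40.CM.X2

/-!
# CM / Fin: graphs of bounded maximum degree
-/

namespace Pool.Agent.H40.CM

open SimpleGraph Pool.Agent.H40.CK

universe u

theorem subD_exists (Δ : ℕ) : ∃ ε c : ℝ, 0 < ε ∧ 0 < c ∧ SubD.{u} Δ ε c := by
  obtain ⟨D, hD⟩ : ∃ D : ℕ, D = Δ + 1 := ⟨_, rfl⟩
  have hD0 : (0 : ℝ) < D := by
    have : 0 < D := by omega
    exact_mod_cast this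
  have hD1 : (1 : ℝ) ≤ D := by
    have : 1 ≤ D := by omega
    exact_mod_cast this
  obtain ⟨θ, hθ⟩ : ∃ θ : ℝ, θ = 1 / (80 * (D : ℝ) ^ 3) := ⟨_, rfl⟩
  have hθ0 : 0 < θ := by rw [hθ]; positivity
  have hθ1 : θ ≤ 1 := by
    rw [hθ, div_le_one (by positivity)]
    have : (1 : ℝ) ≤ (D : ℝ) ^ 3 := one_le_pow₀ hD1
    linarith
  obtain ⟨s, c₁, hs1, hc₁, hcross⟩ := cross.{u} θ hθ0 hθ1
  obtain ⟨K, ε, hK1, hε, hB⟩ := partB.{u} Δ s hs1
  have hK0 : (0 : ℝ) < K := by exact_mod_cast hK1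
  refine ⟨ε, min c₁ (1 / K), hε, lt_min hc₁ (by positivity), ?_⟩
  intro V _ _ G hΔ hbad
  classical
  by_cases hSC : ShortChorded G K
  · obtain ⟨u, C, hC, hl, hne⟩ := hSC
    refine ⟨u, C, hC, ?_⟩
    have h1 : 1 ≤ (chords G C).ncard := (Set.ncard_pos (Set.toFinite _)).2 hne
    have h1' : (1 : ℝ) ≤ ((chords G C).ncard : ℝ) := by exact_mod_cast h1
    have h2 : (C.length : ℝ) ≤ (K : ℝ) := by exact_mod_cast hl
    have h3 : min c₁ (1 / (K : ℝ)) * (C.length : ℝ) ≤ 1 := by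
      calc min c₁ (1 / (K : ℝ)) * (C.length : ℝ) ≤ (1 / (K : ℝ)) * (K : ℝ) := by
            have := min_le_right c₁ (1 / (K : ℝ))
            gcongr
        _ = 1 := by field_simp
    linarith
  obtain ⟨Z, hZG, hZe, hZs, hZf⟩ := hB G hΔ hbad hSC
  have hZdeg : ∀ v, (Z.neighborSet v).ncard ≤ 2 * D := by
    intro v
    have h1 : (Z.neighborSet v).ncard ≤ (G.neighborSet v).ncard :=
      Set.ncard_le_ncard (fun w hw => hZG hw) (Set.toFinite _)
    have h2 := hΔ v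
    omega
  obtain ⟨F, hFZ, hFc, hFs⟩ := petersen D Z hZe hZdeg
  -- the classes
  let S : Fin D × Fin D → Set (Sym2 V) := fun p =>
    {e | ∃ x y, e = s(x, y) ∧ e ∈ free G Z ∧ x ∈ (F p.1).support ∧ y ∈ (F p.2).support}
  have hSfree : ∀ p, S p ⊆ free G Z := by
    rintro p e ⟨x, y, -, he, -⟩
    exact he
  have hcov : free G Z ⊆ ⋃ p ∈ (Finset.univ : Finset (Fin D × Fin D)), S p := by
    intro e he
    induction e with
    | h x y =>
      obtain ⟨i, hi⟩ := hFs x (he.2.2 x (by simp))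
      obtain ⟨j, hj⟩ := hFs y (he.2.2 y (by simp))
      simp only [Set.mem_iUnion]
      exact ⟨(i, j), Finset.mem_univ _, x, y, rfl, he, hi, hj⟩
  have hsum : (free G Z).ncard ≤ ∑ p : Fin D × Fin D, (S p).ncard := by
    refine (Set.ncard_le_ncard hcov (Set.toFinite _)).trans ?_
    exact Finset.set_ncard_biUnion_le _ _
  have hNe : (Finset.univ : Finset (Fin D × Fin D)).Nonempty := by
    have : 0 < D := by omega
    exact ⟨(⟨0, this⟩, ⟨0, this⟩), Finset.mem_univ _⟩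
  obtain ⟨p, -, hp⟩ := Finset.exists_max_image (Finset.univ : Finset (Fin D × Fin D))
    (fun p => (S p).ncard) hNe
  have hsum2 : (free G Z).ncard ≤ D * D * (S p).ncard := by
    refine hsum.trans ?_
    calc ∑ q : Fin D × Fin D, (S q).ncard ≤ ∑ _q : Fin D × Fin D, (S p).ncard :=
          Finset.sum_le_sum fun q hq => hp q hq
      _ = D * D * (S p).ncard := by simp
  -- the matching
  have hBG : fromEdgeSet (S p) ≤ G := by
    intro x y hxy
    rw [fromEdgeSet_adj] at hxy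
    exact (hSfree p hxy.1).1
  have hBedge : (fromEdgeSet (S p)).edgeSet = S p := by
    rw [edgeSet_fromEdgeSet]
    ext e
    exact ⟨fun h => h.1, fun h => ⟨h, G.not_isDiag_of_mem_edgeSet (hSfree p h).1⟩⟩
  obtain ⟨M, hMB, hM, hMc⟩ := exists_matching (B := fromEdgeSet (S p)) (Δ := D) (by
    intro v
    have h1 : ((fromEdgeSet (S p)).neighborSet v).ncard ≤ (G.neighborSet v).ncard :=
      Set.ncard_le_ncard (fun w hw => hBG hw) (Set.toFinite _)
    have h2 := hΔ v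
    omega)
  rw [hBedge] at hMc
  have hMS : ∀ x y, M.Adj x y → s(x, y) ∈ S p := by
    intro x y hxy
    have := hMB hxy
    rw [fromEdgeSet_adj] at this
    exact this.1
  have hn : Nat.card V ≤ 80 * D ^ 3 * M.edgeSet.ncard := by
    calc Nat.card V ≤ 40 * (free G Z).ncard := hZf
      _ ≤ 40 * (D * D * (2 * D * M.edgeSet.ncard)) := by
          gcongr
          exact hsum2.trans (by gcongr)
      _ = 80 * D ^ 3 * M.edgeSet.ncard := by ring
  have hFF : F p.1 ⊔ F p.2 ≤ Z := sup_le (hFZ _) (hFZ _)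
  obtain ⟨u, C, hC, hCc⟩ := hcross (F p.1) (F p.2) M G (hFc _) (hFc _) hM
    (by
      intro u C hC
      have := hZs u (C.mapLe hFF) (hC.mapLe _)
      simpa using this)
    (by
      intro x y hxy
      obtain ⟨x', y', -, he, -⟩ := hMS x y hxy
      exact ⟨fun h => he.2.1 (hFZ _ h), fun h => he.2.1 (hFZ _ h)⟩)
    (by
      intro x y hxy
      obtain ⟨x', y', he, -, hx, hy⟩ := hMS x y hxy
      rw [Sym2.eq_iff] at he
      rcases he with ⟨rfl, rfl⟩ | ⟨rfl, rfl⟩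
      · exact Or.inl ⟨hx, hy⟩
      · exact Or.inr ⟨hx, hy⟩)
    (by
      have h1 : (Nat.card V : ℝ) ≤ 80 * (D : ℝ) ^ 3 * (M.edgeSet.ncard : ℝ) := by
        exact_mod_cast hn
      rw [hθ, div_mul_eq_mul_div, one_mul, div_le_iff₀ (by positivity)]
      linarith)
    (hFF.trans hZG) (hMB.trans hBG)
  refine ⟨u, C, hC, le_trans ?_ hCc⟩
  have h6 : (0 : ℝ) ≤ (C.length : ℝ) := Nat.cast_nonneg _
  exact mul_le_mul_of_nonneg_right (min_le_left _ _) h6

end Pool.Agent.H40.CM
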