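import Mathlib
import Pool.Agent.H40.CK.A2

/-!
# CM / O1: balanced orientation of an even graph

`exists_cycle_of_even`: take a longest path; its first vertex `a` has an edge, so (even degree) at least two neighbours;
all neighbours of `a` are on the path, and the one which is not the second vertex closes a cycle.

`exists_orientation`: strong induction on the number of edges.  If `Z = ⊥` take `O = False`.  Otherwise let `C` be a
cycle of `Z`, orient it along the walk, and `Z' = Z` minus the edges of `C`, which is even since every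
vertex loses `0` or `2` edges.
-/

namespace Pool.Agent.H40.CM

open SimpleGraph Pool.Agent.H40.CK

variable {V : Type*}

theorem exists_cycle_of_even [Finite V] {Z : SimpleGraph V}
    (heven : ∀ v, Even (Z.neighborSet v).ncard) (hne : Z ≠ ⊥) :
    ∃ (u : V) (C : Z.Walk u u), C.IsCycle := by
  classical
  by_contra hcon
  have hac : Z.IsAcyclic := fun u C hC => hcon ⟨u, C, hC⟩
  obtain ⟨a, b, hab⟩ : ∃ a b, Z.Adj a b := by
    by_contra h
    push Not at h
    exact hne (by ext x y; simp [h x y])
  have : Nonempty V := ⟨a⟩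
  obtain ⟨u, v, p, hp, hmax⟩ := Walk.exists_isPath_forall_isPath_length_le_length Z
  have h1 : 1 ≤ p.length := by
    have := hmax a b (Walk.cons hab Walk.nil) (by simp [hab.ne])
    simpa using this
  have hsupp : ∀ w, Z.Adj u w → w ∈ p.support := by
    intro w hw
    by_contra hws
    have h2 : (Walk.cons hw.symm p).IsPath := hp.cons hws
    have := hmax _ _ _ h2
    rw [Walk.length_cons] at this
    omega
  have hset : Z.neighborSet u = {p.snd} := by
    ext w
    rw [mem_neighborSet, Set.mem_singleton_iff]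
    constructor
    · intro hw
      exact hac.eq_snd_of_adj_start hp hw (hsupp w hw)
    · rintro rfl
      exact Walk.adj_snd (by
        intro h
        have := h.length_eq_zero
        omega)
  have := heven u
  rw [hset, Set.ncard_singleton] at this
  exact absurd this (by decide)

private theorem even_del [Finite V] {Z : SimpleGraph V} (heven : ∀ v, Even (Z.neighborSet v).ncard)
    {u : V} {C : Z.Walk u u} (hC : C.IsCycle) (v : V) :
    Even ((Z.deleteEdges {e | e ∈ C.edges}).neighborSet v).ncard := by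
  classical
  have hun : Z.neighborSet v = (Z.deleteEdges {e | e ∈ C.edges}).neighborSet v ∪
      {x | s(v, x) ∈ C.edges} := by
    ext x
    simp only [mem_neighborSet, deleteEdges_adj, Set.mem_union, Set.mem_ofPred_eq]
    constructor
    · intro h
      by_cases hx : s(v, x) ∈ C.edges
      · exact Or.inr hx
      · exact Or.inl ⟨h, hx⟩
    · rintro (h | h)
      · exact h.1
      · exact C.adj_of_mem_edges h
  have hdis : Disjoint ((Z.deleteEdges {e | e ∈ C.edges}).neighborSet v)
      {x | s(v, x) ∈ C.edges} := by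
    rw [Set.disjoint_left]
    intro x hx hx'
    simp only [mem_neighborSet, deleteEdges_adj, Set.mem_ofPred_eq] at hx hx'
    exact hx.2 hx'
  have hcard := heven v
  rw [hun, Set.ncard_union_eq hdis (Set.toFinite _) (Set.toFinite _)] at hcard
  have h2 : Even ({x | s(v, x) ∈ C.edges} : Set V).ncard := by
    by_cases hv : v ∈ C.support
    · have h := hC.ncard_neighborSet_toSubgraph_eq_two hv
      have e : (C.toSubgraph.neighborSet v) = {x | s(v, x) ∈ C.edges} := by
        ext x
        rw [Subgraph.mem_neighborSet, Walk.adj_toSubgraph_iff_mem_edges]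
        rfl
      rw [← e, h]
      exact even_two
    · have : ({x | s(v, x) ∈ C.edges} : Set V) = ∅ := by
        rw [Set.eq_empty_iff_forall_notMem]
        intro x hx
        exact hv (C.fst_mem_support_of_mem_edges hx)
      rw [this]
      simp
  rw [Nat.even_add] at hcard
  exact hcard.2 h2

private theorem orient_aux [Finite V] (n : ℕ) : ∀ (Z : SimpleGraph V),
    Z.edgeSet.ncard = n → (∀ v, Even (Z.neighborSet v).ncard) →
    ∃ O : V → V → Prop, (∀ u v, Z.Adj u v ↔ (O u v ∨ O v u)) ∧ (∀ u v, O u v → ¬ O v u) ∧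
      ∀ v, ({w | O v w} : Set V).ncard = ({w | O w v} : Set V).ncard := by
  classical
  induction n using Nat.strong_induction_on with
  | _ n ih =>
  intro Z hn heven
  by_cases hbot : Z = ⊥
  · refine ⟨fun _ _ => False, ?_, ?_, ?_⟩
    · intro u v
      simp [hbot]
    · intro u v h
      exact h.elim
    · intro v
      rfl
  obtain ⟨u, C, hC⟩ := exists_cycle_of_even heven hbot
  set Z' := Z.deleteEdges {e | e ∈ C.edges} with hZ'
  have hev' : ∀ v, Even (Z'.neighborSet v).ncard := fun v => even_del heven hC v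
  obtain ⟨c, hc, -, -, hce⟩ := exists_cycSeq_of_cycle C hC
  have hL := hC.three_le_length
  have hlt : Z'.edgeSet.ncard < n := by
    rw [← hn]
    apply Set.ncard_lt_ncard _ (Set.toFinite _)
    rw [edgeSet_ssubset_edgeSet]
    refine lt_of_le_of_ne (deleteEdges_le _) ?_
    intro h
    have h1 : s(c 0, c (0 + 1)) ∈ C.edges := (hce _).2 ⟨0, rfl⟩
    have h2 : Z.Adj (c 0) (c (0 + 1)) := C.adj_of_mem_edges h1
    rw [← h, hZ', deleteEdges_adj] at h2
    exact h2.2 h1
  obtain ⟨O', h1, h2, h3⟩ := ih _ hlt Z' rfl hev'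
  have hOC : ∀ x y, s(x, y) ∈ C.edges ↔
      ((∃ i, c i = x ∧ c (i + 1) = y) ∨ (∃ i, c i = y ∧ c (i + 1) = x)) := by
    intro x y
    rw [hce]
    constructor
    · rintro ⟨i, hi⟩
      rw [Sym2.eq_iff] at hi
      rcases hi with ⟨ha, hb⟩ | ⟨ha, hb⟩
      · exact Or.inl ⟨i, ha.symm, hb.symm⟩
      · exact Or.inr ⟨i, hb.symm, ha.symm⟩
    · rintro (⟨i, ha, hb⟩ | ⟨i, ha, hb⟩)
      · exact ⟨i, by rw [ha, hb]⟩
      · exact ⟨i, by rw [ha, hb, Sym2.eq_swap]⟩
  have hZadj : ∀ x y, Z.Adj x y ↔ (Z'.Adj x y ∨ s(x, y) ∈ C.edges) := by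
    intro x y
    rw [hZ', deleteEdges_adj]
    constructor
    · intro h
      by_cases hx : s(x, y) ∈ C.edges
      · exact Or.inr hx
      · exact Or.inl ⟨h, hx⟩
    · rintro (h | h)
      · exact h.1
      · exact C.adj_of_mem_edges h
  have hanti : ∀ x y, (∃ i, c i = x ∧ c (i + 1) = y) → ¬ (∃ i, c i = y ∧ c (i + 1) = x) := by
    rintro x y ⟨i, hi1, hi2⟩ ⟨j, hj1, hj2⟩
    have e1 := (hc.eq_iff (i + 1) j).1 (hi2.trans hj1.symm)
    have e2 := (hc.eq_iff i (j + 1)).1 (hi1.trans hj2.symm)
    have e3 : (C.length : ℤ) ∣ 2 := by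
      have := dvd_sub e2 e1
      have h4 : j + 1 - i - (j - (i + 1)) = 2 := by ring
      rwa [h4] at this
    have := Int.le_of_dvd (by norm_num) e3
    omega
  have hO'C : ∀ x y, O' x y → s(x, y) ∉ C.edges := by
    intro x y h
    have : Z'.Adj x y := (h1 x y).2 (Or.inl h)
    rw [hZ', deleteEdges_adj] at this
    exact this.2
  have hO'C' : ∀ x y, O' y x → s(x, y) ∉ C.edges := by
    intro x y h h'
    rw [Sym2.eq_swap] at h'
    exact hO'C y x h h'
  refine ⟨fun x y => O' x y ∨ ∃ i, c i = x ∧ c (i + 1) = y, ?_, ?_, ?_⟩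
  · intro x y
    rw [hZadj, h1, hOC]
    exact or_or_or_comm
  · rintro x y (h | h) (h' | h')
    · exact h2 x y h h'
    · exact hO'C x y h ((hOC x y).2 (Or.inr h'))
    · exact hO'C' x y h' ((hOC x y).2 (Or.inl h))
    · exact hanti x y h h'
  · intro v
    have ea : ({w | O' v w ∨ ∃ i, c i = v ∧ c (i + 1) = w} : Set V) =
        {w | O' v w} ∪ {w | ∃ i, c i = v ∧ c (i + 1) = w} := rfl
    have eb : ({w | O' w v ∨ ∃ i, c i = w ∧ c (i + 1) = v} : Set V) =
        {w | O' w v} ∪ {w | ∃ i, c i = w ∧ c (i + 1) = v} := rfl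
    have d1 : Disjoint ({w | O' v w} : Set V) {w | ∃ i, c i = v ∧ c (i + 1) = w} := by
      rw [Set.disjoint_left]
      intro w hw hw'
      exact hO'C v w hw ((hOC v w).2 (Or.inl hw'))
    have d2 : Disjoint ({w | O' w v} : Set V) {w | ∃ i, c i = w ∧ c (i + 1) = v} := by
      rw [Set.disjoint_left]
      intro w hw hw'
      exact hO'C w v hw ((hOC w v).2 (Or.inl hw'))
    have hC1 : ({w | ∃ i, c i = v ∧ c (i + 1) = w} : Set V).ncard =
        ({w | ∃ i, c i = w ∧ c (i + 1) = v} : Set V).ncard := by
      by_cases hv : ∃ i, c i = v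
      · obtain ⟨i, hi⟩ := hv
        have f1 : ({w | ∃ i, c i = v ∧ c (i + 1) = w} : Set V) = {c (i + 1)} := by
          ext w
          simp only [Set.mem_ofPred_eq, Set.mem_singleton_iff]
          constructor
          · rintro ⟨j, hj1, hj2⟩
            rw [← hj2, hc.eq_iff]
            have := (hc.eq_iff j i).1 (hj1.trans hi.symm)
            have h4 : i + 1 - (j + 1) = i - j := by ring
            rwa [h4]
          · rintro rfl
            exact ⟨i, hi, rfl⟩
        have f2 : ({w | ∃ i, c i = w ∧ c (i + 1) = v} : Set V) = {c (i - 1)} := by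
          ext w
          simp only [Set.mem_ofPred_eq, Set.mem_singleton_iff]
          constructor
          · rintro ⟨j, hj1, hj2⟩
            rw [← hj1, hc.eq_iff]
            have := (hc.eq_iff (j + 1) i).1 (hj2.trans hi.symm)
            have h4 : i - 1 - j = i - (j + 1) := by ring
            rwa [h4]
          · rintro rfl
            exact ⟨i - 1, rfl, by rw [sub_add_cancel]; exact hi⟩
        rw [f1, f2, Set.ncard_singleton, Set.ncard_singleton]
      · have f1 : ({w | ∃ i, c i = v ∧ c (i + 1) = w} : Set V) = ∅ := by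
          rw [Set.eq_empty_iff_forall_notMem]
          rintro w ⟨j, hj1, -⟩
          exact hv ⟨j, hj1⟩
        have f2 : ({w | ∃ i, c i = w ∧ c (i + 1) = v} : Set V) = ∅ := by
          rw [Set.eq_empty_iff_forall_notMem]
          rintro w ⟨j, -, hj2⟩
          exact hv ⟨j + 1, hj2⟩
        rw [f1, f2]
    rw [ea, eb, Set.ncard_union_eq d1 (Set.toFinite _) (Set.toFinite _),
      Set.ncard_union_eq d2 (Set.toFinite _) (Set.toFinite _), h3 v, hC1]

theorem exists_orientation [Finite V] (Z : SimpleGraph V)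
    (heven : ∀ v, Even (Z.neighborSet v).ncard) :
    ∃ O : V → V → Prop, (∀ u v, Z.Adj u v ↔ (O u v ∨ O v u)) ∧ (∀ u v, O u v → ¬ O v u) ∧
      ∀ v, ({w | O v w} : Set V).ncard = ({w | O w v} : Set V).ncard :=
  orient_aux _ Z rfl heven

end Pool.Agent.H40.CM
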